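import Pool.Agent.H48.PV.UniU
import Pool.Agent.H48.PW.EstW

/-!
# Module RegU: the region `1 + 2s < γ`, `γ + 2s < 2`, and the final theorem
-/

set_option autoImplicit false

open MeasureTheory Set Filter Topology Pool.Agent.H25.Kin Pool.Agent.H82.BK Pool.Agent.H82.CM
open Pool.Agent.H48.PL Pool.Agent.H48.PI Pool.Agent.H48.PW Pool.Agent.H85.UP
open Pool.Agent.H15.AV (UNice gau)

namespace Pool.Agent.H48.PV

variable {d : ℕ}

/-- choice of the exponents -/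
lemma exists_UE {s a q₀ : ℝ} (hs : 0 < s) (has : 2 * s < a) (ha1 : a + 2 * s < 1) (hq₀ : 1 < q₀) :
    ∃ m q : ℝ, UE s a m q ∧ q ≤ q₀ := by
  have hc : Tendsto (fun β : ℝ => β / (2 * s) * (1 + β) + a) (𝓝[>] (2 * s)) (𝓝 (1 + 2 * s + a)) := by
    have h1 : Continuous fun β : ℝ => β / (2 * s) * (1 + β) + a := by fun_prop
    have h2 := h1.tendsto (2 * s)
    have h3 : (2 * s) / (2 * s) * (1 + 2 * s) + a = 1 + 2 * s + a := by
      rw [div_self (by positivity), one_mul]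
    rw [h3] at h2
    exact h2.mono_left nhdsWithin_le_nhds
  have e1 : ∀ᶠ β in 𝓝[>] (2 * s), β / (2 * s) * (1 + β) + a < 2 :=
    hc.eventually (gt_mem_nhds (by linarith))
  have e2 : ∀ᶠ β in 𝓝[>] (2 * s), β < 1 - a :=
    (gt_mem_nhds (by linarith : 2 * s < 1 - a)).filter_mono nhdsWithin_le_nhds
  have e3 : ∀ᶠ β in 𝓝[>] (2 * s), 2 * s < β := eventually_mem_nhdsWithin
  have e4 : ∀ᶠ β in 𝓝[>] (2 * s), β < a := (gt_mem_nhds has).filter_mono nhdsWithin_le_nhds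
  obtain ⟨m, h1, h2, h3, h4⟩ := (e1.and (e2.and (e3.and e4))).exists
  refine ⟨m, min q₀ (min (3 / 2) (2 - a)), ⟨hs, has, ha1, h3, h4.le, by linarith, h1, ?_, ?_, ?_⟩,
    min_le_left _ _⟩
  · exact lt_min hq₀ (lt_min (by norm_num) (by linarith))
  · have := (min_le_right q₀ (min (3 / 2) (2 - a))).trans (min_le_right _ _)
    linarith
  · exact (min_le_right _ _).trans (min_le_left _ _)

/-- the upper region -/
theorem reg_up {s γ : ℝ} (hd : 2 ≤ d) (hs : 0 < s) (h1 : 1 + 2 * s < γ) (h3 : γ + 2 * s < 2)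
    {b : ℝ → ℝ} (hb : IsKernel d s b) : Reg d s γ b := by
  obtain ⟨a, rfl⟩ : ∃ a, γ = 1 + a := ⟨γ - 1, by ring⟩
  refine ⟨hd, hs, by linarith, by linarith, h3, hb, fun e p hp M hM m₀ hm₀ => ?_⟩
  obtain ⟨C, Ca, cb, HL⟩ := exists_hypL hd hs (by linarith : s < 1) (by linarith : (0 : ℝ) ≤ 1 + a + 2 * s)
    (by linarith : 1 + a + 2 * s ≤ 2) hb
  obtain ⟨q₀, hq₀, HJ⟩ := j_time HL (by linarith) (by linarith) e
  obtain ⟨m, q, U, hq⟩ := exists_UE hs (by linarith : 2 * s < a) (by linarith) hq₀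
  obtain ⟨θ₀, η, hθ₀, hη, hη1, HJ2⟩ := HJ q U.hq hq U.hq2
  obtain ⟨θ₁, hθ₁, HE⟩ := err_one HL U e
  have hθ : 0 < min θ₀ θ₁ := lt_min hθ₀ hθ₁
  obtain ⟨c, K, hc, hK, HJ3⟩ := HJ2 (min θ₀ θ₁) hθ (min_le_left _ _)
  have hZ : ZT d a q (min θ₀ θ₁) η b e := fun M => z_time HL U e hθ hη hη1 hc hK HJ3 M
  have hE : ErrOne d a m q (min θ₀ θ₁) η b e := HE (min θ₀ θ₁) η hθ (min_le_right _ _) hη hη1
  exact planar_uniformU HL U e hE hZ (tail_r HL U) hM hm₀ hp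

/-- **all very hard potentials** -/
theorem est_full {s γ : ℝ} (hd : 2 ≤ d) (hs : 0 < s) (h1 : 1 < γ) (h3 : γ + 2 * s < 2)
    (h4 : 3 ≤ d ∨ 1 + 2 * s < γ) {b : ℝ → ℝ} (hb : IsKernel d s b) {ν : Vec d} (hν : ν ≠ 0) :
    Pool.Agent.H25.PN.Est d γ b (Pool.Agent.H25.PN.PlaneSym ν) :=
  est_full_of (fun h b hb => reg_up hd hs h h3 hb) hs h1 h3 h4 hb hν

end Pool.Agent.H48.PV
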