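import Pool.Agent.H48.PV.EUDef

/-!
# Module LocU: the local term of the damping potential is absorbed

`g' = chi_R₂ bet_C₂(g) ≤ g₁ = chi_R bet_C₀(g)` (`chi` is nondecreasing in `R > 0`, `bet C r = C r/(C+r)` in `C`), `g' ≤ C₂` (`bet_le_C`). Choose `δ ∈ (0,1]` with `4 R₂ M C₂ δ vol{len u ≤ 1} ≤ c/8`: `∫_(len ≤ δ) len(v-w) g' ≤ δ C₂ vol{len u ≤ δ} ≤ δ C₂ vol{len u ≤ 1}`
(finite: `len u ≤ 1` implies `‖u‖ ≤ 1`); on `len ≥ δ`: `len ≤ δ^(-a) len^(1+a)`, so `∫_(len ≥ δ) len g' ≤ δ^(-a) ∫ len^(1+a) g₁`. `lam₀ = κ δ^a/(4 R₂ M + 1)`. All integrals exist (`Nice g`: rapid decay, `g' ≤ g₁ ≤ g`).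
-/

set_option autoImplicit false

open MeasureTheory Set Filter Topology Pool.Agent.H25.Kin Pool.Agent.H82.BK Pool.Agent.H82.CM
open Pool.Agent.H48.PL Pool.Agent.H48.PI Pool.Agent.H48.PW Pool.Agent.H85.UP
open Pool.Agent.H15.AV (UNice gau)

namespace Pool.Agent.H48.PV

variable {d : ℕ} {a : ℝ}

private lemma chi_mono {R R' : ℝ} (hR : 0 < R) (h : R ≤ R') (w : Vec d) : chi R w ≤ chi R' w := by
  unfold chi
  have h1 : jb w / R' ≤ jb w / R := div_le_div_of_nonneg_left (jb_pos w).le hR h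
  exact max_le_max le_rfl (min_le_min le_rfl (by linarith))

private lemma bet_mono_C {C C' : ℝ} (hC : 0 < C) (h : C ≤ C') {r : ℝ} (hr : 0 ≤ r) :
    bet C r ≤ bet C' r := by
  have hC' : 0 < C' := hC.trans_le h
  unfold bet
  rw [div_le_div_iff₀ (by positivity) (by positivity)]
  nlinarith [mul_le_mul_of_nonneg_right h (mul_nonneg hr hr)]

private lemma len_pow_int {g : Vec d → ℝ} (hg : Nice g) (v : Vec d) {b : ℝ} (hb : 0 ≤ b)
    (hb2 : b ≤ 2) : Integrable fun w : Vec d => g w * len (v - w) ^ b := by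
  have hc : Continuous fun w : Vec d => len (v - w) :=
    continuous_len.comp (continuous_const.sub continuous_id)
  have hm : Measurable fun w : Vec d => len (v - w) ^ b := hc.measurable.pow_const _
  have h1 : PG fun w : Vec d => 1 + nsq (v - w) := by
    obtain ⟨N, C, hC0, hC⟩ := (PG.nsq (d := d)).pos
    refine (PG.const (1 : ℝ)).add ⟨N, C * (1 + ‖v‖) ^ N, fun w => ?_⟩
    refine (hC (v - w)).trans ?_
    rw [mul_assoc, ← mul_pow]
    exact mul_le_mul_of_nonneg_left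
      (pow_le_pow_left₀ (by positivity) (w_sub_le v w) _) hC0
  have h2 : RD fun w : Vec d => g w * (1 + nsq (v - w)) := hg.rd.mul_PG h1
  have h3 : Integrable fun w : Vec d => g w * (1 + nsq (v - w)) :=
    h2.integrable (hg.cont.mul (continuous_const.add
      (continuous_sq.comp (continuous_const.sub continuous_id)))).aestronglyMeasurable
  refine h3.mono (hg.cont.measurable.mul hm).aestronglyMeasurable (Eventually.of_forall fun w => ?_)
  have h0 : 0 ≤ nsq (v - w) := sq_nonneg' _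
  rw [norm_mul, norm_mul, Real.norm_eq_abs (len (v - w) ^ b), Real.norm_eq_abs (1 + nsq (v - w)),
    abs_of_nonneg (Real.rpow_nonneg (len_nonneg _) _), abs_of_nonneg (by linarith)]
  refine mul_le_mul_of_nonneg_left ?_ (norm_nonneg _)
  rcases le_total (len (v - w)) 1 with h | h
  · exact (Real.rpow_le_one (len_nonneg _) h hb).trans (by linarith)
  · calc len (v - w) ^ b ≤ len (v - w) ^ (2 : ℝ) := Real.rpow_le_rpow_of_exponent_le h hb2
      _ = nsq (v - w) := by rw [Real.rpow_two, len_sq]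
      _ ≤ 1 + nsq (v - w) := by linarith

theorem loc_U (ha : 0 < a) (ha1 : a ≤ 1) {κ c M R₂ C₂ : ℝ} (hκ : 0 < κ) (hc : 0 < c) (hM : 0 ≤ M)
    (hR₂ : 1 ≤ R₂) (hC₂ : 0 < C₂) :
    ∃ lam₀ : ℝ, 0 < lam₀ ∧ ∀ lam : ℝ, 0 ≤ lam → lam ≤ lam₀ → ∀ R C₀ : ℝ, R₂ ≤ R → C₂ ≤ C₀ →
      ∀ g : Vec d → ℝ, Nice g → (∀ u, 0 ≤ g u) → ∀ v : Vec d,
      lam * (4 * R₂ * M * ∫ w, len (v - w) * (chi R₂ w * bet C₂ (g w))) ≤
        κ * (∫ w, len (v - w) ^ (1 + a) * (chi R w * bet C₀ (g w))) + lam * c / 8 := by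
  classical
  set B : Set (Vec d) := {u | len u ≤ 1} with hB
  have hBm : MeasurableSet B := measurableSet_le continuous_len.measurable measurable_const
  have hBf : volume B ≠ ⊤ := by
    refine ne_top_of_le_ne_top (isCompact_closedBall (0 : Vec d) 1).measure_ne_top
      (measure_mono fun u hu => ?_)
    rw [mem_closedBall_zero_iff]
    exact (norm_le_len u).trans hu
  set V : ℝ := volume.real B with hV
  have hV0 : 0 ≤ V := measureReal_nonneg
  set A : ℝ := 4 * R₂ * M * C₂ * V with hA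
  have hA0 : 0 ≤ A := by positivity
  set δ : ℝ := min 1 (c / (8 * (A + 1))) with hδd
  have hδ : 0 < δ := lt_min one_pos (by positivity)
  have hδ1 : δ ≤ 1 := min_le_left _ _
  have hAδ : A * δ ≤ c / 8 := by
    have h1 : δ ≤ c / (8 * (A + 1)) := min_le_right _ _
    calc A * δ ≤ (A + 1) * (c / (8 * (A + 1))) :=
          mul_le_mul (by linarith) h1 hδ.le (by linarith)
      _ = c / 8 := by field_simp
  have hδa : 0 < δ ^ a := Real.rpow_pos_of_pos hδ a
  have hRM : 0 ≤ 4 * R₂ * M := by positivity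
  refine ⟨κ * δ ^ a / (4 * R₂ * M + 1), by positivity, ?_⟩
  intro lam hlam0 hlam R C₀ hR hC g hg hg0 v
  have hC₀ : 0 < C₀ := hC₂.trans_le hC
  have hR₂0 : 0 < R₂ := by linarith
  set g' : Vec d → ℝ := fun w => chi R₂ w * bet C₂ (g w) with hg'
  set g₁ : Vec d → ℝ := fun w => chi R w * bet C₀ (g w) with hg₁
  have hg'0 : ∀ w, 0 ≤ g' w := fun w => mul_nonneg (chi_nonneg _ _) (bet_nonneg hC₂ (hg0 w))
  have hg₁0 : ∀ w, 0 ≤ g₁ w := fun w => mul_nonneg (chi_nonneg _ _) (bet_nonneg hC₀ (hg0 w))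
  have hg'₁ : ∀ w, g' w ≤ g₁ w := fun w =>
    mul_le_mul (chi_mono hR₂0 hR w) (bet_mono_C hC₂ hC (hg0 w)) (bet_nonneg hC₂ (hg0 w))
      (chi_nonneg _ _)
  have hg₁g : ∀ w, g₁ w ≤ g w := fun w => by
    calc g₁ w ≤ 1 * g w := mul_le_mul (chi_le_one _ _) (bet_le hC₀ (hg0 w))
          (bet_nonneg hC₀ (hg0 w)) zero_le_one
      _ = g w := one_mul _
  have hg'C : ∀ w, g' w ≤ C₂ := fun w => by
    calc g' w ≤ 1 * C₂ := mul_le_mul (chi_le_one _ _) (bet_le_C hC₂ (hg0 w))
          (bet_nonneg hC₂ (hg0 w)) zero_le_one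
      _ = C₂ := one_mul _
  have hlc : Continuous fun w : Vec d => len (v - w) :=
    continuous_len.comp (continuous_const.sub continuous_id)
  have hmb : ∀ C : ℝ, Measurable fun w => bet C (g w) := fun C => by
    unfold bet
    exact (measurable_const.mul hg.cont.measurable).div (measurable_const.add hg.cont.measurable)
  have hmg' : Measurable g' := (chi_cont R₂).measurable.mul (hmb C₂)
  have hmg₁ : Measurable g₁ := (chi_cont R).measurable.mul (hmb C₀)
  -- integrability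
  have hint1 : Integrable fun w : Vec d => len (v - w) ^ (1 + a) * g₁ w := by
    refine (len_pow_int hg v (b := 1 + a) (by linarith) (by linarith)).mono
      ((hlc.measurable.pow_const _).mul hmg₁).aestronglyMeasurable
      (Eventually.of_forall fun w => ?_)
    have h0 : 0 ≤ len (v - w) ^ (1 + a) := Real.rpow_nonneg (len_nonneg _) _
    rw [Real.norm_eq_abs, Real.norm_eq_abs, abs_of_nonneg (mul_nonneg h0 (hg₁0 w)),
      abs_of_nonneg (mul_nonneg (hg0 w) h0), mul_comm]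
    exact mul_le_mul_of_nonneg_right (hg₁g w) h0
  have hint' : Integrable fun w : Vec d => len (v - w) * g' w := by
    refine (len_pow_int hg v (b := 1) (by norm_num) (by norm_num)).mono
      (hlc.measurable.mul hmg').aestronglyMeasurable
      (Eventually.of_forall fun w => ?_)
    have h0 : 0 ≤ len (v - w) := len_nonneg _
    rw [Real.rpow_one, Real.norm_eq_abs, Real.norm_eq_abs, abs_of_nonneg (mul_nonneg h0 (hg'0 w)),
      abs_of_nonneg (mul_nonneg (hg0 w) h0), mul_comm]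
    exact mul_le_mul_of_nonneg_right ((hg'₁ w).trans (hg₁g w)) h0
  have hintB : Integrable (B.indicator fun _ => (1 : ℝ)) :=
    (integrable_indicator_iff hBm).2 (integrableOn_const hBf)
  have hintB' : Integrable fun w : Vec d => B.indicator (fun _ => (1 : ℝ)) (v - w) :=
    hintB.comp_sub_left v
  have hBV : ∫ w : Vec d, B.indicator (fun _ => (1 : ℝ)) (v - w) = V := by
    rw [integral_sub_left_eq_self (fun u => B.indicator (fun _ => (1 : ℝ)) u) volume v,
      integral_indicator_const _ hBm]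
    simp [hV]
  -- pointwise
  have hpt : ∀ w : Vec d, len (v - w) * g' w ≤
      δ * C₂ * B.indicator (fun _ => (1 : ℝ)) (v - w) +
        (δ ^ a)⁻¹ * (len (v - w) ^ (1 + a) * g₁ w) := by
    intro w
    have h0 : 0 ≤ len (v - w) := len_nonneg _
    have h2 : 0 ≤ len (v - w) ^ (1 + a) := Real.rpow_nonneg h0 _
    have h3 : 0 ≤ (δ ^ a)⁻¹ * (len (v - w) ^ (1 + a) * g₁ w) :=
      mul_nonneg (inv_nonneg.2 hδa.le) (mul_nonneg h2 (hg₁0 w))
    rcases le_or_gt (len (v - w)) δ with h | h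
    · have h4 : v - w ∈ B := h.trans hδ1
      rw [indicator_of_mem h4]
      have h5 : len (v - w) * g' w ≤ δ * C₂ := mul_le_mul h (hg'C w) (hg'0 w) hδ.le
      linarith
    · have h4 : 0 ≤ δ * C₂ * B.indicator (fun _ => (1 : ℝ)) (v - w) :=
        mul_nonneg (by positivity) (indicator_nonneg (fun _ _ => zero_le_one) _)
      have h5 : len (v - w) ≤ (δ ^ a)⁻¹ * len (v - w) ^ (1 + a) := by
        have hl : 0 < len (v - w) := hδ.trans h
        rw [Real.rpow_add hl, Real.rpow_one]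
        have h6 : δ ^ a ≤ len (v - w) ^ a := Real.rpow_le_rpow hδ.le h.le ha.le
        rw [inv_mul_eq_div, le_div_iff₀ hδa]
        exact mul_le_mul_of_nonneg_left h6 h0
      have h7 : len (v - w) * g' w ≤ (δ ^ a)⁻¹ * (len (v - w) ^ (1 + a) * g₁ w) := by
        have h8 : len (v - w) * g' w ≤ ((δ ^ a)⁻¹ * len (v - w) ^ (1 + a)) * g₁ w :=
          mul_le_mul h5 (hg'₁ w) (hg'0 w) (mul_nonneg (inv_nonneg.2 hδa.le) h2)
        exact h8.trans (le_of_eq (mul_assoc _ _ _))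
      linarith
  have hI : ∫ w, len (v - w) * g' w ≤
      δ * C₂ * V + (δ ^ a)⁻¹ * ∫ w, len (v - w) ^ (1 + a) * g₁ w := by
    have h1 := integral_mono hint' ((hintB'.const_mul (δ * C₂)).add (hint1.const_mul (δ ^ a)⁻¹)) hpt
    refine h1.trans (le_of_eq ?_)
    rw [integral_add' (hintB'.const_mul (δ * C₂)) (hint1.const_mul (δ ^ a)⁻¹),
      integral_const_mul, integral_const_mul, hBV]
  have hI1 : 0 ≤ ∫ w, len (v - w) ^ (1 + a) * g₁ w :=
    integral_nonneg fun w => mul_nonneg (Real.rpow_nonneg (len_nonneg _) _) (hg₁0 w)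
  have hlam' : lam * (4 * R₂ * M) ≤ κ * δ ^ a := by
    have h1 : lam * (4 * R₂ * M + 1) ≤ κ * δ ^ a := by
      rwa [le_div_iff₀ (by linarith)] at hlam
    nlinarith
  have h8 : lam * (4 * R₂ * M) * (δ ^ a)⁻¹ ≤ κ := by
    rw [← div_eq_mul_inv, div_le_iff₀ hδa]
    exact hlam'
  calc lam * (4 * R₂ * M * ∫ w, len (v - w) * g' w)
      ≤ lam * (4 * R₂ * M * (δ * C₂ * V + (δ ^ a)⁻¹ * ∫ w, len (v - w) ^ (1 + a) * g₁ w)) :=
        mul_le_mul_of_nonneg_left (mul_le_mul_of_nonneg_left hI hRM) hlam0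
    _ = (lam * (4 * R₂ * M) * (δ ^ a)⁻¹) * (∫ w, len (v - w) ^ (1 + a) * g₁ w) +
        lam * (A * δ) := by rw [hA]; ring
    _ ≤ κ * (∫ w, len (v - w) ^ (1 + a) * g₁ w) + lam * (c / 8) :=
        add_le_add (mul_le_mul_of_nonneg_right h8 hI1) (mul_le_mul_of_nonneg_left hAδ hlam0)
    _ = _ := by ring

end Pool.Agent.H48.PV
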