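import Pool.Agent.H48.PV.EUDef
import Pool.Agent.H48.PI.AvgL
import Pool.Agent.H48.PI.AvgG

/-!
# Module VarA: mass of the bounded part, mass of slabs

* `mass_gb`: from `g2_small` in PI/AvgG.lean (`∫ (F - g1) jb^(1+a) dν ≤ ε₂`, `g1 q F = gb q.R q.C₀ F`, `jb ≥ 1`).
* `slab_gb`: `gb R C F = 0` unless `jb w < 2R`, `gb ≤ F ≤ exp K + F (log F)⁺ / K`, the volume of `{|w_e - c| < δ, jb w ≤ 2R}` is `≤ 2δ (4R)^d`, choose `K`, then `δ`. Compare PI/AvgL.lean.
-/

set_option autoImplicit false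

open MeasureTheory Set Filter Topology Pool.Agent.H25.Kin Pool.Agent.H82.BK Pool.Agent.H82.CM
open Pool.Agent.H48.PL Pool.Agent.H48.PI Pool.Agent.H48.PW Pool.Agent.H85.UP
open Pool.Agent.H15.AV (UNice gau)

namespace Pool.Agent.H48.PV

variable {d : ℕ}

private lemma va_wt {F : Vec d → Vec d → ℝ} (hd : RX F) (k : ℕ) :
    ∃ C, 0 ≤ C ∧ ∀ x v, (1 + ‖v‖) ^ k * |F x v| ≤ C * wt d v := by
  obtain ⟨C, hC⟩ := hd (k + (d + 1))
  refine ⟨C, le_trans (mul_nonneg (by positivity) (abs_nonneg _)) (hC 0 0), fun x v => ?_⟩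
  have h := hC x v
  have h4 : 0 < (1 + ‖v‖) ^ (d + 1) := by positivity
  unfold wt
  rw [← div_eq_mul_inv, le_div_iff₀ h4]
  calc (1 + ‖v‖) ^ k * |F x v| * (1 + ‖v‖) ^ (d + 1) = (1 + ‖v‖) ^ (k + (d + 1)) * |F x v| := by
        rw [pow_add]; ring
    _ ≤ C := h

private lemma va_int {e : Fin d} {F G : Vec d → Vec d → ℝ} (h : FS e F G) (r : ℝ) :
    Integrable (fun q : Vec d × Vec d => F q.2 q.1 * jb q.1 ^ r) (nu d) := by
  obtain ⟨N, hN⟩ := exists_nat_ge r
  obtain ⟨C, hC0, hC⟩ := va_wt h.decF N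
  have hb : ∀ x v, |F x v * jb v ^ r| ≤ (((d : ℝ) + 1) ^ N * C) * wt d v := by
    intro x v
    have j0 := jb_pos v
    have e1 : jb v ^ r ≤ (((d : ℝ) + 1) * (1 + ‖v‖)) ^ N := by
      calc jb v ^ r ≤ jb v ^ (N : ℝ) := Real.rpow_le_rpow_of_exponent_le (one_le_jb v) hN
        _ = jb v ^ N := Real.rpow_natCast _ _
        _ ≤ _ := pow_le_pow_left₀ j0.le (jb_le_w v) N
    rw [abs_mul, abs_of_nonneg (Real.rpow_nonneg j0.le r)]
    calc |F x v| * jb v ^ r ≤ |F x v| * (((d : ℝ) + 1) * (1 + ‖v‖)) ^ N :=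
          mul_le_mul_of_nonneg_left e1 (abs_nonneg _)
      _ = ((d : ℝ) + 1) ^ N * ((1 + ‖v‖) ^ N * |F x v|) := by rw [mul_pow]; ring
      _ ≤ ((d : ℝ) + 1) ^ N * (C * wt d v) := mul_le_mul_of_nonneg_left (hC x v) (by positivity)
      _ = _ := by ring
  have cj : Continuous fun v : Vec d => jb v ^ r :=
    jb_cont.rpow_const fun v => Or.inl (jb_pos v).ne'
  have hc : Continuous fun q : Vec d × Vec d => F q.2 q.1 * jb q.1 ^ r :=
    (h.contF.comp (continuous_snd.prodMk continuous_fst)).mul (cj.comp continuous_fst)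
  exact integrable_nu hc.aestronglyMeasurable fun q => hb q.2 q.1

private lemma va_gb_cont {e : Fin d} {F G : Vec d → Vec d → ℝ} (h : FS e F G) (R : ℝ) {C : ℝ}
    (hC : 0 < C) : Continuous fun p : Vec d × Vec d => gb R C F p.2 p.1 := by
  have c2 : Continuous fun p : Vec d × Vec d => chi R p.1 := (chi_cont R).comp continuous_fst
  have c3 : Continuous fun p : Vec d × Vec d => F p.2 p.1 :=
    h.contF.comp (continuous_snd.prodMk continuous_fst)
  have c4 : Continuous fun p : Vec d × Vec d => bet C (F p.2 p.1) := by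
    unfold bet
    refine (continuous_const.mul c3).div (continuous_const.add c3) fun p => ?_
    have := h.nonneg p.2 p.1
    positivity
  exact c2.mul c4

private lemma va_gb_nonneg {F : Vec d → Vec d → ℝ} (hF : ∀ x v, 0 ≤ F x v) (R : ℝ) {C : ℝ}
    (hC : 0 < C) (x w : Vec d) : 0 ≤ gb R C F x w :=
  mul_nonneg (chi_nonneg R w) (bet_nonneg hC (hF x w))

private lemma va_gb_le {F : Vec d → Vec d → ℝ} (hF : ∀ x v, 0 ≤ F x v) (R : ℝ) {C : ℝ}
    (hC : 0 < C) (x w : Vec d) : gb R C F x w ≤ F x w := by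
  have h1 := bet_le hC (hF x w)
  have h2 := bet_nonneg hC (hF x w)
  have h3 := chi_nonneg R w
  have h4 := chi_le_one R w
  unfold gb
  nlinarith

theorem mass_gb (M : ℝ) {m₀ : ℝ} (hm : 0 < m₀) : ∃ R₁ C₁ : ℝ, 1 ≤ R₁ ∧ 1 ≤ C₁ ∧
    ∀ (e : Fin d) (F G : Vec d → Vec d → ℝ), FS e F G → GB M F → m₀ ≤ ∫ p, F p.2 p.1 ∂(nu d) →
      m₀ / 2 ≤ ∫ p, gb R₁ C₁ F p.2 p.1 ∂(nu d) := by
  obtain ⟨R₀, hR₀, h1⟩ := g2_small (d := d) M (a := 1 / 4) (by norm_num) (by norm_num)
    (half_pos hm)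
  obtain ⟨C₁, hC₁, h2⟩ := h1 R₀ le_rfl
  refine ⟨R₀, C₁, hR₀, hC₁, fun e F G hF hG hmass => ?_⟩
  have hC : 0 < C₁ := lt_of_lt_of_le one_pos hC₁
  obtain ⟨q, qa, qR, qC⟩ : ∃ q : Par, q.a = 1 / 4 ∧ q.R = R₀ ∧ q.C₀ = C₁ :=
    ⟨⟨1 / 4, 0, 0, R₀, C₁⟩, rfl, rfl, rfl⟩
  have h3 := h2 C₁ le_rfl q qa qR qC e F G hF hG
  have hg : ∀ p : Vec d × Vec d, g1 q F p.2 p.1 = gb R₀ C₁ F p.2 p.1 := by
    intro p
    unfold g1 gb
    rw [qR, qC]
  simp_rw [hg] at h3
  have i0 : Integrable (fun p : Vec d × Vec d => F p.2 p.1) (nu d) := by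
    have := va_int hF 0
    simpa using this
  have ig : Integrable (fun p : Vec d × Vec d => gb R₀ C₁ F p.2 p.1) (nu d) := by
    refine i0.mono' (va_gb_cont hF R₀ hC).aestronglyMeasurable (Eventually.of_forall fun p => ?_)
    rw [Real.norm_eq_abs, abs_of_nonneg (va_gb_nonneg hF.nonneg R₀ hC _ _)]
    exact va_gb_le hF.nonneg R₀ hC _ _
  have cj : Continuous fun v : Vec d => jb v ^ (1 + 1 / 4 : ℝ) :=
    jb_cont.rpow_const fun v => Or.inl (jb_pos v).ne'
  have hcF : Continuous fun p : Vec d × Vec d => F p.2 p.1 :=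
    hF.contF.comp (continuous_snd.prodMk continuous_fst)
  have ij : Integrable (fun p : Vec d × Vec d =>
      (F p.2 p.1 - gb R₀ C₁ F p.2 p.1) * jb p.1 ^ (1 + 1 / 4 : ℝ)) (nu d) := by
    refine (va_int hF (1 + 1 / 4)).mono' (((hcF.sub (va_gb_cont hF R₀ hC)).mul
      (cj.comp continuous_fst)).aestronglyMeasurable) (Eventually.of_forall fun p => ?_)
    have a1 := va_gb_nonneg hF.nonneg R₀ hC p.2 p.1
    have a2 := va_gb_le hF.nonneg R₀ hC p.2 p.1
    have a3 : 0 ≤ jb p.1 ^ (1 + 1 / 4 : ℝ) := Real.rpow_nonneg (jb_pos _).le _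
    rw [Real.norm_eq_abs, abs_of_nonneg (mul_nonneg (by linarith) a3)]
    exact mul_le_mul_of_nonneg_right (by linarith) a3
  have hle : ∫ p, (F p.2 p.1 - gb R₀ C₁ F p.2 p.1) ∂(nu d) ≤
      ∫ p, (F p.2 p.1 - gb R₀ C₁ F p.2 p.1) * jb p.1 ^ (1 + 1 / 4 : ℝ) ∂(nu d) := by
    refine integral_mono (i0.sub ig) ij fun p => ?_
    have a2 := va_gb_le hF.nonneg R₀ hC p.2 p.1
    have a3 : 1 ≤ jb p.1 ^ (1 + 1 / 4 : ℝ) := Real.one_le_rpow (one_le_jb _) (by norm_num)
    have a4 : 0 ≤ F p.2 p.1 - gb R₀ C₁ F p.2 p.1 := by linarith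
    exact le_mul_of_one_le_right a4 a3
  rw [integral_sub i0 ig] at hle
  linarith

/-! ### slabs -/

private def Sl (e : Fin d) (c δ R : ℝ) : Set (Vec d) := {w | |w e - c| < δ ∧ jb w ≤ R}

private lemma Sl_meas (e : Fin d) (c δ R : ℝ) : MeasurableSet (Sl e c δ R) := by
  have h1 : Measurable fun w : Vec d => |w e - c| :=
    (continuous_abs.comp ((continuous_apply e).sub continuous_const)).measurable
  exact (measurableSet_lt h1 measurable_const).inter
    (measurableSet_le jb_cont.measurable measurable_const)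

private lemma Sl_sub (e : Fin d) {c δ R : ℝ} :
    Sl e c δ R ⊆ Set.pi univ fun i => if i = e then Icc (c - δ) (c + δ) else Icc (-R) R := by
  intro w hw i _
  obtain ⟨h1, h2⟩ := hw
  by_cases hi : i = e
  · subst hi
    simp only [if_true]
    rw [abs_lt] at h1
    exact ⟨by linarith [h1.1], by linarith [h1.2]⟩
  · simp only [hi, if_false]
    have h3 := (abs_coord_le w i).trans ((len_le_jb w).trans h2)
    rw [abs_le] at h3
    exact h3

private lemma Sl_vol (e : Fin d) {c δ R : ℝ} (hδ : 0 ≤ δ) (hR : 1 ≤ R) :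
    (volume : Measure (Vec d)).real (Sl e c δ R) ≤ 2 * δ * (2 * R) ^ d := by
  have h1 : (volume : Measure (Vec d)) (Sl e c δ R) ≤ ENNReal.ofReal (2 * δ * (2 * R) ^ d) := by
    refine (measure_mono (Sl_sub e)).trans ?_
    rw [volume_pi_pi, ← Finset.mul_prod_erase Finset.univ _ (Finset.mem_univ e), if_pos rfl,
      Real.volume_Icc]
    have h2 : ∏ i ∈ Finset.univ.erase e, (volume : Measure ℝ)
        (if i = e then Icc (c - δ) (c + δ) else Icc (-R) R) =
        ENNReal.ofReal (2 * R) ^ (d - 1) := by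
      rw [Finset.prod_congr rfl (g := fun _ => ENNReal.ofReal (2 * R))]
      · rw [Finset.prod_const, Finset.card_erase_of_mem (Finset.mem_univ e), Finset.card_univ,
          Fintype.card_fin]
      · intro i hi
        rw [if_neg (Finset.ne_of_mem_erase hi), Real.volume_Icc]
        congr 1; ring
    rw [h2, ← ENNReal.ofReal_pow (by linarith), ← ENNReal.ofReal_mul (by linarith)]
    apply ENNReal.ofReal_le_ofReal
    have h3 : (2 * R) ^ (d - 1) ≤ (2 * R) ^ d := pow_le_pow_right₀ (by linarith) (Nat.sub_le d 1)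
    calc (c + δ - (c - δ)) * (2 * R) ^ (d - 1) = 2 * δ * (2 * R) ^ (d - 1) := by ring
      _ ≤ _ := mul_le_mul_of_nonneg_left h3 (by linarith)
  rw [Measure.real]
  exact ENNReal.toReal_le_of_le_ofReal (by positivity) h1

private lemma Sl_int (e : Fin d) {c δ R : ℝ} (hδ : 0 ≤ δ) (hR : 1 ≤ R) :
    Integrable (fun p : Vec d × Vec d => (Sl e c δ R).indicator (fun _ => (1 : ℝ)) p.1) (nu d) ∧
      ∫ p : Vec d × Vec d, (Sl e c δ R).indicator (fun _ => (1 : ℝ)) p.1 ∂(nu d) ≤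
        2 * δ * (2 * R) ^ d := by
  have hfin : (volume : Measure (Vec d)) (Sl e c δ R) ≠ ⊤ := by
    have h1 : (volume : Measure (Vec d)) (Sl e c δ R) ≤
        volume (Set.pi univ fun i : Fin d => if i = e then Icc (c - δ) (c + δ) else Icc (-R) R) :=
      measure_mono (Sl_sub e)
    refine ne_top_of_le_ne_top ?_ h1
    rw [volume_pi_pi]
    refine ENNReal.prod_ne_top fun i _ => ?_
    split_ifs <;> · rw [Real.volume_Icc]; exact ENNReal.ofReal_ne_top
  have hi : Integrable (fun w : Vec d => (Sl e c δ R).indicator (fun _ => (1 : ℝ)) w) := by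
    rw [integrable_indicator_iff (Sl_meas e c δ R)]
    exact integrableOn_const hfin
  refine ⟨?_, ?_⟩
  · exact hi.comp_fst (muD d)
  · unfold nu
    rw [integral_fun_fst (μ := (volume : Measure (Vec d))) (ν := muD d)
      (fun w => (Sl e c δ R).indicator (fun _ => (1 : ℝ)) w)]
    have h2 : (muD d).real univ = 1 := by
      unfold muD
      rw [Measure.real, Measure.restrict_apply_univ, Real.volume_Icc_pi]
      simp
    rw [h2, one_smul, integral_indicator (Sl_meas e c δ R), setIntegral_const, smul_eq_mul, mul_one]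
    exact Sl_vol e hδ hR

private lemma sl_pt {K r : ℝ} (hK : 0 < K) (hr : 0 ≤ r) :
    r ≤ Real.exp K + 1 / K * (r * max (Real.log r) 0) := by
  have hmx : 0 ≤ r * max (Real.log r) 0 := mul_nonneg hr (le_max_right _ _)
  rcases le_or_gt r (Real.exp K) with h | h
  · have : 0 ≤ 1 / K * (r * max (Real.log r) 0) := by positivity
    linarith
  · have hl : K ≤ Real.log r := by
      rw [← Real.log_exp K]
      exact Real.log_le_log (Real.exp_pos K) h.le
    have h1 : r ≤ 1 / K * (r * max (Real.log r) 0) := by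
      rw [div_mul_eq_mul_div, one_mul, le_div_iff₀ hK]
      exact mul_le_mul_of_nonneg_left (hl.trans (le_max_left _ _)) hr
    linarith [Real.exp_pos K]

theorem slab_gb (M : ℝ) {R : ℝ} (hR : 1 ≤ R) {κ : ℝ} (hκ : 0 < κ) : ∃ δ : ℝ, 0 < δ ∧
    ∀ C : ℝ, 0 < C → ∀ (e : Fin d) (F G : Vec d → Vec d → ℝ), FS e F G → GB M F → ∀ c : ℝ,
      ∫ p in {p : Vec d × Vec d | |p.1 e - c| < δ}, gb R C F p.2 p.1 ∂(nu d) ≤ κ := by
  obtain ⟨A, hA0, hA⟩ := ent_lower d M
  set K : ℝ := 2 * A / κ + 1 with hKdef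
  have hK : 0 < K := by positivity
  have hKm : 1 / K * A ≤ κ / 2 := by
    rw [div_mul_eq_mul_div, one_mul, div_le_iff₀ hK, hKdef]
    have : κ / 2 * (2 * A / κ + 1) = A + κ / 2 := by field_simp
    rw [this]
    linarith
  set W : ℝ := Real.exp K * (2 * (2 * (2 * R)) ^ d) with hWdef
  have hW : 0 < W := by
    have := Real.exp_pos K
    positivity
  set δ : ℝ := κ / (2 * W) with hδdef
  have hδ : 0 < δ := by positivity
  have hδW : Real.exp K * (2 * δ * (2 * (2 * R)) ^ d) ≤ κ / 2 := by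
    have : Real.exp K * (2 * δ * (2 * (2 * R)) ^ d) = W * δ := by rw [hWdef]; ring
    rw [this, hδdef]
    have : W * (κ / (2 * W)) = κ / 2 := by field_simp
    rw [this]
  refine ⟨δ, hδ, fun C hC e F G hF hG c => ?_⟩
  have hSm : MeasurableSet {p : Vec d × Vec d | |p.1 e - c| < δ} := by
    have h1 : Measurable fun p : Vec d × Vec d => |p.1 e - c| :=
      (continuous_abs.comp (((continuous_apply e).comp continuous_fst).sub
        continuous_const)).measurable
    exact measurableSet_lt h1 measurable_const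
  obtain ⟨iS, hS⟩ := Sl_int e (c := c) hδ.le (R := 2 * R) (by linarith)
  have iL := (ent_int hF.nonneg hF.contF hF.decF).1
  have hL : ∫ p, F p.2 p.1 * max (Real.log (F p.2 p.1)) 0 ∂(nu d) ≤ A :=
    (hA F hF.nonneg hF.contF hF.decF hG.energy).2 hG.entropy
  have j1 : Integrable (fun p : Vec d × Vec d =>
      Real.exp K * (Sl e c δ (2 * R)).indicator (fun _ => (1 : ℝ)) p.1) (nu d) := iS.const_mul _
  have j2 : Integrable (fun p : Vec d × Vec d =>
      1 / K * (F p.2 p.1 * max (Real.log (F p.2 p.1)) 0)) (nu d) := iL.const_mul _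
  rw [← integral_indicator hSm]
  have hnn : ∀ p : Vec d × Vec d, 0 ≤ {p : Vec d × Vec d | |p.1 e - c| < δ}.indicator
      (fun p => gb R C F p.2 p.1) p := fun p =>
    indicator_nonneg (fun p _ => va_gb_nonneg hF.nonneg R hC p.2 p.1) p
  have hpt : ∀ p : Vec d × Vec d, {p : Vec d × Vec d | |p.1 e - c| < δ}.indicator
      (fun p => gb R C F p.2 p.1) p ≤
      Real.exp K * (Sl e c δ (2 * R)).indicator (fun _ => (1 : ℝ)) p.1 +
        1 / K * (F p.2 p.1 * max (Real.log (F p.2 p.1)) 0) := by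
    intro p
    have hF0 := hF.nonneg p.2 p.1
    have t1 : 0 ≤ 1 / K * (F p.2 p.1 * max (Real.log (F p.2 p.1)) 0) :=
      mul_nonneg (by positivity) (mul_nonneg hF0 (le_max_right _ _))
    have t2 : 0 ≤ Real.exp K * (Sl e c δ (2 * R)).indicator (fun _ => (1 : ℝ)) p.1 :=
      mul_nonneg (Real.exp_pos K).le (indicator_nonneg (fun _ _ => zero_le_one) _)
    by_cases hp : p ∈ {p : Vec d × Vec d | |p.1 e - c| < δ}
    · rw [indicator_of_mem hp]
      rcases le_or_gt (2 * R) (jb p.1) with h | h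
      · have h0 : gb R C F p.2 p.1 = 0 := by
          unfold gb
          rw [chi_eq_zero hR h, zero_mul]
        rw [h0]
        linarith
      · have h3 : (Sl e c δ (2 * R)).indicator (fun _ => (1 : ℝ)) p.1 = 1 :=
          indicator_of_mem (s := Sl e c δ (2 * R)) ⟨hp, h.le⟩ _
        rw [h3, mul_one]
        exact (va_gb_le hF.nonneg R hC p.2 p.1).trans (sl_pt hK hF0)
    · rw [indicator_of_notMem hp]
      linarith
  have hle := integral_mono_of_nonneg (Eventually.of_forall hnn) (j1.add j2)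
    (Eventually.of_forall fun p => hpt p)
  have e1 := integral_add j1 j2
  simp only [Pi.add_apply] at e1 hle
  rw [e1, integral_const_mul, integral_const_mul] at hle
  have f1 := mul_le_mul_of_nonneg_left hS (Real.exp_pos K).le
  have f2 := mul_le_mul_of_nonneg_left hL (show 0 ≤ 1 / K by positivity)
  linarith

end Pool.Agent.H48.PV
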