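import Pool.Agent.H48.PV.VarA

/-!
# Module VarL: lower bound for the variance

`R₂, C₂` from `mass_gb`, `δ` from `slab_gb` (`R = R₂`, `κ = m₀/4`). `g' = gb R₂ C₂ F`, `n = ∫ g' dν ≥ m₀/2`, `p = ∫ w_e g' dν`, `c = p/n`: `n q₂ - p^2 = n ∫ (w_e - c)^2 g' dν ≥ n δ^2 ∫_(|w_e - c| ≥ δ) g' dν ≥ (m₀/2) δ^2 (m₀/2 - m₀/4)`. All integrals exist (`FS`: continuous, rapid decay).
-/

set_option autoImplicit false

open MeasureTheory Set Filter Topology Pool.Agent.H25.Kin Pool.Agent.H82.BK Pool.Agent.H82.CM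
open Pool.Agent.H48.PL Pool.Agent.H48.PI Pool.Agent.H48.PW Pool.Agent.H85.UP
open Pool.Agent.H15.AV (UNice gau)

namespace Pool.Agent.H48.PV

variable {d : ℕ}

private lemma vl_int {e : Fin d} {F G : Vec d → Vec d → ℝ} (hF : FS e F G) {R C : ℝ} (hC : 0 < C)
    {P : Vec d → ℝ} (hP : Measurable P) {K : ℝ} (hb : ∀ w, |P w| ≤ K * (1 + ‖w‖) ^ 2) :
    Integrable (fun p : Vec d × Vec d => P p.1 * gb R C F p.2 p.1) (nu d) := by
  obtain ⟨B, hB⟩ := hF.decF (d + 1 + 2)
  have hm : Measurable fun q : Vec d × Vec d => F q.2 q.1 :=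
    (hF.contF.comp (continuous_snd.prodMk continuous_fst)).measurable
  have hg : Measurable fun q : Vec d × Vec d => gb R C F q.2 q.1 := by
    unfold gb bet
    exact ((chi_cont R).measurable.comp measurable_fst).mul
      ((hm.const_mul C).div (hm.const_add C))
  have hK : 0 ≤ K := by
    have h0 := hb 0
    rw [norm_zero, add_zero, one_pow, mul_one] at h0
    exact (abs_nonneg _).trans h0
  refine integrable_nu (C := K * B) ((hP.comp measurable_fst).mul hg).aestronglyMeasurable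
    fun q => ?_
  have hb0 := bet_nonneg hC (hF.nonneg q.2 q.1)
  have hb1 := bet_le hC (hF.nonneg q.2 q.1)
  have hc0 := chi_nonneg R q.1
  have hc1 := chi_le_one R q.1
  have g0 : 0 ≤ gb R C F q.2 q.1 := mul_nonneg hc0 hb0
  have g1 : gb R C F q.2 q.1 ≤ F q.2 q.1 := by
    unfold gb
    nlinarith
  have h1 := hB q.2 q.1
  rw [abs_of_nonneg (hF.nonneg _ _)] at h1
  have hw : 0 < 1 + ‖q.1‖ := by have := norm_nonneg q.1; linarith
  have h3 : (1 + ‖q.1‖) ^ 2 * F q.2 q.1 ≤ B * wt d q.1 := by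
    unfold wt
    rw [← div_eq_mul_inv, le_div_iff₀ (pow_pos hw _)]
    calc (1 + ‖q.1‖) ^ 2 * F q.2 q.1 * (1 + ‖q.1‖) ^ (d + 1) =
        (1 + ‖q.1‖) ^ (d + 1 + 2) * F q.2 q.1 := by ring
      _ ≤ B := h1
  rw [abs_mul, abs_of_nonneg g0]
  calc |P q.1| * gb R C F q.2 q.1 ≤ (K * (1 + ‖q.1‖) ^ 2) * F q.2 q.1 :=
        mul_le_mul (hb q.1) g1 g0 (by positivity)
    _ = K * ((1 + ‖q.1‖) ^ 2 * F q.2 q.1) := by ring
    _ ≤ K * (B * wt d q.1) := mul_le_mul_of_nonneg_left h3 hK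
    _ = _ := by ring

theorem var_low (M : ℝ) {m₀ : ℝ} (hm : 0 < m₀) : ∃ R₂ C₂ c : ℝ, 1 ≤ R₂ ∧ 1 ≤ C₂ ∧ 0 < c ∧
    ∀ (e : Fin d) (F G : Vec d → Vec d → ℝ), FS e F G → GB M F → m₀ ≤ ∫ p, F p.2 p.1 ∂(nu d) →
      c ≤ VarU R₂ C₂ e F := by
  obtain ⟨R, C, hR, hC, hmass⟩ := mass_gb (d := d) M hm
  obtain ⟨δ, hδ, hslab⟩ := slab_gb (d := d) M hR (show (0 : ℝ) < m₀ / 4 by positivity)
  refine ⟨R, C, m₀ / 2 * (δ ^ 2 * (m₀ / 4)), hR, hC, by positivity, fun e F G hF hG hm0 => ?_⟩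
  have hC0 : 0 < C := lt_of_lt_of_le one_pos hC
  have hn := hmass e F G hF hG hm0
  have i0 : Integrable (fun p : Vec d × Vec d => gb R C F p.2 p.1) (nu d) := by
    have := vl_int hF (R := R) hC0 (P := fun _ => 1) measurable_const (K := 1) fun w => by
      rw [abs_one, one_mul]
      exact one_le_pow₀ (by have := norm_nonneg w; linarith)
    simpa using this
  have i1 : Integrable (fun p : Vec d × Vec d => p.1 e * gb R C F p.2 p.1) (nu d) :=
    vl_int hF (R := R) hC0 (P := fun w => w e) (measurable_pi_apply e) (K := 1) fun w => by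
      have h1 : |w e| ≤ ‖w‖ := norm_le_pi_norm w e
      have h2 := norm_nonneg w
      nlinarith
  have i2 : Integrable (fun p : Vec d × Vec d => p.1 e ^ 2 * gb R C F p.2 p.1) (nu d) :=
    vl_int hF (R := R) hC0 (P := fun w => w e ^ 2) ((measurable_pi_apply e).pow_const 2) (K := 1)
      fun w => by
      have h1 : |w e| ≤ ‖w‖ := norm_le_pi_norm w e
      have h2 := norm_nonneg w
      have h3 := abs_nonneg (w e)
      rw [abs_of_nonneg (sq_nonneg _), ← sq_abs]
      nlinarith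
  set n : ℝ := ∫ p, gb R C F p.2 p.1 ∂(nu d) with hnd
  set p₁ : ℝ := ∫ p, p.1 e * gb R C F p.2 p.1 ∂(nu d) with hpd
  set q₂ : ℝ := ∫ p, p.1 e ^ 2 * gb R C F p.2 p.1 ∂(nu d) with hqd
  have hn0 : 0 < n := lt_of_lt_of_le (by positivity) hn
  set c : ℝ := p₁ / n with hc
  have hsl := hslab C hC0 e F G hF hG c
  have hS : MeasurableSet {p : Vec d × Vec d | |p.1 e - c| < δ} := by
    have h0 : Continuous fun p : Vec d × Vec d => |p.1 e - c| := by fun_prop
    have : Measurable fun p : Vec d × Vec d => |p.1 e - c| := h0.measurable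
    exact this measurableSet_Iio
  -- the quadratic form
  have e1 : ∫ p, (p.1 e - c) ^ 2 * gb R C F p.2 p.1 ∂(nu d) = q₂ - 2 * c * p₁ + c ^ 2 * n := by
    have h1 : ∀ p : Vec d × Vec d, (p.1 e - c) ^ 2 * gb R C F p.2 p.1 =
        p.1 e ^ 2 * gb R C F p.2 p.1 - 2 * c * (p.1 e * gb R C F p.2 p.1) +
          c ^ 2 * gb R C F p.2 p.1 := by
      intro p
      ring
    simp only [h1]
    have a1 := integral_add (i2.sub (i1.const_mul (2 * c))) (i0.const_mul (c ^ 2))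
    have a2 := integral_sub i2 (i1.const_mul (2 * c))
    simp only [Pi.sub_apply] at a1
    rw [a1, a2, integral_const_mul, integral_const_mul]
  have ic : Integrable (fun p : Vec d × Vec d => (p.1 e - c) ^ 2 * gb R C F p.2 p.1) (nu d) := by
    have h2 := (i2.sub (i1.const_mul (2 * c))).add (i0.const_mul (c ^ 2))
    refine h2.congr (Eventually.of_forall fun p => ?_)
    simp only [Pi.add_apply, Pi.sub_apply]
    ring
  have iS : Integrable (fun p : Vec d × Vec d =>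
      {p : Vec d × Vec d | |p.1 e - c| < δ}.indicator (fun p => gb R C F p.2 p.1) p) (nu d) :=
    i0.indicator hS
  have hle : ∫ p, δ ^ 2 * (gb R C F p.2 p.1 -
      {p : Vec d × Vec d | |p.1 e - c| < δ}.indicator (fun p => gb R C F p.2 p.1) p) ∂(nu d) ≤
      ∫ p, (p.1 e - c) ^ 2 * gb R C F p.2 p.1 ∂(nu d) := by
    refine integral_mono ((i0.sub iS).const_mul _) ic fun p => ?_
    have hb0 := bet_nonneg hC0 (hF.nonneg p.2 p.1)
    have hc0 := chi_nonneg R p.1
    have g0 : 0 ≤ gb R C F p.2 p.1 := mul_nonneg hc0 hb0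
    simp only
    by_cases hp : |p.1 e - c| < δ
    · rw [indicator_of_mem (show p ∈ {p : Vec d × Vec d | |p.1 e - c| < δ} from hp), sub_self,
        mul_zero]
      exact mul_nonneg (sq_nonneg _) g0
    · rw [indicator_of_notMem (show p ∉ {p : Vec d × Vec d | |p.1 e - c| < δ} from hp), sub_zero]
      refine mul_le_mul_of_nonneg_right ?_ g0
      rw [← sq_abs (p.1 e - c)]
      exact pow_le_pow_left₀ hδ.le (not_lt.1 hp) 2
  rw [integral_const_mul, integral_sub i0 iS, integral_indicator hS, e1] at hle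
  have e2 : VarU R C e F = n * (q₂ - 2 * c * p₁ + c ^ 2 * n) := by
    unfold VarU
    rw [← hnd, ← hpd, ← hqd, hc]
    field_simp
    ring
  rw [e2]
  have h5 : δ ^ 2 * (m₀ / 4) ≤ q₂ - 2 * c * p₁ + c ^ 2 * n := by
    refine le_trans ?_ hle
    refine mul_le_mul_of_nonneg_left ?_ (sq_nonneg _)
    rw [← hnd]
    linarith
  have h6 : 0 ≤ δ ^ 2 * (m₀ / 4) := by positivity
  exact mul_le_mul hn h5 h6 hn0.le

end Pool.Agent.H48.PV
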