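import Pool.Agent.H48.PV.EUDef
import Pool.Agent.H48.PI.EDer

/-!
# Module DerB: lower bound for the derivative of the damping potential, one time slice

Notation `g' = gb R C F`, `n = ∫ g' dν = avn (W0 R) (bet F) v`, `p = ∫ w_e g' dν = avn (W1 e R) (bet F) v`, `q₂ = ∫ w_e^2 g' dν`, `μ_i = ∫ |∫ w, W_i (bet' G)(y,w)| dμ`. Generic lemmas: private lemmas of PI/EDer.lean (copy).
* `dpot[W1] = ∫ (v_e-w_e) w_e g'(x,w) dw - (v_e p - q₂) + src₁`, `dpot[W0] = ∫ (v_e-w_e) g'(x,w) dw - (v_e n - p) + src₀` (`loc e 1 B x = ∫ B dμ`, `nu_integral`), `|src_i| ≤ μ_i/2`. So `n dpot[W1] - p dpot[W0] = ∫ (v_e-w_e)(n w_e - p) g'(x,w) dw + (n q₂ - p^2) + n src₁ - p src₀`.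
* `0 ≤ n ≤ M`, `|p| ≤ 2 R M` (`chi ≠ 0`: `|w_e| ≤ jb w ≤ 2R`; `g' ≤ F`), so the local term is `≥ -4 R M ∫ len(v-w) g'(x,w) dw` (`|v_e-w_e| ≤ len (v-w)`), `|n src₁ - p src₀| ≤ M μ_1/2 + R M μ_0`.
* `|avn (W_i) (bet' G)| ≤ μ_i`, `|pot[W1]| ≤ (1/2) 2 R M`, `|pot[W0]| ≤ M/2` (`|kl| ≤ 1/2`, `loc = ∫ dμ`, `nu_integral`). Total error `≤ M μ_1 + 2 R M μ_0 ≤ 4 R M ∫ μ₃ dμ`.
-/

set_option autoImplicit false

open MeasureTheory Set Filter Topology Pool.Agent.H25.Kin Pool.Agent.H82.BK Pool.Agent.H82.CM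
open Pool.Agent.H48.PL Pool.Agent.H48.PI Pool.Agent.H48.PW Pool.Agent.H85.UP
open Pool.Agent.H15.AV (UNice gau)

namespace Pool.Agent.H48.PV

variable {d : ℕ} {e : Fin d} {F G : Vec d → Vec d → ℝ} {R C M : ℝ}

/-! ### auxiliary lemmas -/

/-- continuous planar periodic functions with rapid decay in the velocity -/
private structure DbA (e : Fin d) (A : Vec d → Vec d → ℝ) : Prop where
  cont : Continuous fun p : Vec d × Vec d => A p.1 p.2
  dec : RX A
  per : ∀ x v i, A (x + Pi.single i 1) v = A x v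
  pl : ∀ x y v, x e = y e → A x v = A y v

private lemma db_bd {A : Vec d → Vec d → ℝ} (hA : DbA e A) {Φ : Vec d → Vec d → ℝ} (hΦ : PGW Φ)
    (v : Vec d) : ∃ C, ∀ x w, |Φ v w * A x w| ≤ C * wt d w := by
  obtain ⟨N, K, hK0, hK⟩ := hΦ.le
  obtain ⟨C, hC⟩ := hA.dec (N + (d + 1))
  refine ⟨K * (1 + ‖v‖) ^ N * C, fun x w => ?_⟩
  have hw : 0 < 1 + ‖w‖ := w_pos w
  have hv : 0 < 1 + ‖v‖ := w_pos v
  have h2 := hC x w
  rw [abs_mul]
  unfold wt
  rw [← div_eq_mul_inv, le_div_iff₀ (by positivity)]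
  calc |Φ v w| * |A x w| * (1 + ‖w‖) ^ (d + 1)
      ≤ (K * ((1 + ‖v‖) ^ N * (1 + ‖w‖) ^ N)) * |A x w| * (1 + ‖w‖) ^ (d + 1) := by
        have := hK v w
        gcongr
    _ = K * (1 + ‖v‖) ^ N * ((1 + ‖w‖) ^ (N + (d + 1)) * |A x w|) := by rw [pow_add]; ring
    _ ≤ K * (1 + ‖v‖) ^ N * C := by gcongr

private lemma db_wc {A : Vec d → Vec d → ℝ} (hA : DbA e A) {Φ : Vec d → Vec d → ℝ} (hΦ : PGW Φ)
    (x v : Vec d) : Continuous fun w => Φ v w * A x w :=
  (hΦ.cont.comp (by fun_prop : Continuous fun w : Vec d => (v, w))).mul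
    (hA.cont.comp (by fun_prop : Continuous fun w : Vec d => (x, w)))

private lemma db_int {A : Vec d → Vec d → ℝ} (hA : DbA e A) {Φ : Vec d → Vec d → ℝ} (hΦ : PGW Φ)
    (x v : Vec d) : Integrable fun w => Φ v w * A x w := by
  obtain ⟨C, hC⟩ := db_bd hA hΦ v
  exact (integrable_wt.const_mul C).mono' (db_wc hA hΦ x v).aestronglyMeasurable
    (Eventually.of_forall fun w => hC x w)

private lemma db_nu {A : Vec d → Vec d → ℝ} (hA : DbA e A) {Φ : Vec d → Vec d → ℝ} (hΦ : PGW Φ)
    (v : Vec d) : Integrable (fun p : Vec d × Vec d => Φ v p.1 * A p.2 p.1) (nu d) := by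
  obtain ⟨C, hC⟩ := db_bd hA hΦ v
  have hc : Continuous fun p : Vec d × Vec d => Φ v p.1 * A p.2 p.1 :=
    (hΦ.cont.comp (by fun_prop : Continuous fun p : Vec d × Vec d => (v, p.1))).mul
      (hA.cont.comp (by fun_prop : Continuous fun p : Vec d × Vec d => (p.2, p.1)))
  exact integrable_nu hc.aestronglyMeasurable fun p => hC p.2 p.1

private lemma db_pl {A : Vec d → Vec d → ℝ} (hA : DbA e A) {Φ : Vec d → Vec d → ℝ} (hΦ : PGW Φ)
    (v : Vec d) : PlF e fun x => ∫ w, Φ v w * A x w := by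
  obtain ⟨C, hC⟩ := db_bd hA hΦ v
  refine ⟨?_, ?_, ?_⟩
  · refine continuous_of_dominated (bound := fun w => C * wt d w) ?_ ?_
      (integrable_wt.const_mul _) ?_
    · intro x
      exact (db_wc hA hΦ x v).aestronglyMeasurable
    · intro x
      exact Eventually.of_forall fun w => hC x w
    · refine Eventually.of_forall fun w => ?_
      exact continuous_const.mul
        (hA.cont.comp (by fun_prop : Continuous fun x : Vec d => (x, w)))
  · intro x i
    congr 1
    funext w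
    rw [hA.per]
  · intro x y hxy
    congr 1
    funext w
    rw [hA.pl x y w hxy]

private lemma db_loc {B : Vec d → ℝ} (hB : PlF e B) (x : Vec d) :
    loc e 1 B x = ∫ y, B y ∂(muD d) := by
  obtain ⟨C, hC⟩ := pl_bdd hB
  have hfin : IsFiniteMeasure ((volume : Measure ℝ).restrict (Ioo (-(1 / 2)) (1 / 2))) :=
    ⟨by rw [Measure.restrict_apply_univ]; exact measure_Ioo_lt_top⟩
  have hi : Integrable (fun z : ℝ => B (x - Pi.single e z))
      (volume.restrict (Ioo (-(1 / 2)) (1 / 2))) := by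
    have hc : Continuous fun z : ℝ => x - (Pi.single e z : Vec d) :=
      continuous_const.sub (continuous_single (A := fun _ : Fin d => ℝ) e)
    exact Integrable.of_bound (hB.cont.comp hc).aestronglyMeasurable C
      (Eventually.of_forall fun z => hC _)
  have hv : (∫ _z in Ioo (-(1 / 2) : ℝ) (1 / 2), C) = C := by
    rw [setIntegral_const, Real.volume_real_Ioo_of_le (by norm_num)]
    norm_num
  have hm : (∫ _y : Vec d, C ∂(muD d)) = C := by
    rw [integral_const, measureReal_def, muD_univ]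
    simp
  have h1 : PlF e fun y => C - B y :=
    ⟨continuous_const.sub hB.cont, fun x i => by rw [hB.per], fun x y h => by rw [hB.pl x y h]⟩
  have h2 : PlF e fun y => C + B y :=
    ⟨continuous_const.add hB.cont, fun x i => by rw [hB.per], fun x y h => by rw [hB.pl x y h]⟩
  have e1 := loc_le h1 (fun y => by have := (abs_le.mp (hC y)).2; linarith) one_pos le_rfl x
  have e2 := loc_le h2 (fun y => by have := (abs_le.mp (hC y)).1; linarith) one_pos le_rfl x
  unfold loc at e1 e2 ⊢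
  rw [integral_sub (integrable_const _) hi, integral_sub (integrable_const _) (pl_int hB), hv,
    hm] at e1
  rw [integral_add (integrable_const _) hi, integral_add (integrable_const _) (pl_int hB), hv,
    hm] at e2
  linarith

private lemma db_kl {B : Vec d → ℝ} (hB : PlF e B) (x : Vec d) :
    Integrable (fun z : ℝ => kl 1 z * B (x - Pi.single e z))
      (volume.restrict (Ioo (-(1 / 2)) (1 / 2))) := by
  obtain ⟨C, hC⟩ := pl_bdd hB
  have hfin : IsFiniteMeasure ((volume : Measure ℝ).restrict (Ioo (-(1 / 2)) (1 / 2))) :=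
    ⟨by rw [Measure.restrict_apply_univ]; exact measure_Ioo_lt_top⟩
  have hc : Continuous fun z : ℝ => x - (Pi.single e z : Vec d) :=
    continuous_const.sub (continuous_single (A := fun _ : Fin d => ℝ) e)
  refine Integrable.of_bound ((kl_meas 1).aestronglyMeasurable.mul
    (hB.cont.comp hc).aestronglyMeasurable) (1 / 2 * C) ?_
  filter_upwards [ae_restrict_mem measurableSet_Ioo] with z hz
  rw [norm_mul, Real.norm_eq_abs, Real.norm_eq_abs]
  exact mul_le_mul (kl_abs one_pos hz) (hC _) (abs_nonneg _) (by norm_num)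

/-- `|∫ k a| ≤ (1/2) ∫ m dμ` if `|a| ≤ m` -/
private lemma db_src {a m : Vec d → ℝ} (hm : PlF e m) (h : ∀ x, |a x| ≤ m x) (x : Vec d) :
    |∫ z in Ioo (-((1 : ℝ) / 2)) (1 / 2), kl 1 z * a (x - Pi.single e z)| ≤
      1 / 2 * ∫ y, m y ∂(muD d) := by
  have hc : Continuous fun z : ℝ => x - (Pi.single e z : Vec d) :=
    continuous_const.sub (continuous_single (A := fun _ : Fin d => ℝ) e)
  have hfin : IsFiniteMeasure ((volume : Measure ℝ).restrict (Ioo (-(1 / 2)) (1 / 2))) :=
    ⟨by rw [Measure.restrict_apply_univ]; exact measure_Ioo_lt_top⟩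
  obtain ⟨C, hC⟩ := pl_bdd hm
  have him : Integrable (fun z : ℝ => m (x - Pi.single e z))
      (volume.restrict (Ioo (-(1 / 2)) (1 / 2))) :=
    Integrable.of_bound (hm.cont.comp hc).aestronglyMeasurable C
      (Eventually.of_forall fun z => hC _)
  rw [← db_loc hm x]
  have h1 : ‖∫ z in Ioo (-(1 / 2) : ℝ) (1 / 2), kl 1 z * a (x - Pi.single e z)‖ ≤
        ∫ z in Ioo (-(1 / 2) : ℝ) (1 / 2), 1 / 2 * m (x - Pi.single e z) := by
    refine norm_integral_le_of_norm_le (him.const_mul _) ?_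
    filter_upwards [ae_restrict_mem measurableSet_Ioo] with z hz
    have h3 : |kl 1 z| ≤ 1 / 2 := kl_abs one_pos hz
    rw [norm_mul, Real.norm_eq_abs, Real.norm_eq_abs]
    exact mul_le_mul h3 (h _) (abs_nonneg _) (by norm_num)
  rw [integral_const_mul, Real.norm_eq_abs] at h1
  exact h1

private lemma db_abs {a : Vec d → ℝ} (ha : PlF e a) : PlF e fun x => |a x| :=
  ⟨ha.cont.abs, fun x i => by rw [ha.per], fun x y h => by rw [ha.pl x y h]⟩

private lemma db_w (hR : 1 ≤ R) (e : Fin d) (w : Vec d) : chi R w * |w e| ≤ 2 * R * chi R w := by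
  rcases le_or_gt (2 * R) (jb w) with h | h
  · rw [chi_eq_zero hR h]
    simp
  · have h1 : |w e| ≤ 2 * R := (abs_coord_le w e).trans ((len_le_jb w).trans h.le)
    have h2 := mul_le_mul_of_nonneg_left h1 (chi_nonneg R w)
    linarith

private lemma db_len : PGW fun v w : Vec d => len (v - w) := by
  refine ⟨continuous_len.comp (by fun_prop), 1, 2 * ((d : ℝ) + 1), by positivity, fun v w => ?_⟩
  have h1 := len_sub_le v w
  have h2 := (len_le_jb v).trans (jb_le_w v)
  have h3 := (len_le_jb w).trans (jb_le_w w)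
  have h4 := norm_nonneg v
  have h5 := norm_nonneg w
  rw [abs_of_nonneg (len_nonneg _), pow_one, pow_one]
  have h6 : (1 + ‖v‖) + (1 + ‖w‖) ≤ 2 * ((1 + ‖v‖) * (1 + ‖w‖)) := by nlinarith
  have hd : (0 : ℝ) ≤ (d : ℝ) + 1 := by positivity
  calc len (v - w) ≤ ((d : ℝ) + 1) * ((1 + ‖v‖) + (1 + ‖w‖)) := by linarith
    _ ≤ ((d : ℝ) + 1) * (2 * ((1 + ‖v‖) * (1 + ‖w‖))) := mul_le_mul_of_nonneg_left h6 hd
    _ = _ := by ring

theorem ED_der (hR : 1 ≤ R) (hC : 0 < C) (h : FS e F G)
    (hb : FS e (fun x v => bet C (F x v)) (fun x v => bet' C (F x v) * G x v))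
    (hM : ∫ p, F p.2 p.1 ∂(nu d) ≤ M) {μ₃ : Vec d → ℝ} (hμ₃ : PlF e μ₃) (v : Vec d)
    (h3 : ∀ x, |∫ w, W1 e R v w * (bet' C (F x w) * G x w)| + |∫ w, W0 R v w * (bet' C (F x w) * G x w)| ≤
      μ₃ x) (x : Vec d) :
    VarU R C e F - 4 * R * M * (∫ w, len (v - w) * gb R C F x w) - 4 * R * M * (∫ y, μ₃ y ∂(muD d)) ≤
      dED R C e F G x v := by
  have aB : DbA e fun x w => bet C (F x w) := ⟨hb.contF, hb.decF, hb.perF, hb.plF⟩
  have aH : DbA e fun x w => bet' C (F x w) * G x w := ⟨hb.contG, hb.decG, hb.perG, hb.plG⟩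
  have aF : DbA e F := ⟨h.contF, h.decF, h.perF, h.plF⟩
  have p0 : PGW (W0 R : Vec d → Vec d → ℝ) := W0_PGW R
  have p1 : PGW (W1 e R : Vec d → Vec d → ℝ) := W1_PGW e R
  have v0 := p0.vmul e
  have v1 := p1.vmul e
  have hg0 : ∀ y w, 0 ≤ gb R C F y w := fun y w =>
    mul_nonneg (chi_nonneg R w) (bet_nonneg hC (h.nonneg y w))
  have hgF : ∀ y w, gb R C F y w ≤ F y w := fun y w =>
    (mul_le_of_le_one_left (bet_nonneg hC (h.nonneg y w)) (chi_le_one R w)).trans
      (bet_le hC (h.nonneg y w))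
  have hgw : ∀ y w, |w e| * gb R C F y w ≤ 2 * R * gb R C F y w := fun y w => by
    have h1 := mul_le_mul_of_nonneg_right (db_w hR e w) (bet_nonneg hC (h.nonneg y w))
    unfold gb
    linarith
  -- moments
  have iN := db_nu aB p0 v
  have iP := db_nu aB p1 v
  have iX0 := db_nu aB v0 v
  have iX1 := db_nu aB v1 v
  set n : ℝ := ∫ p, gb R C F p.2 p.1 ∂(nu d) with hn
  set p : ℝ := ∫ p, p.1 e * gb R C F p.2 p.1 ∂(nu d) with hp
  set q₂ : ℝ := ∫ p, p.1 e ^ 2 * gb R C F p.2 p.1 ∂(nu d) with hq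
  have en : avn (W0 R) (fun y w => bet C (F y w)) v = n := rfl
  have ep : avn (W1 e R) (fun y w => bet C (F y w)) v = p := by
    rw [hp]
    unfold avn
    congr 1
    funext p
    unfold W1 gb
    ring
  have eX0 : ∫ p, (v e - p.1 e) * W0 R v p.1 * bet C (F p.2 p.1) ∂(nu d) = v e * n - p := by
    have e1 : p = ∫ p, (v e * (W0 R v p.1 * bet C (F p.2 p.1)) -
        (v e - p.1 e) * W0 R v p.1 * bet C (F p.2 p.1)) ∂(nu d) := by
      rw [hp]
      congr 1
      funext p
      unfold W0 gb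
      ring
    rw [integral_sub (iN.const_mul _) iX0, integral_const_mul] at e1
    have e2 : ∫ p, W0 R v p.1 * bet C (F p.2 p.1) ∂(nu d) = n := rfl
    rw [e2] at e1
    linarith
  have eX1 : ∫ p, (v e - p.1 e) * W1 e R v p.1 * bet C (F p.2 p.1) ∂(nu d) = v e * p - q₂ := by
    have e1 : q₂ = ∫ p, (v e * (W1 e R v p.1 * bet C (F p.2 p.1)) -
        (v e - p.1 e) * W1 e R v p.1 * bet C (F p.2 p.1)) ∂(nu d) := by
      rw [hq]
      congr 1
      funext p
      unfold W1 gb
      ring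
    rw [integral_sub (iP.const_mul _) iX1, integral_const_mul] at e1
    have e2 : ∫ p, W1 e R v p.1 * bet C (F p.2 p.1) ∂(nu d) = p := ep
    rw [e2] at e1
    linarith
  have iF : Integrable (fun p : Vec d × Vec d => F p.2 p.1) (nu d) := by
    have h1 : PGW fun _ _ : Vec d => (1 : ℝ) :=
      ⟨continuous_const, 0, 1, zero_le_one, fun v w => by simp⟩
    have h2 := db_nu aF h1 v
    simp only [one_mul] at h2
    exact h2
  have n0 : 0 ≤ n := integral_nonneg fun p => hg0 _ _
  have nM : n ≤ M := by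
    refine le_trans (integral_mono ?_ iF fun p => hgF _ _) hM
    exact iN
  have M0 : 0 ≤ M := n0.trans nM
  have pM : |p| ≤ 2 * R * M := by
    have h1 : |p| ≤ ∫ p, 2 * R * gb R C F p.2 p.1 ∂(nu d) := by
      have h2 : ‖∫ p, p.1 e * gb R C F p.2 p.1 ∂(nu d)‖ ≤
          ∫ p, 2 * R * gb R C F p.2 p.1 ∂(nu d) := by
        refine norm_integral_le_of_norm_le (g := fun p : Vec d × Vec d => 2 * R * gb R C F p.2 p.1)
          ?_ (Eventually.of_forall fun p => ?_)
        · exact Integrable.const_mul (c := 2 * R) iN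
        · rw [Real.norm_eq_abs, abs_mul, abs_of_nonneg (hg0 _ _)]
          exact hgw _ _
      exact h2
    rw [integral_const_mul] at h1
    exact h1.trans (mul_le_mul_of_nonneg_left nM (by linarith))
  -- averages of the planar functions
  have q0 := db_pl aB v0 v
  have q1 := db_pl aB v1 v
  have r0 := db_pl aH p0 v
  have r1 := db_pl aH p1 v
  have s0 := db_pl aB p0 v
  have s1 := db_pl aB p1 v
  have l0 : ∫ z in Ioo (-((1 : ℝ) / 2)) (1 / 2), ∫ w, (v e - w e) * W0 R v w *
      bet C (F (x - Pi.single e z) w) = v e * n - p := by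
    rw [← eX0]
    have e1 : ∫ p, (v e - p.1 e) * W0 R v p.1 * bet C (F p.2 p.1) ∂(nu d) =
        ∫ y, (∫ w, (v e - w e) * W0 R v w * bet C (F y w)) ∂(muD d) :=
      Pool.Agent.H15.AV.nu_integral iX0
    rw [e1]
    exact db_loc q0 x
  have l1 : ∫ z in Ioo (-((1 : ℝ) / 2)) (1 / 2), ∫ w, (v e - w e) * W1 e R v w *
      bet C (F (x - Pi.single e z) w) = v e * p - q₂ := by
    rw [← eX1]
    have e1 : ∫ p, (v e - p.1 e) * W1 e R v p.1 * bet C (F p.2 p.1) ∂(nu d) =
        ∫ y, (∫ w, (v e - w e) * W1 e R v w * bet C (F y w)) ∂(muD d) :=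
      Pool.Agent.H15.AV.nu_integral iX1
    rw [e1]
    exact db_loc q1 x
  set m0 : ℝ := ∫ y, |∫ w, W0 R v w * (bet' C (F y w) * G y w)| ∂(muD d) with hm0
  set m1 : ℝ := ∫ y, |∫ w, W1 e R v w * (bet' C (F y w) * G y w)| ∂(muD d) with hm1
  have m00 : 0 ≤ m0 := integral_nonneg fun y => abs_nonneg _
  have m10 : 0 ≤ m1 := integral_nonneg fun y => abs_nonneg _
  have hmS : m1 + m0 ≤ ∫ y, μ₃ y ∂(muD d) := by
    rw [hm0, hm1, ← integral_add (pl_int (db_abs r1)) (pl_int (db_abs r0))]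
    exact integral_mono ((pl_int (db_abs r1)).add (pl_int (db_abs r0))) (pl_int hμ₃) h3
  -- sources
  have t0 : |∫ z in Ioo (-((1 : ℝ) / 2)) (1 / 2), kl 1 z * ∫ w, W0 R v w *
      (bet' C (F (x - Pi.single e z) w) * G (x - Pi.single e z) w)| ≤ 1 / 2 * m0 :=
    db_src (a := fun y => ∫ w, W0 R v w * (bet' C (F y w) * G y w)) (db_abs r0)
      (fun _ => le_rfl) x
  have t1 : |∫ z in Ioo (-((1 : ℝ) / 2)) (1 / 2), kl 1 z * ∫ w, W1 e R v w *
      (bet' C (F (x - Pi.single e z) w) * G (x - Pi.single e z) w)| ≤ 1 / 2 * m1 :=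
    db_src (a := fun y => ∫ w, W1 e R v w * (bet' C (F y w) * G y w)) (db_abs r1)
      (fun _ => le_rfl) x
  -- potentials
  have hnS : ∫ y, (∫ w, W0 R v w * bet C (F y w)) ∂(muD d) = n :=
    (Pool.Agent.H15.AV.nu_integral iN).symm
  have u0 : |pot e 1 (W0 R) (fun y w => bet C (F y w)) x v| ≤ 1 / 2 * n := by
    rw [← hnS]
    refine db_src (a := fun y => ∫ w, W0 R v w * bet C (F y w)) s0 (fun y => ?_) x
    rw [abs_of_nonneg (integral_nonneg fun w => hg0 y w)]
  have u1 : |pot e 1 (W1 e R) (fun y w => bet C (F y w)) x v| ≤ R * n := by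
    have s0' : PlF e fun y => 2 * R * ∫ w, W0 R v w * bet C (F y w) :=
      ⟨continuous_const.mul s0.cont, fun y i => by rw [s0.per], fun y y' hy => by
        rw [s0.pl y y' hy]⟩
    have k1 := db_src (a := fun y => ∫ w, W1 e R v w * bet C (F y w)) s0' (fun y => ?_) x
    · rw [integral_const_mul, hnS] at k1
      refine k1.trans (le_of_eq (by ring))
    · have k2 : ‖∫ w, W1 e R v w * bet C (F y w)‖ ≤ ∫ w, 2 * R * (W0 R v w * bet C (F y w)) := by
        refine norm_integral_le_of_norm_le ((db_int aB p0 y v).const_mul _)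
          (Eventually.of_forall fun w => ?_)
        have k3 := hgw y w
        have k4 := chi_nonneg R w
        have k5 := bet_nonneg hC (h.nonneg y w)
        rw [Real.norm_eq_abs, abs_mul, abs_of_nonneg k5]
        unfold W1 W0
        unfold gb at k3
        rw [abs_mul, abs_of_nonneg k4]
        linarith
      rw [integral_const_mul] at k2
      exact k2
  -- averages of the sources
  have w0 : |avn (W0 R) (fun y w => bet' C (F y w) * G y w) v| ≤ m0 := by
    have e1 : avn (W0 R) (fun y w => bet' C (F y w) * G y w) v =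
        ∫ y, (∫ w, W0 R v w * (bet' C (F y w) * G y w)) ∂(muD d) :=
      Pool.Agent.H15.AV.nu_integral (db_nu aH p0 v)
    rw [e1, hm0]
    exact abs_integral_le_integral_abs
  have w1 : |avn (W1 e R) (fun y w => bet' C (F y w) * G y w) v| ≤ m1 := by
    have e1 : avn (W1 e R) (fun y w => bet' C (F y w) * G y w) v =
        ∫ y, (∫ w, W1 e R v w * (bet' C (F y w) * G y w)) ∂(muD d) :=
      Pool.Agent.H15.AV.nu_integral (db_nu aH p1 v)
    rw [e1, hm1]
    exact abs_integral_le_integral_abs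
  -- the local term
  have hL : 0 ≤ n * (∫ w, (v e - w e) * W1 e R v w * bet C (F x w)) -
      p * (∫ w, (v e - w e) * W0 R v w * bet C (F x w)) +
      4 * R * M * ∫ w, len (v - w) * gb R C F x w := by
    have ag : DbA e (gb R C F) := by
      refine ⟨((chi_cont R).comp continuous_snd).mul hb.contF, ?_, fun y w i => ?_,
        fun y y' w hy => ?_⟩
      · intro N
        obtain ⟨D, hD⟩ := h.decF N
        refine ⟨D, fun y w => le_trans ?_ (hD y w)⟩
        rw [abs_of_nonneg (h.nonneg y w), abs_of_nonneg (hg0 y w)]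
        exact mul_le_mul_of_nonneg_left (hgF y w) (pow_nonneg (w_pos w).le N)
      · unfold gb
        rw [h.perF]
      · unfold gb
        rw [h.plF y y' w hy]
    have j1 := db_int aB v1 x v
    have j0 := db_int aB v0 x v
    have jl := db_int ag (db_len (d := d)) x v
    have js : Integrable (fun w => n * ((v e - w e) * W1 e R v w * bet C (F x w)) -
        p * ((v e - w e) * W0 R v w * bet C (F x w))) volume :=
      (j1.const_mul n).sub (j0.const_mul p)
    rw [← integral_const_mul, ← integral_const_mul, ← integral_const_mul,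
      ← integral_sub (j1.const_mul _) (j0.const_mul _),
      ← integral_add js (jl.const_mul _)]
    refine integral_nonneg fun w => ?_
    show 0 ≤ n * ((v e - w e) * W1 e R v w * bet C (F x w)) -
      p * ((v e - w e) * W0 R v w * bet C (F x w)) + 4 * R * M * (len (v - w) * gb R C F x w)
    have e1 : n * ((v e - w e) * W1 e R v w * bet C (F x w)) -
        p * ((v e - w e) * W0 R v w * bet C (F x w)) =
        (v e - w e) * (n * (w e * gb R C F x w) - p * gb R C F x w) := by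
      unfold W1 W0 gb
      ring
    rw [e1]
    have k1 : |v e - w e| ≤ len (v - w) := by
      have := abs_coord_le (v - w) e
      rwa [Pi.sub_apply] at this
    have k2 : |n * (w e * gb R C F x w) - p * gb R C F x w| ≤ 4 * R * M * gb R C F x w := by
      refine (abs_sub _ _).trans ?_
      rw [abs_mul, abs_mul, abs_mul, abs_of_nonneg n0, abs_of_nonneg (hg0 x w)]
      have k3 := mul_le_mul nM (hgw x w) (mul_nonneg (abs_nonneg _) (hg0 x w)) M0
      have k4 := mul_le_mul_of_nonneg_right pM (hg0 x w)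
      linarith
    have k5 : |(v e - w e) * (n * (w e * gb R C F x w) - p * gb R C F x w)| ≤
        len (v - w) * (4 * R * M * gb R C F x w) := by
      rw [abs_mul]
      exact mul_le_mul k1 k2 (abs_nonneg _) (len_nonneg _)
    have k6 := (abs_le.1 k5).1
    linarith
  -- conclusion
  have z0 : dpot e 1 (W0 R) (fun y w => bet C (F y w)) (fun y w => bet' C (F y w) * G y w) x v =
      (∫ w, (v e - w e) * W0 R v w * bet C (F x w)) - (v e * n - p) +
      ∫ z in Ioo (-((1 : ℝ) / 2)) (1 / 2), kl 1 z * ∫ w, W0 R v w *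
        (bet' C (F (x - Pi.single e z) w) * G (x - Pi.single e z) w) := by
    unfold dpot
    rw [one_div_one, one_mul, l0]
  have z1 : dpot e 1 (W1 e R) (fun y w => bet C (F y w)) (fun y w => bet' C (F y w) * G y w) x v =
      (∫ w, (v e - w e) * W1 e R v w * bet C (F x w)) - (v e * p - q₂) +
      ∫ z in Ioo (-((1 : ℝ) / 2)) (1 / 2), kl 1 z * ∫ w, W1 e R v w *
        (bet' C (F (x - Pi.single e z) w) * G (x - Pi.single e z) w) := by
    unfold dpot
    rw [one_div_one, one_mul, l1]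
  have hV : VarU R C e F = n * q₂ - p ^ 2 := rfl
  unfold dED
  rw [hV, z0, z1, en, ep]
  generalize (∫ w, (v e - w e) * W1 e R v w * bet C (F x w)) = L1 at *
  generalize (∫ w, (v e - w e) * W0 R v w * bet C (F x w)) = L0 at *
  generalize (∫ z in Ioo (-((1 : ℝ) / 2)) (1 / 2), kl 1 z * ∫ w, W0 R v w *
        (bet' C (F (x - Pi.single e z) w) * G (x - Pi.single e z) w)) = S0 at *
  generalize (∫ z in Ioo (-((1 : ℝ) / 2)) (1 / 2), kl 1 z * ∫ w, W1 e R v w *
        (bet' C (F (x - Pi.single e z) w) * G (x - Pi.single e z) w)) = S1 at *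
  generalize avn (W0 R) (fun y w => bet' C (F y w) * G y w) v = A0 at *
  generalize avn (W1 e R) (fun y w => bet' C (F y w) * G y w) v = A1 at *
  generalize pot e 1 (W0 R) (fun y w => bet C (F y w)) x v = P0 at *
  generalize pot e 1 (W1 e R) (fun y w => bet C (F y w)) x v = P1 at *
  generalize (∫ w, len (v - w) * gb R C F x w) = Ln at *
  generalize (∫ y, μ₃ y ∂(muD d)) = S at *
  have R0 : 0 ≤ R := by linarith
  have RM0 : 0 ≤ R * M := mul_nonneg R0 M0
  have MRM : M ≤ R * M := by nlinarith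
  have c1 : |A0 * P1| ≤ R * M * m0 := by
    rw [abs_mul]
    have := mul_le_mul w0 (u1.trans (mul_le_mul_of_nonneg_left nM R0)) (abs_nonneg _) m00
    linarith
  have c2 : |A1 * P0| ≤ R * M * m1 := by
    rw [abs_mul]
    have c3 : |P0| ≤ R * M := u0.trans (by linarith)
    have := mul_le_mul w1 c3 (abs_nonneg _) m10
    linarith
  have c4 : |n * S1| ≤ R * M * m1 := by
    rw [abs_mul, abs_of_nonneg n0]
    have c5 := mul_le_mul (nM.trans MRM) t1 (abs_nonneg _) RM0
    have c6 := mul_nonneg RM0 m10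
    linarith
  have c7 : |p * S0| ≤ R * M * m0 := by
    rw [abs_mul]
    have c8 := mul_le_mul pM t0 (abs_nonneg _) (by linarith : 0 ≤ 2 * R * M)
    linarith
  have c9 := mul_le_mul_of_nonneg_left hmS RM0
  have c10 : 0 ≤ R * M * S := (mul_nonneg RM0 (add_nonneg m10 m00)).trans c9
  have d1 := (abs_le.1 c1).1
  have d2 := (abs_le.1 c2).2
  have d3 := (abs_le.1 c4).1
  have d4 := (abs_le.1 c7).2
  have g1 := mul_nonneg RM0 m00
  have g2 := mul_nonneg RM0 m10
  nlinarith

end Pool.Agent.H48.PV
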