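import Pool.Agent.H48.PV.EUDef
import Pool.Agent.H48.PI.EDer

/-!
# Module DerC: the damping potential is bounded

`n = avn (W0 R) (bet F) v = ∫ g' dν ∈ [0,M]`, `p = avn (W1 e R) (bet F) v`, `|p| ≤ 2RM` (`g' = gb R C F ≤ F`, `|w_e| ≤ jb w ≤ 2R` where `chi ≠ 0`), `|pot[W1]| ≤ (1/2) 2RM`, `|pot[W0]| ≤ M/2` (`|kl 1 z| ≤ 1/2`, `loc e 1 B x = ∫ B dμ` for planar `B`: private lemma `EDer_loc` in PI/EDer.lean, `nu_integral`).
-/

set_option autoImplicit false

open MeasureTheory Set Filter Topology Pool.Agent.H25.Kin Pool.Agent.H82.BK Pool.Agent.H82.CM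
open Pool.Agent.H48.PL Pool.Agent.H48.PI Pool.Agent.H48.PW Pool.Agent.H85.UP
open Pool.Agent.H15.AV (UNice gau)

namespace Pool.Agent.H48.PV

variable {d : ℕ} {e : Fin d} {F G : Vec d → Vec d → ℝ} {R C M : ℝ}

/-- continuous planar periodic functions with rapid decay in the velocity -/
private structure DerCA (e : Fin d) (A : Vec d → Vec d → ℝ) : Prop where
  cont : Continuous fun p : Vec d × Vec d => A p.1 p.2
  dec : RX A
  per : ∀ x v i, A (x + Pi.single i 1) v = A x v
  pl : ∀ x y v, x e = y e → A x v = A y v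

private lemma DerC_bd {A : Vec d → Vec d → ℝ} (hA : DerCA e A) {Φ : Vec d → Vec d → ℝ} (hΦ : PGW Φ)
    (v : Vec d) : ∃ C, ∀ x w, |Φ v w * A x w| ≤ C * wt d w := by
  obtain ⟨N, K, hK0, hK⟩ := hΦ.le
  obtain ⟨C, hC⟩ := hA.dec (N + (d + 1))
  refine ⟨K * (1 + ‖v‖) ^ N * C, fun x w => ?_⟩
  have hw : 0 < 1 + ‖w‖ := w_pos w
  have hv : 0 < 1 + ‖v‖ := w_pos v
  have h2 := hC x w
  rw [abs_mul]
  unfold wt
  rw [← div_eq_mul_inv, le_div_iff₀ (by positivity)]
  calc |Φ v w| * |A x w| * (1 + ‖w‖) ^ (d + 1)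
      ≤ (K * ((1 + ‖v‖) ^ N * (1 + ‖w‖) ^ N)) * |A x w| * (1 + ‖w‖) ^ (d + 1) := by
        have := hK v w
        gcongr
    _ = K * (1 + ‖v‖) ^ N * ((1 + ‖w‖) ^ (N + (d + 1)) * |A x w|) := by rw [pow_add]; ring
    _ ≤ K * (1 + ‖v‖) ^ N * C := by gcongr

private lemma DerC_wc {A : Vec d → Vec d → ℝ} (hA : DerCA e A) {Φ : Vec d → Vec d → ℝ} (hΦ : PGW Φ)
    (x v : Vec d) : Continuous fun w => Φ v w * A x w :=
  (hΦ.cont.comp (by fun_prop : Continuous fun w : Vec d => (v, w))).mul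
    (hA.cont.comp (by fun_prop : Continuous fun w : Vec d => (x, w)))

private lemma DerC_int {A : Vec d → Vec d → ℝ} (hA : DerCA e A) {Φ : Vec d → Vec d → ℝ} (hΦ : PGW Φ)
    (x v : Vec d) : Integrable fun w => Φ v w * A x w := by
  obtain ⟨C, hC⟩ := DerC_bd hA hΦ v
  exact (integrable_wt.const_mul C).mono' (DerC_wc hA hΦ x v).aestronglyMeasurable
    (Eventually.of_forall fun w => hC x w)

private lemma DerC_nu {A : Vec d → Vec d → ℝ} (hA : DerCA e A) {Φ : Vec d → Vec d → ℝ} (hΦ : PGW Φ)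
    (v : Vec d) : Integrable (fun p : Vec d × Vec d => Φ v p.1 * A p.2 p.1) (nu d) := by
  obtain ⟨C, hC⟩ := DerC_bd hA hΦ v
  have hc : Continuous fun p : Vec d × Vec d => Φ v p.1 * A p.2 p.1 :=
    (hΦ.cont.comp (by fun_prop : Continuous fun p : Vec d × Vec d => (v, p.1))).mul
      (hA.cont.comp (by fun_prop : Continuous fun p : Vec d × Vec d => (p.2, p.1)))
  exact integrable_nu hc.aestronglyMeasurable fun p => hC p.2 p.1

private lemma DerC_pl {A : Vec d → Vec d → ℝ} (hA : DerCA e A) {Φ : Vec d → Vec d → ℝ} (hΦ : PGW Φ)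
    (v : Vec d) : PlF e fun x => ∫ w, Φ v w * A x w := by
  obtain ⟨C, hC⟩ := DerC_bd hA hΦ v
  refine ⟨?_, ?_, ?_⟩
  · refine continuous_of_dominated (bound := fun w => C * wt d w) ?_ ?_
      (integrable_wt.const_mul _) ?_
    · intro x
      exact (DerC_wc hA hΦ x v).aestronglyMeasurable
    · intro x
      exact Eventually.of_forall fun w => hC x w
    · refine Eventually.of_forall fun w => ?_
      exact continuous_const.mul
        (hA.cont.comp (by fun_prop : Continuous fun x : Vec d => (x, w)))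
  · intro x i
    congr 1
    funext w
    rw [hA.per]
  · intro x y hxy
    congr 1
    funext w
    rw [hA.pl x y w hxy]

private lemma DerC_loc {B : Vec d → ℝ} (hB : PlF e B) (x : Vec d) :
    loc e 1 B x = ∫ y, B y ∂(muD d) := by
  obtain ⟨C, hC⟩ := pl_bdd hB
  have hfin : IsFiniteMeasure ((volume : Measure ℝ).restrict (Ioo (-(1 / 2)) (1 / 2))) :=
    ⟨by rw [Measure.restrict_apply_univ]; exact measure_Ioo_lt_top⟩
  have hi : Integrable (fun z : ℝ => B (x - Pi.single e z))
      (volume.restrict (Ioo (-(1 / 2)) (1 / 2))) := by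
    have hc : Continuous fun z : ℝ => x - (Pi.single e z : Vec d) :=
      continuous_const.sub (continuous_single (A := fun _ : Fin d => ℝ) e)
    exact Integrable.of_bound (hB.cont.comp hc).aestronglyMeasurable C
      (Eventually.of_forall fun z => hC _)
  have hv : (∫ _z in Ioo (-(1 / 2) : ℝ) (1 / 2), C) = C := by
    rw [setIntegral_const, Real.volume_real_Ioo_of_le (by norm_num)]
    norm_num
  have hm : (∫ _y : Vec d, C ∂(muD d)) = C := by
    rw [integral_const, measureReal_def, muD_univ]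
    simp
  have h1 : PlF e fun y => C - B y :=
    ⟨continuous_const.sub hB.cont, fun x i => by rw [hB.per], fun x y h => by rw [hB.pl x y h]⟩
  have h2 : PlF e fun y => C + B y :=
    ⟨continuous_const.add hB.cont, fun x i => by rw [hB.per], fun x y h => by rw [hB.pl x y h]⟩
  have e1 := loc_le h1 (fun y => by have := (abs_le.mp (hC y)).2; linarith) one_pos le_rfl x
  have e2 := loc_le h2 (fun y => by have := (abs_le.mp (hC y)).1; linarith) one_pos le_rfl x
  unfold loc at e1 e2 ⊢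
  rw [integral_sub (integrable_const _) hi, integral_sub (integrable_const _) (pl_int hB), hv,
    hm] at e1
  rw [integral_add (integrable_const _) hi, integral_add (integrable_const _) (pl_int hB), hv,
    hm] at e2
  linarith

private lemma DerC_bet (hC : 0 < C) (h : FS e F G) : DerCA e fun x w => bet C (F x w) := by
  refine ⟨?_, ?_, ?_, ?_⟩
  · unfold bet
    refine (continuous_const.mul h.contF).div (continuous_const.add h.contF) fun p => ?_
    have := h.nonneg p.1 p.2
    positivity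
  · intro N
    obtain ⟨K, hK⟩ := h.decF N
    refine ⟨K, fun x w => le_trans ?_ (hK x w)⟩
    have hw : 0 < 1 + ‖w‖ := w_pos w
    refine mul_le_mul_of_nonneg_left ?_ (by positivity)
    rw [abs_of_nonneg (bet_nonneg hC (h.nonneg x w)), abs_of_nonneg (h.nonneg x w)]
    exact bet_le hC (h.nonneg x w)
  · intro x w i
    simp only [h.perF]
  · intro x y w hxy
    simp only [h.plF x y w hxy]

private lemma DerC_W1 (hR : 1 ≤ R) (v w : Vec d) : |W1 e R v w| ≤ 2 * R * chi R w := by
  have h0 := chi_nonneg R w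
  unfold W1
  rw [abs_mul, abs_of_nonneg h0]
  rcases le_or_gt (2 * R) (jb w) with h1 | h1
  · rw [chi_eq_zero hR h1]
    simp
  · have h2 : |w e| ≤ jb w := by
      unfold jb
      refine Real.abs_le_sqrt ?_
      have h3 : w e ^ 2 ≤ nsq w := by
        unfold nsq
        exact Finset.single_le_sum (f := fun i => w i ^ 2) (fun i _ => sq_nonneg _)
          (Finset.mem_univ e)
      linarith
    nlinarith

private lemma DerC_W0 (v w : Vec d) : |(W0 R : Vec d → Vec d → ℝ) v w| ≤ 1 * chi R w := by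
  unfold W0
  rw [abs_of_nonneg (chi_nonneg R w), one_mul]

/-- the mass of the bounded part -/
private noncomputable def DerC_m (R : ℝ) (B : Vec d → Vec d → ℝ) : ℝ :=
  ∫ p, chi R p.1 * B p.2 p.1 ∂(nu d)

private lemma DerC_avn {B : Vec d → Vec d → ℝ} (hB : DerCA e B) (hB0 : ∀ x w, 0 ≤ B x w)
    {Φ : Vec d → Vec d → ℝ} {K : ℝ} (v : Vec d)
    (hK : ∀ w, |Φ v w| ≤ K * chi R w) : |avn Φ B v| ≤ K * DerC_m R B := by
  have i0 : Integrable (fun p : Vec d × Vec d => chi R p.1 * B p.2 p.1) (nu d) :=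
    DerC_nu hB (W0_PGW R) v
  unfold avn DerC_m
  rw [← integral_const_mul]
  have h1 : ‖∫ p, Φ v p.1 * B p.2 p.1 ∂(nu d)‖ ≤ ∫ p, K * (chi R p.1 * B p.2 p.1) ∂(nu d) := by
    refine norm_integral_le_of_norm_le (i0.const_mul K) (Eventually.of_forall fun p => ?_)
    rw [Real.norm_eq_abs, abs_mul, abs_of_nonneg (hB0 _ _)]
    have := mul_le_mul_of_nonneg_right (hK p.1) (hB0 p.2 p.1)
    linarith
  exact h1

private lemma DerC_pot {B : Vec d → Vec d → ℝ} (hB : DerCA e B) (hB0 : ∀ x w, 0 ≤ B x w)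
    {Φ : Vec d → Vec d → ℝ} (hΦ : PGW Φ) {K : ℝ} (x v : Vec d)
    (hK : ∀ w, |Φ v w| ≤ K * chi R w) : |pot e 1 Φ B x v| ≤ 1 / 2 * (K * DerC_m R B) := by
  have i0 : Integrable (fun p : Vec d × Vec d => chi R p.1 * B p.2 p.1) (nu d) :=
    DerC_nu hB (W0_PGW R) v
  have q0 : PlF e fun y => ∫ w, (W0 R : Vec d → Vec d → ℝ) v w * B y w := DerC_pl hB (W0_PGW R) v
  have e0 : DerC_m R B = ∫ y, (∫ w, (W0 R : Vec d → Vec d → ℝ) v w * B y w) ∂(muD d) :=
    Pool.Agent.H15.AV.nu_integral i0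
  have l0 := DerC_loc q0 x
  have hc : Continuous fun z : ℝ => x - (Pi.single e z : Vec d) :=
    continuous_const.sub (continuous_single (A := fun _ : Fin d => ℝ) e)
  have hfin : IsFiniteMeasure ((volume : Measure ℝ).restrict (Ioo (-(1 / 2)) (1 / 2))) :=
    ⟨by rw [Measure.restrict_apply_univ]; exact measure_Ioo_lt_top⟩
  obtain ⟨C', hC'⟩ := pl_bdd q0
  have him : Integrable (fun z : ℝ => ∫ w, (W0 R : Vec d → Vec d → ℝ) v w * B (x - Pi.single e z) w)
      (volume.restrict (Ioo (-(1 / 2)) (1 / 2))) :=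
    Integrable.of_bound (q0.cont.comp hc).aestronglyMeasurable C'
      (Eventually.of_forall fun z => hC' _)
  unfold loc at l0
  rw [e0, ← l0, ← integral_const_mul, ← integral_const_mul]
  unfold pot
  have h1 : ‖∫ z in Ioo (-(1 / 2) : ℝ) (1 / 2), kl 1 z * ∫ w, Φ v w * B (x - Pi.single e z) w‖ ≤
      ∫ z in Ioo (-(1 / 2) : ℝ) (1 / 2), 1 / 2 *
        (K * ∫ w, (W0 R : Vec d → Vec d → ℝ) v w * B (x - Pi.single e z) w) := by
    refine norm_integral_le_of_norm_le ((him.const_mul _).const_mul _) ?_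
    filter_upwards [ae_restrict_mem measurableSet_Ioo] with z hz
    have h3 : |kl 1 z| ≤ 1 / 2 := kl_abs one_pos hz
    have h2 : ‖∫ w, Φ v w * B (x - Pi.single e z) w‖ ≤
        ∫ w, K * ((W0 R : Vec d → Vec d → ℝ) v w * B (x - Pi.single e z) w) := by
      refine norm_integral_le_of_norm_le ((DerC_int hB (W0_PGW R) _ v).const_mul K)
        (Eventually.of_forall fun w => ?_)
      rw [Real.norm_eq_abs, abs_mul, abs_of_nonneg (hB0 _ _)]
      have := mul_le_mul_of_nonneg_right (hK w) (hB0 (x - Pi.single e z) w)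
      unfold W0
      linarith
    rw [integral_const_mul, Real.norm_eq_abs] at h2
    rw [norm_mul, Real.norm_eq_abs, Real.norm_eq_abs]
    exact mul_le_mul h3 h2 (abs_nonneg _) (by norm_num)
  exact h1

/-- the damping potential is bounded -/
theorem ED_abs (hR : 1 ≤ R) (hC : 0 < C) (h : FS e F G) (hM : ∫ p, F p.2 p.1 ∂(nu d) ≤ M) (x v : Vec d) :
    |ED R C e F x v| ≤ 2 * R * M ^ 2 := by
  have hB := DerC_bet hC h
  have hB0 : ∀ x w, 0 ≤ (fun x w => bet C (F x w)) x w := fun x w => bet_nonneg hC (h.nonneg x w)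
  have a0 := DerC_avn (R := R) hB hB0 v (DerC_W0 (R := R) v)
  have a1 := DerC_avn (R := R) hB hB0 v (DerC_W1 (e := e) hR v)
  have p0 := DerC_pot (R := R) hB hB0 (W0_PGW R) x v (DerC_W0 (R := R) v)
  have p1 := DerC_pot (R := R) hB hB0 (W1_PGW e R) x v (DerC_W1 (e := e) hR v)
  have n0 : 0 ≤ DerC_m R fun x w => bet C (F x w) :=
    integral_nonneg fun p => mul_nonneg (chi_nonneg _ _) (hB0 _ _)
  have nM : DerC_m R (fun x w => bet C (F x w)) ≤ M := by
    refine le_trans ?_ hM
    have i0 : Integrable (fun p : Vec d × Vec d => chi R p.1 * bet C (F p.2 p.1)) (nu d) :=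
      DerC_nu hB (W0_PGW R) v
    have iF : Integrable (fun p : Vec d × Vec d => F p.2 p.1) (nu d) := by
      obtain ⟨K, hK⟩ := h.decF (d + 1)
      have hc : Continuous fun p : Vec d × Vec d => F p.2 p.1 :=
        h.contF.comp (by fun_prop : Continuous fun p : Vec d × Vec d => (p.2, p.1))
      refine integrable_nu (C := K) hc.aestronglyMeasurable fun p => ?_
      have hw : 0 < 1 + ‖p.1‖ := w_pos p.1
      have := hK p.2 p.1
      unfold wt
      rw [← div_eq_mul_inv, le_div_iff₀ (by positivity)]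
      linarith
    refine integral_mono i0 iF fun p => ?_
    have h1 := bet_nonneg hC (h.nonneg p.2 p.1)
    have h2 := bet_le hC (h.nonneg p.2 p.1)
    have h3 := chi_le_one R p.1
    have h4 := chi_nonneg R p.1
    show chi R p.1 * bet C (F p.2 p.1) ≤ F p.2 p.1
    nlinarith
  unfold ED
  set n := DerC_m R fun x w => bet C (F x w) with hn
  refine (abs_sub _ _).trans ?_
  rw [abs_mul, abs_mul]
  have b1 := mul_le_mul a0 p1 (abs_nonneg _) (by linarith)
  have b2 := mul_le_mul a1 p0 (abs_nonneg _) (by positivity)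
  have b3 : n ^ 2 ≤ M ^ 2 := pow_le_pow_left₀ n0 nM 2
  nlinarith

end Pool.Agent.H48.PV
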