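import Pool.Agent.H48.PV.AbsU
import Pool.Agent.H48.PV.VarL
import Pool.Agent.H48.PV.LocU
import Pool.Agent.H48.PW.Blk
import Pool.Agent.H48.PW.AvGW
import Pool.Agent.H48.PI.WinP
import Pool.Agent.H48.PI.WinT

/-!
# Module CoreU: choice of the parameters

`K₀, κ, δ₁` from `op_w` (PW/Blk, with `U.wp : WP s a m a`), `K = 4 K₀`; `R₂, C₂, cV` from `var_low M hm`; `lam₀` from `loc_U` (`κ`, `c = cV`, `M`, `R₂`, `C₂`), `lam = min lam₀ (min 1 (1/(16 R₂ M^2 + 16)))`; `sg ∈ (0,1]` with `K 4 sg 2M ≤ lam cV/16`; `x₀ = x0 a sg`; `K'` from `EU_osc`;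
`ε₂ > 0` with `K 2 x₀^a ε₂ ≤ lam cV/16`, `(3/2) K (2+x₀^a) ε₂ ≤ 1/16`, `K K' ε₂ ≤ δ₁/4` (`≤ 1/4`); `R ≥ R₂`, `C₀ ≥ C₂` from `gw_small M` (PW/AvGW; `gw q F = gb R C₀ F` for any `q : Pm` with `q.R = R`, `q.C₀ = C₀`, `q.a = a`); `P = ⟨a, sg, K, lam, R, C₀, R₂, C₂⟩`; `N₁` from `op_w` (`C₀`, `2R`).
`c = min (lam cV/2) (1/8)`. `∫ F jb^2 dν ≤ 2M` (private lemma `wp_jb2` in PI/WinP.lean, copy), `∫ F dν ≤ M` (`GB`).
* `|EU| ≤ 1/16 + lam 2 R₂ M^2 ≤ 1/4` (`EU_abs`).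
* touching point: `|E u - E v| ≤ (δ₁/4) mm m v u`, `mm m v u = min(1, len(u-v)/jb v)^m` (`fmm_eq` in PL/FinP.lean, private), `touch_E` (PI/WinT, with `δ = δ₁/4`, `a := m`): `Touch δ₁ m p g v`; this gives `TouchS δ₁ m p g v` with `P u = δ₁ mm m v u` (`0 ≤ mm ≤ 1`, measurable, `integral_const_mul`).
* `op_w` (with `g₁ = gb R C₀ F x`): `Q ≤ g (K₀ ∫ V_e PhS (g-g₁) - κ ∫ len^(1+a) g₁) ≤ g (K ∫ V_e PO (g-g₁) - κ ∫ len^(1+a) g₁)` (`V_PhS_le`, `g ≥ g₁`); `loc_U`: `-κ ∫ len^(1+a) g₁ ≤ -lam 4R₂M ∫ len g' + lam cV/8`; `K avU ≤ K (4 sg 2M + 2x₀^a ε₂) ≤ lam cV/8` (`avU_le`), `Var ≥ cV`: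
`-κ ∫ len^(1+a) g₁ ≤ lam (Var - 4R₂M ∫ len g') - K avU + (lam cV/8 + lam cV/8 - lam cV) ≤ .. - c`.
-/

set_option autoImplicit false

open MeasureTheory Set Filter Topology Pool.Agent.H25.Kin Pool.Agent.H82.BK Pool.Agent.H82.CM
open Pool.Agent.H48.PL Pool.Agent.H48.PI Pool.Agent.H48.PW Pool.Agent.H85.UP
open Pool.Agent.H15.AV (UNice gau)

namespace Pool.Agent.H48.PV

variable {d : ℕ} {s a m q C Ca cb : ℝ} {b : ℝ → ℝ}

private lemma cu_jb2 {e : Fin d} {F G : Vec d → Vec d → ℝ} (h : FS e F G) {M : ℝ} (hg : GB M F) :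
    ∫ p, F p.2 p.1 * jb p.1 ^ 2 ∂(nu d) ≤ 2 * M := by
  have hc : Continuous fun q : Vec d × Vec d => F q.2 q.1 :=
    h.contF.comp (continuous_snd.prodMk continuous_fst)
  have key : ∀ k : ℕ, ∃ C : ℝ, ∀ x v, F x v * (1 + ‖v‖) ^ k ≤ C * wt d v := by
    intro k
    obtain ⟨C, hC⟩ := h.decF (k + (d + 1))
    refine ⟨C, fun x v => ?_⟩
    have h1 := hC x v
    rw [abs_of_nonneg (h.nonneg x v)] at h1
    unfold wt
    rw [← div_eq_mul_inv, le_div_iff₀ (pow_pos (w_pos v) _)]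
    calc F x v * (1 + ‖v‖) ^ k * (1 + ‖v‖) ^ (d + 1) = (1 + ‖v‖) ^ (k + (d + 1)) * F x v := by
          rw [pow_add]; ring
      _ ≤ C := h1
  obtain ⟨C₁, hC₁⟩ := key 0
  obtain ⟨C₂, hC₂⟩ := key 2
  have i1 : Integrable (fun q : Vec d × Vec d => F q.2 q.1) (nu d) := by
    refine integrable_nu (C := C₁) hc.aestronglyMeasurable fun q => ?_
    have := hC₁ q.2 q.1
    rw [pow_zero, mul_one] at this
    rw [abs_of_nonneg (h.nonneg _ _)]
    exact this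
  have i2 : Integrable (fun q : Vec d × Vec d => F q.2 q.1 * nsq q.1) (nu d) := by
    refine integrable_nu (C := d * C₂)
      (hc.mul (continuous_sq.comp continuous_fst)).aestronglyMeasurable fun q => ?_
    rw [abs_of_nonneg (mul_nonneg (h.nonneg _ _) (sq_nonneg' _))]
    have h3 : nsq q.1 ≤ d * (1 + ‖q.1‖) ^ 2 := by
      refine (sq_le q.1).trans (mul_le_mul_of_nonneg_left ?_ (Nat.cast_nonneg _))
      exact pow_le_pow_left₀ (norm_nonneg _) (by linarith) 2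
    calc F q.2 q.1 * nsq q.1 ≤ F q.2 q.1 * (d * (1 + ‖q.1‖) ^ 2) :=
          mul_le_mul_of_nonneg_left h3 (h.nonneg _ _)
      _ = d * (F q.2 q.1 * (1 + ‖q.1‖) ^ 2) := by ring
      _ ≤ d * (C₂ * wt d q.1) := mul_le_mul_of_nonneg_left (hC₂ _ _) (Nat.cast_nonneg _)
      _ = d * C₂ * wt d q.1 := by ring
  have e1 : ∫ p, F p.2 p.1 * jb p.1 ^ 2 ∂(nu d) =
      ∫ p, F p.2 p.1 ∂(nu d) + ∫ p, F p.2 p.1 * nsq p.1 ∂(nu d) := by
    rw [← integral_add i1 i2]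
    refine integral_congr_ae (Eventually.of_forall fun p => ?_)
    simp only
    rw [jb_sq]
    ring
  rw [e1]
  linarith [hg.mass, hg.energy]

private lemma cu_mm (a : ℝ) (v u : Vec d) : mm a v u = min 1 (len (u - v) / jb v) ^ a := by
  have hj := jb_pos v
  have hn : 0 ≤ nsq (u - v) := by
    unfold nsq
    exact Finset.sum_nonneg fun i _ => sq_nonneg _
  have hl : 0 ≤ len (u - v) := Real.sqrt_nonneg _
  have h1 : nsq (u - v) / (1 + nsq v) = (len (u - v) / jb v) ^ 2 := by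
    rw [div_pow, jb_sq]
    unfold len
    rw [Real.sq_sqrt hn]
  have hr : 0 ≤ len (u - v) / jb v := by positivity
  have h2 : min 1 ((len (u - v) / jb v) ^ 2) = (min 1 (len (u - v) / jb v)) ^ 2 := by
    rcases le_total (len (u - v) / jb v) 1 with h | h
    · rw [min_eq_right h, min_eq_right (by nlinarith)]
    · rw [min_eq_left h, min_eq_left (by nlinarith)]
      norm_num
  have h3 : 0 ≤ min 1 (len (u - v) / jb v) := le_min zero_le_one hr
  unfold mm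
  rw [h1, h2, ← Real.rpow_natCast, ← Real.rpow_mul h3]
  congr 1
  push_cast
  ring

private lemma cu_mm01 (hm : 0 < m) (v u : Vec d) : 0 ≤ mm m v u ∧ mm m v u ≤ 1 := by
  rw [cu_mm]
  have hr : 0 ≤ min 1 (len (u - v) / jb v) :=
    le_min zero_le_one (div_nonneg (Real.sqrt_nonneg _) (jb_pos v).le)
  exact ⟨Real.rpow_nonneg hr _, Real.rpow_le_one hr (min_le_left _ _) hm.le⟩

private lemma cu_mm_meas (m : ℝ) (v : Vec d) : Measurable fun u : Vec d => mm m v u := by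
  have e1 : (fun u : Vec d => mm m v u) = fun u : Vec d => min 1 (len (u - v) / jb v) ^ m := by
    funext u
    exact cu_mm m v u
  rw [e1]
  have h1 : Measurable fun u : Vec d => len (u - v) / jb v :=
    (continuous_len.comp (continuous_id.sub continuous_const)).measurable.div_const _
  exact (measurable_const.min h1).pow_const _

private lemma cu_touch {δ : ℝ} (hδ : 0 < δ) (hm : 0 < m) {p : ℕ} {g : Vec d → ℝ} {v : Vec d}
    (h : Touch δ m p g v) : TouchS δ m p g v := by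
  refine ⟨fun u => δ * mm m v u, (cu_mm_meas m v).const_mul δ, fun u => h u, fun u => ?_,
    fun w _ k _ => ?_⟩
  · have h1 := cu_mm01 hm v u
    rw [abs_of_nonneg (mul_nonneg hδ.le h1.1)]
    nlinarith [h1.2]
  · have e1 : ∀ σ : Vec d, k (co w σ) * (δ * mm m v (v + hh σ w)) =
        δ * (k (co w σ) * mm m v (v + hh σ w)) := fun σ => by ring
    simp_rw [e1]
    rw [integral_const_mul]

/-- the flux with the weight `PhS` is bounded by the flux with the weight `PO` -/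
private lemma cu_flux {sg : ℝ} (ha : 0 < a) (ha1 : a < 1) (hsg : 0 < sg) (hsg1 : sg ≤ 1) (e : Fin d)
    {C₀ R : ℝ} (hC : 0 < C₀) {g : Vec d → ℝ} (hg : Nice g) (hg0 : ∀ u, 0 ≤ g u) (v : Vec d) :
    ∫ w, (v e - w e) * PhS e a v w * (g w - chi R w * bet C₀ (g w)) ≤
      4 * ∫ w, (v e - w e) * PO e a sg v w * (g w - chi R w * bet C₀ (g w)) := by
  have hb0 : ∀ u, 0 ≤ bet C₀ (g u) := fun u => bet_nonneg hC (hg0 u)
  have hle : ∀ u, chi R u * bet C₀ (g u) ≤ g u := fun u => by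
    calc chi R u * bet C₀ (g u) ≤ 1 * bet C₀ (g u) :=
          mul_le_mul_of_nonneg_right (chi_le_one _ _) (hb0 u)
      _ = bet C₀ (g u) := one_mul _
      _ ≤ g u := bet_le hC (hg0 u)
  have h0 : ∀ u, 0 ≤ g u - chi R u * bet C₀ (g u) := fun u => sub_nonneg.2 (hle u)
  have hcb : Continuous fun u : Vec d => bet C₀ (g u) := by
    unfold bet
    refine (continuous_const.mul hg.cont).div (continuous_const.add hg.cont) fun u => ?_
    have := hg0 u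
    linarith
  have hc : Continuous fun u : Vec d => g u - chi R u * bet C₀ (g u) :=
    hg.cont.sub ((chi_cont R).mul hcb)
  have hrd : RD fun u : Vec d => g u - chi R u * bet C₀ (g u) := by
    intro N
    obtain ⟨B, hB⟩ := hg.rd N
    refine ⟨B, fun u => le_trans (mul_le_mul_of_nonneg_left ?_ (by positivity)) (hB u)⟩
    rw [Real.norm_eq_abs, Real.norm_eq_abs, abs_of_nonneg (h0 u), abs_of_nonneg (hg0 u)]
    have := mul_nonneg (chi_nonneg R u) (hb0 u)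
    linarith
  have hint : Integrable fun w => (v e - w e) * PO e a sg v w * (g w - chi R w * bet C₀ (g w)) :=
    avg_int ((PO_PGW ha ha1 hsg hsg1 e).vmul e) hrd hc v
  rw [← integral_const_mul]
  refine integral_mono_of_nonneg (Eventually.of_forall fun w => ?_) (hint.const_mul 4)
    (Eventually.of_forall fun w => ?_)
  · refine mul_nonneg ?_ (h0 w)
    unfold PhS phi
    have e1 : (v e - w e) * (min 1 (jb w / jb v) ^ 4 * ((v - w) e * len (v - w) ^ (a - 1))) =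
        min 1 (jb w / jb v) ^ 4 * ((v e - w e) ^ 2 * len (v - w) ^ (a - 1)) := by
      rw [Pi.sub_apply]
      ring
    rw [e1]
    have h1 : 0 ≤ len (v - w) ^ (a - 1) := Real.rpow_nonneg (len_nonneg _) _
    have h2 : 0 ≤ min 1 (jb w / jb v) :=
      le_min zero_le_one (div_nonneg (jb_pos w).le (jb_pos v).le)
    positivity
  · have h1 := mul_le_mul_of_nonneg_right (V_PhS_le ha ha1 hsg hsg1 e v w) (h0 w)
    simp only
    linarith

theorem core_U (HL : HypL d (1 + a) s b C Ca cb) (U : UE s a m q) {p : ℕ}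
    (hp : (d : ℝ) + (1 + a) + 4 ≤ 2 * p) (e : Fin d) {M : ℝ} (hM : 0 ≤ M) {m₀ : ℝ} (hm : 0 < m₀) :
    ∃ (P : Pv) (N₁ c : ℝ), P.Ok ∧ P.a = a ∧ 0 < N₁ ∧ 0 < c ∧ c ≤ 1 / 8 ∧
      ∀ F G : Vec d → Vec d → ℝ, FS e F G → GB M F → m₀ ≤ ∫ p, F p.2 p.1 ∂(nu d) →
        (∀ x v, |EU P e F x v| ≤ 1 / 4) ∧
        ∀ x v : Vec d, Nice (F x) → N₁ ≤ F x v * (1 + nsq v) ^ p →
          (∀ u, F x u * (1 + nsq u) ^ p * Real.exp (-EU P e F x u) ≤
            F x v * (1 + nsq v) ^ p * Real.exp (-EU P e F x v)) →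
          boltzQ (1 + a) b (F x) v ≤ F x v * (P.K * (∫ w, (v e - w e) * PO e a P.sg v w *
              (F x w - gb P.R P.C₀ F x w)) - P.K * avU P e F v +
            P.lam * (VarU P.R₂ P.C₂ e F - 4 * P.R₂ * M * ∫ w, len (v - w) * gb P.R₂ P.C₂ F x w) - c) := by
  have ha : 0 < a := U.wp.ha
  have hs := U.hs
  have ha1 : a < 1 := by have := U.ha1; linarith
  have hm0 : 0 < m := by have := U.hm; linarith
  obtain ⟨K₀, κ, δ₁, hK₀, hκ, hδ₁, hδ₁1, hop⟩ := op_w HL U.wp hp e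
  obtain ⟨K, hKd⟩ : ∃ K : ℝ, K = 4 * K₀ := ⟨_, rfl⟩
  have hK : 0 ≤ K := by rw [hKd]; positivity
  obtain ⟨R₂, C₂, cV, hR₂, hC₂, hcV, hvar⟩ := var_low (d := d) M hm
  obtain ⟨lam₀, hlam₀, hloc⟩ := loc_U (d := d) ha ha1.le hκ hcV hM hR₂ (C₂ := C₂) (by linarith)
  have hRM : 0 ≤ R₂ * M ^ 2 := by positivity
  obtain ⟨lam, hlamd⟩ : ∃ lam : ℝ, lam = min lam₀ (min 1 (1 / (32 * (R₂ * M ^ 2) + 1))) := ⟨_, rfl⟩
  have hlam : 0 < lam := by
    rw [hlamd]
    exact lt_min hlam₀ (lt_min one_pos (by positivity))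
  have hlam1 : lam ≤ lam₀ := by rw [hlamd]; exact min_le_left _ _
  have hlam2 : lam * (2 * R₂ * M ^ 2) ≤ 1 / 16 := by
    have h2 : lam ≤ 1 / (32 * (R₂ * M ^ 2) + 1) := by
      rw [hlamd]; exact (min_le_right _ _).trans (min_le_right _ _)
    rw [le_div_iff₀ (by positivity)] at h2
    nlinarith
  have hlc : 0 < lam * cV := mul_pos hlam hcV
  obtain ⟨sg, hsgd⟩ : ∃ sg : ℝ, sg = min 1 (lam * cV / (16 * (8 * K * M) + 1)) := ⟨_, rfl⟩
  have hKM : 0 ≤ K * M := mul_nonneg hK hM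
  have hsg : 0 < sg := by
    rw [hsgd]
    exact lt_min one_pos (by positivity)
  have hsg1 : sg ≤ 1 := by rw [hsgd]; exact min_le_left _ _
  have hsg2 : K * (4 * sg * (2 * M)) ≤ lam * cV / 16 := by
    have h2 : sg ≤ lam * cV / (16 * (8 * K * M) + 1) := by rw [hsgd]; exact min_le_right _ _
    rw [le_div_iff₀ (by positivity)] at h2
    nlinarith
  obtain ⟨X, hXd⟩ : ∃ X : ℝ, X = x0 a sg ^ a := ⟨_, rfl⟩
  have hX : 0 ≤ X := by
    rw [hXd]
    unfold x0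
    positivity
  obtain ⟨K', hK', hosc⟩ := EU_osc (d := d) hm0 U.hma ha1 hsg hsg1
  have hKK : 0 ≤ K * K' := mul_nonneg hK hK'
  obtain ⟨ε₂, hε₂d⟩ : ∃ ε₂ : ℝ, ε₂ = min (lam * cV / (16 * (K * (2 * X)) + 1))
    (min (1 / (16 * (3 / 2 * (K * (2 + X))) + 1)) (δ₁ / (4 * (K * K') + 1))) := ⟨_, rfl⟩
  have hε₂ : 0 < ε₂ := by
    rw [hε₂d]
    exact lt_min (by positivity) (lt_min (by positivity) (by positivity))
  have e1 : K * (2 * X * ε₂) ≤ lam * cV / 16 := by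
    have h2 : ε₂ ≤ lam * cV / (16 * (K * (2 * X)) + 1) := by rw [hε₂d]; exact min_le_left _ _
    rw [le_div_iff₀ (by positivity)] at h2
    nlinarith
  have e2 : 3 / 2 * (K * (2 + X) * ε₂) ≤ 1 / 16 := by
    have h2 : ε₂ ≤ 1 / (16 * (3 / 2 * (K * (2 + X))) + 1) := by
      rw [hε₂d]; exact (min_le_right _ _).trans (min_le_left _ _)
    rw [le_div_iff₀ (by positivity)] at h2
    nlinarith
  have e3 : K * K' * ε₂ ≤ δ₁ / 4 := by
    have h2 : ε₂ ≤ δ₁ / (4 * (K * K') + 1) := by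
      rw [hε₂d]; exact (min_le_right _ _).trans (min_le_right _ _)
    rw [le_div_iff₀ (by positivity)] at h2
    nlinarith
  obtain ⟨Rg, hRg, hg⟩ := gw_small (d := d) M ha ha1 hε₂
  obtain ⟨C₁, hC₁, hg'⟩ := hg (max R₂ Rg) (le_max_right _ _)
  have hR1 : 1 ≤ max R₂ Rg := hRg.trans (le_max_right _ _)
  have hC1 : 1 ≤ max C₂ C₁ := hC₁.trans (le_max_right _ _)
  have hC0 : (0 : ℝ) < max C₂ C₁ := by linarith
  obtain ⟨P, hPd⟩ : ∃ P : Pv, P = ⟨a, sg, K, lam, max R₂ Rg, max C₂ C₁, R₂, C₂⟩ := ⟨_, rfl⟩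
  have Pa : P.a = a := by rw [hPd]
  have Ps : P.sg = sg := by rw [hPd]
  have PK : P.K = K := by rw [hPd]
  have Pl : P.lam = lam := by rw [hPd]
  have PR : P.R = max R₂ Rg := by rw [hPd]
  have PC : P.C₀ = max C₂ C₁ := by rw [hPd]
  have PR₂ : P.R₂ = R₂ := by rw [hPd]
  have PC₂ : P.C₂ = C₂ := by rw [hPd]
  have hP : P.Ok := ⟨by rw [Pa]; exact ha, by rw [Pa]; exact ha1, by rw [Ps]; exact hsg,
    by rw [Ps]; exact hsg1, by rw [PK]; exact hK, by rw [Pl]; exact hlam.le, by rw [PR₂]; exact hR₂,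
    by rw [PR, PR₂]; exact le_max_left _ _, by rw [PC₂]; linarith,
    by rw [PC, PC₂]; exact le_max_left _ _⟩
  obtain ⟨N₁, hN₁, hop'⟩ := hop (max C₂ C₁) (2 * max R₂ Rg) (by linarith) (by linarith)
  refine ⟨P, N₁, min (lam * cV / 2) (1 / 8), hP, Pa, hN₁, lt_min (by positivity) (by norm_num),
    min_le_right _ _, fun F G hF hG hmass => ?_⟩
  obtain ⟨qq, hqd⟩ : ∃ qq : Pm, qq = ⟨a, a, 0, 0, 0, 0, max R₂ Rg, max C₂ C₁⟩ := ⟨_, rfl⟩
  have hgw : ∀ x w, gw qq F x w = gb (max R₂ Rg) (max C₂ C₁) F x w := by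
    intro x w
    rw [hqd]
    rfl
  have h2 : ∫ p, (F p.2 p.1 - gb P.R P.C₀ F p.2 p.1) * jb p.1 ^ (1 + P.a) ∂(nu d) ≤ ε₂ := by
    have h3 := hg' (max C₂ C₁) (le_max_right _ _) qq (by rw [hqd]) (by rw [hqd]) (by rw [hqd]) e F G hF hG
    simp_rw [hgw] at h3
    rw [PR, PC, Pa]
    exact h3
  have h3 := cu_jb2 hF hG
  refine ⟨fun x v => ?_, fun x v hN hhigh htch => ?_⟩
  · have h4 := EU_abs hP hF h2 hG.mass x v
    rw [Pa, Ps, PK, Pl, PR₂, ← hXd] at h4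
    linarith
  -- the touching condition
  have hF0 : ∀ u, 0 ≤ F x u := fun u => hF.nonneg x u
  have hT : Touch (4 * (δ₁ / 4)) m p (F x) v := by
    refine touch_E (E := fun u => EU P e F x u) hm0 (by positivity) (by linarith) hF0 (fun u => ?_) htch
    have h4 := hosc P hP Pa Ps e F G hF ε₂ h2 x u v
    rw [PK] at h4
    rw [← cu_mm]
    have h5 := (cu_mm01 hm0 v u).1
    have h6 : K * K' * ε₂ * mm m v u ≤ 2 * (δ₁ / 4) * mm m v u :=
      mul_le_mul_of_nonneg_right (by linarith) h5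
    exact h4.trans h6
  have e4 : 4 * (δ₁ / 4) = δ₁ := by ring
  rw [e4] at hT
  have hTS := cu_touch hδ₁ hm0 hT
  -- the bounded part
  obtain ⟨g₁, hg₁d⟩ : ∃ g₁ : Vec d → ℝ,
    g₁ = fun u : Vec d => chi (max R₂ Rg) u * bet (max C₂ C₁) (F x u) := ⟨_, rfl⟩
  have hb0 : ∀ u, 0 ≤ bet (max C₂ C₁) (F x u) := fun u => bet_nonneg hC0 (hF0 u)
  have hmb : Measurable g₁ := by
    have m1 : Measurable (bet (max C₂ C₁)) := by
      unfold bet
      exact (measurable_const.mul measurable_id).div (measurable_const.add measurable_id)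
    rw [hg₁d]
    exact (chi_cont _).measurable.mul (m1.comp hN.cont.measurable)
  have g0 : ∀ u, 0 ≤ g₁ u := fun u => by rw [hg₁d]; exact mul_nonneg (chi_nonneg _ _) (hb0 u)
  have gb' : ∀ u, g₁ u ≤ bet (max C₂ C₁) (F x u) := fun u => by
    rw [hg₁d]
    calc chi (max R₂ Rg) u * bet (max C₂ C₁) (F x u) ≤ 1 * bet (max C₂ C₁) (F x u) :=
          mul_le_mul_of_nonneg_right (chi_le_one _ _) (hb0 u)
      _ = bet (max C₂ C₁) (F x u) := one_mul _
  have gg : ∀ u, g₁ u ≤ F x u := fun u => (gb' u).trans (bet_le hC0 (hF0 u))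
  have gC : ∀ u, g₁ u ≤ max C₂ C₁ := fun u => (gb' u).trans (bet_le_C hC0 (hF0 u))
  have gR : ∀ u, 2 * max R₂ Rg < jb u → g₁ u = 0 := fun u hu => by
    rw [hg₁d]
    show chi (max R₂ Rg) u * bet (max C₂ C₁) (F x u) = 0
    rw [chi_eq_zero hR1 hu.le, zero_mul]
  have main := hop' (F x) g₁ hN hF0 hmb g0 gg gC gR v hTS hhigh
  rw [hg₁d] at main
  refine main.trans (mul_le_mul_of_nonneg_left ?_ (hF0 v))
  have f1 := cu_flux ha ha1 hsg hsg1 e (R := max R₂ Rg) hC0 hN hF0 v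
  have f2 := mul_le_mul_of_nonneg_left f1 hK₀
  have f3 := hloc lam hlam.le hlam1 (max R₂ Rg) (max C₂ C₁) (le_max_left _ _) (le_max_left _ _) (F x) hN
    hF0 v
  have f4 := (avU_le hP hF h2 h3 v).2
  rw [Pa, Ps, ← hXd] at f4
  have f5 := mul_le_mul_of_nonneg_left f4 hK
  have f6 := mul_le_mul_of_nonneg_left (hvar e F G hF hG hmass) hlam.le
  have f7 : min (lam * cV / 2) (1 / 8) ≤ lam * cV / 2 := min_le_left _ _
  rw [Ps, PK, Pl, PR, PC, PR₂, PC₂]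
  unfold gb
  have f8 : K * (4 * sg * (2 * M) + 2 * X * ε₂) = K * (4 * sg * (2 * M)) + K * (2 * X * ε₂) := by ring
  rw [f8] at f5
  have f9 : K * (∫ w, (v e - w e) * PO e a sg v w *
      (F x w - chi (max R₂ Rg) w * bet (max C₂ C₁) (F x w))) = K₀ * (4 * ∫ w, (v e - w e) * PO e a sg v w *
      (F x w - chi (max R₂ Rg) w * bet (max C₂ C₁) (F x w))) := by rw [hKd]; ring
  rw [f9, mul_sub lam]
  linarith

end Pool.Agent.H48.PV
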