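import Pool.Agent.H48.PV.WtU
import Pool.Agent.H48.PI.BetS

/-!
# Module WtH: the cut-off weights `chi PO`, `chi PE` are Hölder continuous (block F0 of P-UP)

`om = omU v w = (<w>^2/(<v>^2+<w>^2))^2`, `RR v w ^ 2 = jb v ^ 2 + jb w ^ 2`, `N(x) = min(x₊^a, x₀^a)`, `x₀ = x0 a sg ≥ 1`, `x₀^(1-a) = 1/sg`; `PO v w = om (sg V_e + N(V_e) - N(-V_e))`, `V_e = v e - w e`, `2 PE v w = om (sg |V_e| + N(V_e) + N(-V_e))`
(one of the two `N` vanishes). Elementary: `om ≤ 1`, `om RR ≤ jb w`, `om RR^2 ≤ jb w ^ 2` (`jb w ≤ RR`), `om jb v ≤ jb w`, `|V_e| ≤ jb v + jb w ≤ 2 RR`, `V_e^2 ≤ 2 RR^2`, `|N(x)-N(y)| ≤ 2 x₀^a |x-y|^m` for `0 < m ≤ a` (`|x-y| ≤ 1`: `|x-y|^a ≤ |x-y|^m`; otherwise `N ≤ x₀^a`).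
* `PO_hol` (in the second variable, times `chi R`): zero unless `jb w ≤ 2R` or `jb w' ≤ 2R`. `len (w-w') ≥ 1`: twice `PO_abs` (`chi ≠ 0`: `jb w ≤ 2R`). `len ≤ 1`: `chi_holder` (exponent `m`), `|om v w - om v w'| ≤ C len(w-w')/RR v w`, times `|V_e|,.. ≤ C RR`; `N`: `2x₀^a len^m`.
-/

set_option autoImplicit false

open MeasureTheory Set Filter Topology Pool.Agent.H25.Kin Pool.Agent.H82.BK Pool.Agent.H82.CM
open Pool.Agent.H48.PL Pool.Agent.H48.PI Pool.Agent.H48.PW Pool.Agent.H85.UP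
open Pool.Agent.H15.AV (UNice gau)

namespace Pool.Agent.H48.PV

variable {d : ℕ} {a m sg : ℝ}

private lemma wh_A (ha : 0 < a) (ha1 : a < 1) (hsg : 0 < sg) (hsg1 : sg ≤ 1) : 1 ≤ x0 a sg ^ a := by
  have h1 : 1 ≤ x0 a sg := by
    unfold x0
    apply Real.one_le_rpow_of_pos_of_le_one_of_nonpos hsg hsg1
    have : 0 < 1 / (1 - a) := div_pos one_pos (by linarith)
    linarith
  exact Real.one_le_rpow h1 ha.le

private lemma wh_Hh (hsg : 0 < sg) (hsg1 : sg ≤ 1) (hA : 1 ≤ x0 a sg ^ a) (x : ℝ) :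
    0 ≤ Hh a sg x ∧ Hh a sg x ≤ |x| + x0 a sg ^ a := by
  have h1 : 0 ≤ max x 0 := le_max_right _ _
  have h2 : max x 0 ≤ |x| := max_le (le_abs_self x) (abs_nonneg x)
  have h3 : 0 ≤ max x 0 ^ a := Real.rpow_nonneg h1 a
  unfold Hh
  constructor
  · exact add_nonneg (mul_nonneg hsg.le h1) (le_min h3 (by linarith))
  · refine add_le_add ?_ (min_le_right _ _)
    nlinarith

private lemma wh_pow {r : ℝ} (hr : 0 ≤ r) (hr1 : r ≤ 1) {b c : ℝ} (hb : 0 ≤ b) (hbc : b ≤ c) : r ^ c ≤ r ^ b :=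
  Real.rpow_le_rpow_of_exponent_ge' hr hr1 hb hbc

private lemma wh_Hh_hol (hm : 0 < m) (hma : m ≤ a) (ha1 : a < 1) (hsg : 0 < sg) (hsg1 : sg ≤ 1) {x y : ℝ}
    (hxy : |x - y| ≤ 1) : |Hh a sg x - Hh a sg y| ≤ 3 * |x - y| ^ m := by
  have h0 := abs_nonneg (x - y)
  have h1 : |max x 0 - max y 0| ≤ |x - y| := by
    refine (abs_max_sub_max_le_max x 0 y 0).trans ?_
    rw [sub_self, abs_zero, max_eq_left h0]
  have h2 : |x - y| ≤ |x - y| ^ m := by
    have := wh_pow h0 hxy hm.le (by linarith : m ≤ 1)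
    rwa [Real.rpow_one] at this
  have h3 : |x - y| ^ a ≤ |x - y| ^ m := wh_pow h0 hxy hm.le hma
  have hsp : ∀ z : ℝ, sp a (max z 0) = max z 0 ^ a := by
    intro z
    unfold sp
    rw [if_neg (not_lt.2 (le_max_right z 0))]
  have h4 : |max x 0 ^ a - max y 0 ^ a| ≤ 2 * |x - y| ^ a := by
    have := sp_holder (hm.trans_le hma) ha1.le (max x 0) (max y 0)
    rw [hsp, hsp] at this
    refine this.trans ?_
    have := Real.rpow_le_rpow (abs_nonneg _) h1 (hm.trans_le hma).le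
    linarith
  have h5 : |min (max x 0 ^ a) (x0 a sg ^ a) - min (max y 0 ^ a) (x0 a sg ^ a)| ≤ 2 * |x - y| ^ a := by
    refine (abs_min_sub_min_le_max _ _ _ _).trans ?_
    rw [sub_self, abs_zero, max_eq_left (abs_nonneg _)]
    exact h4
  have h6 : |sg * max x 0 - sg * max y 0| ≤ |x - y| := by
    rw [← mul_sub, abs_mul, abs_of_pos hsg]
    nlinarith [abs_nonneg (max x 0 - max y 0)]
  unfold Hh
  have h7 : sg * max x 0 + min (max x 0 ^ a) (x0 a sg ^ a) - (sg * max y 0 + min (max y 0 ^ a) (x0 a sg ^ a)) =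
      (sg * max x 0 - sg * max y 0) + (min (max x 0 ^ a) (x0 a sg ^ a) - min (max y 0 ^ a) (x0 a sg ^ a)) := by
    ring
  rw [h7]
  refine (abs_add_le _ _).trans ?_
  linarith

private lemma wh_om (v w : Vec d) : 0 ≤ omU v w ∧ omU v w ≤ 1 ∧ omU v w * RR v w ≤ jb w := by
  have hR := RR_pos v w
  have hw := jb_pos w
  have hle := jb_le_RR_right v w
  set t := jb w / RR v w with ht
  have ht0 : 0 ≤ t := div_nonneg hw.le hR.le
  have ht1 : t ≤ 1 := (div_le_one hR).2 hle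
  have e1 : omU v w = t ^ 4 := by
    unfold omU
    rw [ht, div_pow, div_pow]
    ring
  have e2 : t * RR v w = jb w := div_mul_cancel₀ _ hR.ne'
  rw [e1]
  refine ⟨by positivity, pow_le_one₀ ht0 ht1, ?_⟩
  have e3 : t ^ 4 * RR v w = t ^ 3 * jb w := by rw [← e2]; ring
  rw [e3]
  exact mul_le_of_le_one_left hw.le (pow_le_one₀ ht0 ht1)

private lemma wh_om_lip (v w w' : Vec d) : |omU v w - omU v w'| * RR v w ≤ 4 * len (w - w') := by
  have hB := jb_pos v
  have hJ := jb_pos w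
  have hJ' := jb_pos w'
  have hR := RR_pos v w
  have hR2 := RR_sq v w
  have hR2' := RR_sq v w'
  have hlip := jb_lip w w'
  have hJR := jb_le_RR_right v w
  have hBR := jb_le_RR_left v w
  unfold omU
  rw [hR2, hR2']
  generalize jb v = B at *
  generalize jb w = J at *
  generalize jb w' = J' at *
  generalize RR v w = ρ at *
  generalize len (w - w') = L at *
  have hp : 0 < B ^ 2 + J ^ 2 := by positivity
  have hp' : 0 < B ^ 2 + J' ^ 2 := by positivity
  set q := J ^ 2 / (B ^ 2 + J ^ 2) with hq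
  set q' := J' ^ 2 / (B ^ 2 + J' ^ 2) with hq'
  have q0 : 0 ≤ q := by positivity
  have q0' : 0 ≤ q' := by positivity
  have q1 : q ≤ 1 := (div_le_one hp).2 (by nlinarith)
  have q1' : q' ≤ 1 := (div_le_one hp').2 (by nlinarith)
  have e1 : q - q' = B ^ 2 * (J - J') * (J + J') / ((B ^ 2 + J ^ 2) * (B ^ 2 + J' ^ 2)) := by
    rw [hq, hq']
    field_simp
    ring
  have e2 : |q - q'| * ρ ≤ 2 * |J - J'| := by
    rw [e1, abs_div, abs_of_pos (mul_pos hp hp'), abs_mul, abs_mul, abs_of_pos (by positivity : 0 < B ^ 2),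
      abs_of_pos (by positivity : 0 < J + J'), div_mul_eq_mul_div, div_le_iff₀ (mul_pos hp hp')]
    have k0 := abs_nonneg (J - J')
    have k1 : B ^ 2 * J * ρ ≤ (B ^ 2 + J ^ 2) * (B ^ 2 + J' ^ 2) := by
      have : J * ρ ≤ B ^ 2 + J ^ 2 := by nlinarith
      have h2 : B ^ 2 ≤ B ^ 2 + J' ^ 2 := by nlinarith
      calc B ^ 2 * J * ρ = (J * ρ) * B ^ 2 := by ring
        _ ≤ (B ^ 2 + J ^ 2) * (B ^ 2 + J' ^ 2) := mul_le_mul this h2 (by positivity) hp.le
    have k2 : B ^ 2 * J' * ρ ≤ (B ^ 2 + J ^ 2) * (B ^ 2 + J' ^ 2) := by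
      have : B * ρ ≤ B ^ 2 + J ^ 2 := by nlinarith
      have h2 : B * J' ≤ B ^ 2 + J' ^ 2 := by nlinarith [sq_nonneg (B - J')]
      calc B ^ 2 * J' * ρ = (B * ρ) * (B * J') := by ring
        _ ≤ (B ^ 2 + J ^ 2) * (B ^ 2 + J' ^ 2) := mul_le_mul this h2 (by positivity) hp.le
    calc B ^ 2 * |J - J'| * (J + J') * ρ = |J - J'| * (B ^ 2 * J * ρ + B ^ 2 * J' * ρ) := by ring
      _ ≤ |J - J'| * (2 * ((B ^ 2 + J ^ 2) * (B ^ 2 + J' ^ 2))) :=
          mul_le_mul_of_nonneg_left (by linarith) k0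
      _ = 2 * |J - J'| * ((B ^ 2 + J ^ 2) * (B ^ 2 + J' ^ 2)) := by ring
  have e3 : |q ^ 2 - q' ^ 2| ≤ 2 * |q - q'| := by
    have : q ^ 2 - q' ^ 2 = (q - q') * (q + q') := by ring
    rw [this, abs_mul, abs_of_nonneg (by linarith : 0 ≤ q + q')]
    nlinarith [abs_nonneg (q - q')]
  calc |q ^ 2 - q' ^ 2| * ρ ≤ 2 * |q - q'| * ρ := mul_le_mul_of_nonneg_right e3 hR.le
    _ = 2 * (|q - q'| * ρ) := by ring
    _ ≤ 4 * L := by linarith

private lemma wh_gen {G : ℝ → ℝ} {A : ℝ} (hA : 0 ≤ A) (hm : 0 < m) (hm1 : m ≤ 1)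
    (hG : ∀ x, |G x| ≤ 2 * (|x| + A)) (hG' : ∀ x y, |x - y| ≤ 1 → |G x - G y| ≤ 6 * |x - y| ^ m)
    {R : ℝ} (hR : 1 ≤ R) (e : Fin d) (v w w' : Vec d) :
    |chi R w * (omU v w * G (v e - w e))| ≤ 8 * (2 * R + 1) + 20 * A + 22 ∧
    |chi R w * (omU v w * G (v e - w e)) - chi R w' * (omU v w' * G (v e - w' e))| ≤
      2 * (8 * (2 * R + 1) + 20 * A + 22) * len (w - w') ^ m := by
  have hx : ∀ u : Vec d, |v e - u e| ≤ 2 * RR v u := by
    intro u
    have h1 := abs_coord_le (v - u) e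
    rw [Pi.sub_apply] at h1
    exact h1.trans (len_le_RR v u)
  have hom : ∀ u : Vec d, |omU v u * G (v e - u e)| ≤ 4 * jb u + 2 * A := by
    intro u
    obtain ⟨o0, o1, o2⟩ := wh_om v u
    rw [abs_mul, abs_of_nonneg o0]
    calc omU v u * |G (v e - u e)| ≤ omU v u * (2 * (2 * RR v u + A)) := by
          refine mul_le_mul_of_nonneg_left ((hG _).trans ?_) o0
          linarith [hx u]
      _ = 4 * (omU v u * RR v u) + 2 * (omU v u * A) := by ring
      _ ≤ 4 * jb u + 2 * A := by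
          have := mul_le_of_le_one_left hA o1
          linarith
  have hbd : ∀ u : Vec d, |chi R u * (omU v u * G (v e - u e))| ≤ 8 * R + 2 * A := by
    intro u
    rcases le_or_gt (2 * R) (jb u) with h | h
    · rw [chi_eq_zero hR h, zero_mul, abs_zero]
      linarith
    · rw [abs_mul, abs_of_nonneg (chi_nonneg R u)]
      refine (mul_le_of_le_one_left (abs_nonneg _) (chi_le_one R u)).trans ((hom u).trans ?_)
      linarith
  have hL := len_nonneg (w - w')
  refine ⟨(hbd w).trans (by linarith), ?_⟩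
  rcases le_or_gt 1 (len (w - w')) with h1 | h1
  · have h2 : 1 ≤ len (w - w') ^ m := Real.one_le_rpow h1 hm.le
    have h3 := abs_sub (chi R w * (omU v w * G (v e - w e))) (chi R w' * (omU v w' * G (v e - w' e)))
    have h4 := hbd w
    have h5 := hbd w'
    calc |chi R w * (omU v w * G (v e - w e)) - chi R w' * (omU v w' * G (v e - w' e))|
        ≤ 2 * (8 * (2 * R + 1) + 20 * A + 22) * 1 := by linarith
      _ ≤ _ := mul_le_mul_of_nonneg_left h2 (by linarith)
  have hLm : len (w - w') ≤ len (w - w') ^ m := by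
    have := wh_pow hL h1.le hm.le hm1
    rwa [Real.rpow_one] at this
  have hLm0 : 0 ≤ len (w - w') ^ m := hL.trans hLm
  have hjl := abs_le.1 (jb_lip w w')
  by_cases hz : 2 * R ≤ jb w ∧ 2 * R ≤ jb w'
  · rw [chi_eq_zero hR hz.1, chi_eq_zero hR hz.2, zero_mul, zero_mul, sub_zero, abs_zero]
    exact mul_nonneg (by linarith) hLm0
  have hw : jb w ≤ 2 * R + 1 := by
    by_contra hc
    push Not at hc
    exact hz ⟨by linarith, by linarith [hjl.2]⟩
  -- the three differences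
  obtain ⟨o0, o1, o2⟩ := wh_om v w'
  have t1 : |(chi R w - chi R w') * (omU v w * G (v e - w e))| ≤ (4 * (2 * R + 1) + 2 * A) * len (w - w') ^ m := by
    rw [abs_mul, mul_comm]
    exact mul_le_mul ((hom w).trans (by linarith)) (chi_holder hR hm hm1 w w') (abs_nonneg _) (by linarith)
  have t2 : |chi R w' * ((omU v w - omU v w') * G (v e - w e))| ≤ (16 + 8 * A) * len (w - w') ^ m := by
    rw [abs_mul, abs_of_nonneg (chi_nonneg R w')]
    refine (mul_le_of_le_one_left (abs_nonneg _) (chi_le_one R w')).trans ?_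
    rw [abs_mul]
    have k1 := wh_om_lip v w w'
    have k2 := one_le_RR v w
    have k3 := abs_nonneg (omU v w - omU v w')
    have k4 : |G (v e - w e)| ≤ (4 + 2 * A) * RR v w := by
      refine (hG _).trans ?_
      have := hx w
      nlinarith
    calc |omU v w - omU v w'| * |G (v e - w e)| ≤ |omU v w - omU v w'| * ((4 + 2 * A) * RR v w) :=
          mul_le_mul_of_nonneg_left k4 k3
      _ = (4 + 2 * A) * (|omU v w - omU v w'| * RR v w) := by ring
      _ ≤ (4 + 2 * A) * (4 * len (w - w')) := mul_le_mul_of_nonneg_left k1 (by linarith)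
      _ = (16 + 8 * A) * len (w - w') := by ring
      _ ≤ (16 + 8 * A) * len (w - w') ^ m := mul_le_mul_of_nonneg_left hLm (by linarith)
  have t3 : |chi R w' * (omU v w' * (G (v e - w e) - G (v e - w' e)))| ≤ 6 * len (w - w') ^ m := by
    rw [abs_mul, abs_of_nonneg (chi_nonneg R w')]
    refine (mul_le_of_le_one_left (abs_nonneg _) (chi_le_one R w')).trans ?_
    rw [abs_mul, abs_of_nonneg o0]
    refine (mul_le_of_le_one_left (abs_nonneg _) o1).trans ?_
    have k1 : |(v e - w e) - (v e - w' e)| ≤ len (w - w') := by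
      have h2 := abs_coord_le (w - w') e
      rw [Pi.sub_apply] at h2
      have h3 : (v e - w e) - (v e - w' e) = -(w e - w' e) := by ring
      rw [h3, abs_neg]
      exact h2
    refine (hG' _ _ (k1.trans h1.le)).trans ?_
    have := Real.rpow_le_rpow (abs_nonneg _) k1 hm.le
    linarith
  have hd : chi R w * (omU v w * G (v e - w e)) - chi R w' * (omU v w' * G (v e - w' e)) =
      (chi R w - chi R w') * (omU v w * G (v e - w e)) +
        chi R w' * ((omU v w - omU v w') * G (v e - w e)) +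
        chi R w' * (omU v w' * (G (v e - w e) - G (v e - w' e))) := by ring
  rw [hd]
  have s1 := abs_add_le ((chi R w - chi R w') * (omU v w * G (v e - w e)) +
        chi R w' * ((omU v w - omU v w') * G (v e - w e)))
        (chi R w' * (omU v w' * (G (v e - w e) - G (v e - w' e))))
  have s2 := abs_add_le ((chi R w - chi R w') * (omU v w * G (v e - w e)))
        (chi R w' * ((omU v w - omU v w') * G (v e - w e)))
  have s3 : (4 * (2 * R + 1) + 2 * A) * len (w - w') ^ m + (16 + 8 * A) * len (w - w') ^ m +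
      6 * len (w - w') ^ m ≤ 2 * (8 * (2 * R + 1) + 20 * A + 22) * len (w - w') ^ m := by
    rw [← add_mul, ← add_mul]
    refine mul_le_mul_of_nonneg_right ?_ hLm0
    linarith
  linarith

theorem PO_hol (hm : 0 < m) (hma : m ≤ a) (ha1 : a < 1) (hsg : 0 < sg) (hsg1 : sg ≤ 1) {R : ℝ} (hR : 1 ≤ R) :
    ∃ K : ℝ, 0 ≤ K ∧ ∀ (e : Fin d) (v w w' : Vec d),
      |chi R w * PO e a sg v w| ≤ K ∧ |chi R w * PE e a sg v w| ≤ K ∧
      |chi R w * PO e a sg v w - chi R w' * PO e a sg v w'| ≤ K * len (w - w') ^ m ∧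
      |chi R w * PE e a sg v w - chi R w' * PE e a sg v w'| ≤ K * len (w - w') ^ m := by
  have ha : 0 < a := hm.trans_le hma
  have hA := wh_A ha ha1 hsg hsg1
  have hm1 : m ≤ 1 := by linarith
  have hK : 0 ≤ 8 * (2 * R + 1) + 20 * x0 a sg ^ a + 22 := by linarith
  refine ⟨2 * (8 * (2 * R + 1) + 20 * x0 a sg ^ a + 22), by linarith, fun e v w w' => ?_⟩
  have hH := fun x => wh_Hh (a := a) hsg hsg1 hA x
  have hn : ∀ x y : ℝ, |(-x) - (-y)| = |x - y| := by
    intro x y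
    rw [← abs_neg (x - y)]
    congr 1
    ring
  have hhol : ∀ x y : ℝ, |x - y| ≤ 1 → |Hh a sg x - Hh a sg y| ≤ 3 * |x - y| ^ m ∧
      |Hh a sg (-x) - Hh a sg (-y)| ≤ 3 * |x - y| ^ m := by
    intro x y hxy
    refine ⟨wh_Hh_hol hm hma ha1 hsg hsg1 hxy, ?_⟩
    have := wh_Hh_hol (x := -x) (y := -y) hm hma ha1 hsg hsg1 (by rw [hn]; exact hxy)
    rwa [hn] at this
  have eO : ∀ u : Vec d, PO e a sg v u =
      omU v u * (fun x => Hh a sg x - Hh a sg (-x)) (v e - u e) := by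
    intro u
    have h1 : u e - v e = -(v e - u e) := by ring
    simp only [PO, Pool.Agent.H85.UP.PP, PM]
    rw [h1]
    ring
  have eE : ∀ u : Vec d, PE e a sg v u =
      omU v u * (fun x => (Hh a sg x + Hh a sg (-x)) / 2) (v e - u e) := by
    intro u
    have h1 : u e - v e = -(v e - u e) := by ring
    simp only [PE, Pool.Agent.H85.UP.PP, PM]
    rw [h1]
    ring
  obtain ⟨a1, a2⟩ := wh_gen (G := fun x => Hh a sg x - Hh a sg (-x)) (A := x0 a sg ^ a) (by linarith) hm hm1 (fun x => by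
      obtain ⟨p1, p2⟩ := hH x
      obtain ⟨p3, p4⟩ := hH (-x)
      rw [abs_neg] at p4
      have := abs_nonneg x
      show |Hh a sg x - Hh a sg (-x)| ≤ _
      rw [abs_le]
      constructor <;> linarith) (fun x y hxy => by
      obtain ⟨p1, p2⟩ := hhol x y hxy
      show |(Hh a sg x - Hh a sg (-x)) - (Hh a sg y - Hh a sg (-y))| ≤ _
      rw [abs_le] at p1 p2 ⊢
      constructor <;> linarith [p1.1, p1.2, p2.1, p2.2]) hR e v w w'
  obtain ⟨b1, b2⟩ := wh_gen (G := fun x => (Hh a sg x + Hh a sg (-x)) / 2) (A := x0 a sg ^ a) (by linarith) hm hm1 (fun x => by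
      obtain ⟨p1, p2⟩ := hH x
      obtain ⟨p3, p4⟩ := hH (-x)
      rw [abs_neg] at p4
      have := abs_nonneg x
      show |(Hh a sg x + Hh a sg (-x)) / 2| ≤ _
      rw [abs_le]
      constructor <;> linarith) (fun x y hxy => by
      obtain ⟨p1, p2⟩ := hhol x y hxy
      have hnn : 0 ≤ |x - y| ^ m := Real.rpow_nonneg (abs_nonneg _) _
      show |(Hh a sg x + Hh a sg (-x)) / 2 - (Hh a sg y + Hh a sg (-y)) / 2| ≤ _
      rw [abs_le] at p1 p2 ⊢
      constructor <;> linarith [p1.1, p1.2, p2.1, p2.2]) hR e v w w'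
  rw [← eO w] at a1
  rw [← eO w, ← eO w'] at a2
  rw [← eE w] at b1
  rw [← eE w, ← eE w'] at b2
  exact ⟨a1.trans (by linarith), b1.trans (by linarith), a2, b2⟩

end Pool.Agent.H48.PV
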