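import Pool.Agent.H48.PV.DerA
import Pool.Agent.H48.PV.DerB
import Pool.Agent.H48.PV.NU
import Pool.Agent.H48.PV.WtH
import Pool.Agent.H48.PI.ErrI

/-!
# Module ErrU: lower bound for the derivative of the weight

Compare PI/ErrI.lean (same structure; private lemmas `errI_dn_pl`, `errI_lin`: copy). `ErrOne`: conclusion of `err_one` for fixed `θ, η`. Fix `t ∈ [t₀,t₁]`, `v`; `sol_unice` gives `Cl`; `fs_of`, `bet_fs` (for `C₀` and `C₂`) give the slices.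
* `K_F` from `ErrOne` (`sg`), `K_F'(R₁)`; `μ₁ x = K_F'/ε Dn + ε K_F' XT 1 + K_F (R₁^(-ι) ZS univ + XT R₁) + η'` (`Dn_cont`, `XT_pl`, `Zu_pl`): hypothesis `h1` of `EA_der` (integrand in the other order: `mul_comm`).
* `err_ren2` (constant `K'`) with `ψ = chi_R PO v ·`, `chi_R PE v ·`, `A = A_P` from `PO_hol`: `μ₂ x = 2 A_P ((1/ε+K') Dn + ε K' XT 1) + 2 η'`. With `ψ = W1 e R₂ v ·`, `W0 R₂ v ·`, `A = A_D` (`|chi w_e| ≤ 2R₂`, `chi_holder`, exponent `m ≤ 1`, private lemma): `μ₃` the same with `A_D`, `C₂`.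
* `EA_der` + `lam ED_der` (`∫ f dν ≤ M` at time `t`: `glob_bounds`). `K₁ = K K_F`; `Cy = K K_F' + 2 K A_P K' + 8 lam R₂ M A_D K'`, `Cε = K K_F'/ε + (2 K A_P + 8 lam R₂ M A_D)(1/ε + K')`, `η' = η/(K (1 + 2) + 8 lam R₂ M + 1)`.
-/

set_option autoImplicit false

open MeasureTheory Set Filter Topology Pool.Agent.H25.Kin Pool.Agent.H82.BK Pool.Agent.H82.CM
open Pool.Agent.H48.PL Pool.Agent.H48.PI Pool.Agent.H48.PW Pool.Agent.H85.UP
open Pool.Agent.H15.AV (UNice gau)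

namespace Pool.Agent.H48.PV

variable {d : ℕ} {s a m q θ η C Ca cb : ℝ} {b : ℝ → ℝ}

/-- the conclusion of `err_one` -/
def ErrOne (d : ℕ) (a m q θ η : ℝ) (b : ℝ → ℝ) (e : Fin d) : Prop := ∀ sg : ℝ, 0 < sg → sg ≤ 1 →
    ∃ K : ℝ, 0 ≤ K ∧ ∀ R₁ : ℝ, 4 ≤ R₁ → ∃ K₁ : ℝ, 0 ≤ K₁ ∧ ∀ ε : ℝ, 0 < ε → ε ≤ 1 →
      ∀ (Cl : ℕ → ℝ), ∀ η' > 0, ∃ δ₀ > 0, ∀ δ ∈ Ioc (0 : ℝ) δ₀, ∀ g : Vec d → ℝ, UNice Cl g →
      ∀ v : Vec d, ∀ z : ℝ, |z| ≤ 1 / 2 →
      -(K₁ / ε * Dn (1 + a) b δ g + ε * K₁ * XT a m 1 g +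
        K * (R₁ ^ (-(min (q - 1) (1 - a))) * ZS e θ η a q g univ + XT a m R₁ g) + η') ≤
        ∫ w, boltzQ (1 + a) b g w * (z * PO e a sg v w + PE e a sg v w)

private lemma erru_dn_pl (HL : HypL d (1 + a) s b C Ca cb) {T : ℝ} {f : ℝ → Vec d → Vec d → ℝ}
    (hf : IsBoltzmannSol (1 + a) b T f) {e : Fin d} (hpl : Planar e T f) {δ : ℝ} (hδ : 0 < δ) {t : ℝ}
    (ht : t ∈ Ioo 0 T) : PlF e (fun y => Dn (1 + a) b δ (f t y)) := by
  have ht' : t ∈ Ico 0 T := ⟨ht.1.le, ht.2⟩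
  refine ⟨?_, fun x i => ?_, fun x y h => ?_⟩
  · have h1 : Continuous fun y : Vec d => (t, y) := by fun_prop
    have h2 := (Dn_cont HL hf hδ).1
    have h3 := h2.comp_continuous h1 fun y => Set.mk_mem_prod ht (mem_univ y)
    exact h3
  · have h1 : f t (x + Pi.single i 1) = f t x := by
      funext v
      exact hf.periodic t ht' x v i
    show Dn (1 + a) b δ (f t (x + Pi.single i 1)) = Dn (1 + a) b δ (f t x)
    rw [h1]
  · have h1 : f t x = f t y := by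
      funext v
      exact hpl t ht' x y v h
    show Dn (1 + a) b δ (f t x) = Dn (1 + a) b δ (f t y)
    rw [h1]

private lemma erru_slice {Φ : Vec d → Vec d → ℝ} (h : PGW Φ) (R : ℝ) (v : Vec d) :
    Measurable fun w : Vec d => chi R w * Φ v w := by
  have h1 : Continuous fun w : Vec d => ((v, w) : Vec d × Vec d) := by fun_prop
  exact ((chi_cont R).mul (h.cont.comp h1)).measurable

private lemma erru_const (e : Fin d) (c : ℝ) : PlF e (fun _ : Vec d => c) ∧ ∫ _, c ∂(muD d) = c := by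
  refine ⟨⟨continuous_const, fun _ _ => rfl, fun _ _ _ => rfl⟩, ?_⟩
  rw [integral_const]
  have h1 : (muD d).real univ = 1 := by
    rw [Measure.real, muD_univ]
    rfl
  rw [h1, one_smul]

private lemma erru_add {e : Fin d} {A B : Vec d → ℝ} (hA : PlF e A) (hB : PlF e B) (c : ℝ) :
    PlF e (fun y => c * A y + B y) ∧
      ∫ y, (c * A y + B y) ∂(muD d) = c * (∫ y, A y ∂(muD d)) + ∫ y, B y ∂(muD d) := by
  refine ⟨⟨(continuous_const.mul hA.cont).add hB.cont, fun x i => ?_, fun x y h => ?_⟩, ?_⟩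
  · simp only [hA.per, hB.per]
  · simp only [hA.pl x y h, hB.pl x y h]
  · rw [integral_add ((pl_int hA).const_mul c) (pl_int hB), integral_const_mul]

private lemma erru_chiw {R : ℝ} (hR : 1 ≤ R) (e : Fin d) (w : Vec d) : |chi R w * w e| ≤ 2 * R := by
  have c0 := chi_nonneg R w
  have c1 := chi_le_one R w
  rcases le_or_gt (2 * R) (jb w) with h | h
  · rw [chi_eq_zero hR h, zero_mul, abs_zero]
    linarith
  · have h1 := abs_coord_le w e
    have h2 := len_le_jb w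
    have h3 := abs_nonneg (w e)
    rw [abs_mul, abs_of_nonneg c0]
    nlinarith

private lemma erru_chih {R : ℝ} (hR : 1 ≤ R) (hm : 0 < m) (hm1 : m ≤ 1) (e : Fin d) (w w' : Vec d) :
    |chi R w * w e - chi R w' * w' e| ≤ (4 * R + 1) * len (w - w') ^ m := by
  have key : ∀ w w' : Vec d, jb w < 2 * R →
      |chi R w * w e - chi R w' * w' e| ≤ (4 * R + 1) * len (w - w') ^ m := by
    intro w w' hw
    have hl := len_nonneg (w - w')
    rcases le_or_gt 1 (len (w - w')) with h | h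
    · have h1 := erru_chiw hR e w
      have h2 := erru_chiw hR e w'
      have h3 : 1 ≤ len (w - w') ^ m := Real.one_le_rpow h hm.le
      have h4 := abs_sub (chi R w * w e) (chi R w' * w' e)
      nlinarith
    · have h1 := chi_holder hR hm hm1 w w'
      have h2 := abs_coord_le w e
      have h3 := len_le_jb w
      have h4 := abs_coord_le (w - w') e
      have h5 : len (w - w') ≤ len (w - w') ^ m := by
        rcases hl.eq_or_lt with h0 | h0
        · rw [← h0, Real.zero_rpow hm.ne']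
        · calc len (w - w') = len (w - w') ^ (1 : ℝ) := (Real.rpow_one _).symm
            _ ≤ len (w - w') ^ m := Real.rpow_le_rpow_of_exponent_ge h0 h.le hm1
      have c0 := chi_nonneg R w'
      have c1 := chi_le_one R w'
      have hp : 0 ≤ len (w - w') ^ m := Real.rpow_nonneg hl m
      have e1 : chi R w * w e - chi R w' * w' e =
          (chi R w - chi R w') * w e + chi R w' * (w e - w' e) := by ring
      have e2 : (w - w') e = w e - w' e := rfl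
      rw [e2] at h4
      have h6 : |(chi R w - chi R w') * w e| ≤ len (w - w') ^ m * (2 * R) := by
        rw [abs_mul]
        exact mul_le_mul h1 (by linarith) (abs_nonneg _) hp
      have h7 : |chi R w' * (w e - w' e)| ≤ len (w - w') ^ m := by
        rw [abs_mul, abs_of_nonneg c0]
        have := abs_nonneg (w e - w' e)
        nlinarith
      rw [e1]
      have h8 := abs_add_le ((chi R w - chi R w') * w e) (chi R w' * (w e - w' e))
      nlinarith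
  rcases lt_or_ge (jb w) (2 * R) with h | h
  · exact key w w' h
  · rcases lt_or_ge (jb w') (2 * R) with h' | h'
    · have h1 := key w' w h'
      have h2 : len (w' - w) = len (w - w') := by
        rw [← neg_sub w w']
        exact len_neg _
      rw [h2, abs_sub_comm] at h1
      exact h1
    · rw [chi_eq_zero hR h, chi_eq_zero hR h', zero_mul, zero_mul, sub_zero, abs_zero]
      have := Real.rpow_nonneg (len_nonneg (w - w')) m
      positivity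

private lemma erru_n1 {R x : ℝ} (hR : 1 ≤ R) (hx : 0 ≤ x) : x ≤ (4 * R + 1) * x := by
  have h1 : 0 ≤ R * x := mul_nonneg (by linarith) hx
  linarith

private lemma erru_n2 {A x : ℝ} (hx : 0 ≤ x) : A * x ≤ (A + 1) * x := by
  rw [add_one_mul]
  linarith

theorem dEU_low (HL : HypL d (1 + a) s b C Ca cb) (U : UE s a m q) (e : Fin d)
    (hE : ErrOne d a m q θ η b e) {K sg : ℝ} (hK : 0 ≤ K) (hsg : 0 < sg) (hsg1 : sg ≤ 1) :
    ∃ K₁ : ℝ, 0 ≤ K₁ ∧ ∀ P : Pv, P.Ok → P.a = a → P.sg = sg → P.K = K → ∀ M : ℝ, 0 ≤ M →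
    ∀ R₁ : ℝ, 4 ≤ R₁ → ∃ Cy : ℝ, 0 ≤ Cy ∧ ∀ ε : ℝ, 0 < ε → ε ≤ 1 → ∃ Cε : ℝ, 0 ≤ Cε ∧
    ∀ (T : ℝ) (f : ℝ → Vec d → Vec d → ℝ), IsBoltzmannSol (1 + a) b T f → Planar e T f → GB M (f 0) →
      ∀ t₀ t₁ : ℝ, 0 < t₀ → t₀ ≤ t₁ → t₁ < T → ∀ ηe > 0, ∃ δ₀ > 0, ∀ δ ∈ Ioc (0 : ℝ) δ₀,
      ∀ t ∈ Icc t₀ t₁, ∀ x v : Vec d,
      K * (∫ w, (v e - w e) * PO e a sg v w * (f t x w - gb P.R P.C₀ (f t) x w)) - K * avU P e (f t) v +
        P.lam * (VarU P.R₂ P.C₂ e (f t) - 4 * P.R₂ * M * ∫ w, len (v - w) * gb P.R₂ P.C₂ (f t) x w) -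
        (Cε * (∫ y, Dn (1 + a) b δ (f t y) ∂(muD d)) + (ε * Cy * Zw a m f t 1 +
          K₁ * (R₁ ^ (-(min (q - 1) (1 - a))) * Zu e θ η a q f t + Zw a m f t R₁)) + ηe) ≤
        dEU P e (f t) (fun y => boltzQ (1 + a) b (f t y)) x v := by
  have hs := U.hs
  have h2a := U.has
  have ha : 0 < a := by linarith
  have hm : 0 < m := by linarith [U.hm]
  have ha1 : a < 1 := by linarith [U.ha1]
  have hm1 : m ≤ 1 := by linarith [U.hma]
  obtain ⟨KF, hKF, hF⟩ := hE sg hsg hsg1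
  obtain ⟨K', hK', hRen⟩ := err_ren2 HL U
  refine ⟨K * KF, by positivity, fun P hP hPa hPs hPK M hM R₁ hR₁ => ?_⟩
  subst hPa hPs hPK
  obtain ⟨KG, hKG, hG⟩ := hF R₁ hR₁
  have hR : 1 ≤ P.R := hP.hR₂.trans hP.hR
  have hR₂ := hP.hR₂
  have hR₂0 : 0 < P.R₂ := by linarith
  have hlam := hP.hlam
  have hC₂ := hP.hC₂
  have hC₀ : 0 < P.C₀ := hC₂.trans_le hP.hC
  have hR₁0 : 0 < R₁ := by linarith
  obtain ⟨AP, hAP, hPO⟩ := PO_hol (d := d) hm U.hma ha1 hsg hsg1 hR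
  set AD : ℝ := 4 * P.R₂ + 1 with hAD
  have hAD0 : 0 ≤ AD := by positivity
  refine ⟨P.K * KG + 2 * P.K * AP * K' + 8 * P.lam * P.R₂ * M * AD * K', by positivity,
    fun ε hε hε1 => ?_⟩
  have hεi : 0 ≤ 1 / ε := by positivity
  refine ⟨P.K * (KG / ε) + (2 * P.K * AP + 8 * P.lam * P.R₂ * M * AD) * (1 / ε + K'), by positivity, ?_⟩
  intro T f hf hpl hGB t₀ t₁ ht₀ ht₀₁ ht₁ ηe hηe
  obtain ⟨Cl, hCl⟩ := Pool.Agent.H15.AV.sol_unice hf ht₀ ht₁
  set D : ℝ := 3 * P.K + 8 * P.lam * P.R₂ * M + 1 with hD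
  have hD0 : 0 < D := by positivity
  set η₁ : ℝ := ηe / D with hη₁def
  have hη₁ : 0 < η₁ := div_pos hηe hD0
  have hηD : D * η₁ = ηe := by
    rw [hη₁def]
    field_simp
  obtain ⟨δ₁, hδ₁, H1⟩ := hG ε hε hε1 Cl η₁ hη₁
  obtain ⟨δ₂, hδ₂, H2⟩ := hRen ε hε hε1 AP P.C₀ Cl hC₀ η₁ hη₁
  obtain ⟨δ₃, hδ₃, H3⟩ := hRen ε hε hε1 AD P.C₂ Cl hC₂ η₁ hη₁
  refine ⟨min δ₁ (min δ₂ δ₃), lt_min hδ₁ (lt_min hδ₂ hδ₃), fun δ hδ t ht x v => ?_⟩
  have hδ1 : δ ∈ Ioc (0 : ℝ) δ₁ := ⟨hδ.1, hδ.2.trans (min_le_left _ _)⟩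
  have hδ2 : δ ∈ Ioc (0 : ℝ) δ₂ := ⟨hδ.1, hδ.2.trans ((min_le_right _ _).trans (min_le_left _ _))⟩
  have hδ3 : δ ∈ Ioc (0 : ℝ) δ₃ := ⟨hδ.1, hδ.2.trans ((min_le_right _ _).trans (min_le_right _ _))⟩
  have htt : t ∈ Ioo 0 T := ⟨ht₀.trans_le ht.1, ht.2.trans_lt ht₁⟩
  have htt' : t ∈ Ico 0 T := ⟨htt.1.le, htt.2⟩
  have hfs := fs_of hf hpl htt
  have hbs := bet_fs hC₀ hf hpl htt hfs
  have hbs2 := bet_fs hC₂ hf hpl htt hfs
  have hDn := erru_dn_pl HL hf hpl hδ.1 htt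
  have hX1 := XT_pl ha.le ha1.le hm.le hm1 hf hpl htt' one_pos
  have hXR := XT_pl ha.le ha1.le hm.le hm1 hf hpl htt' hR₁0
  have hZ := Zu_pl hf hpl θ η ha U.hq U.hq2 htt'
  -- the three majorants
  obtain ⟨hc1, hi1⟩ := erru_const e η₁
  obtain ⟨hc2, hi2⟩ := erru_add hXR hc1 KF
  obtain ⟨hc3, hi3⟩ := erru_add hZ hc2 (KF * R₁ ^ (-(min (q - 1) (1 - P.a))))
  obtain ⟨hc4, hi4⟩ := erru_add hX1 hc3 (ε * KG)
  obtain ⟨hc5, hi5⟩ := erru_add hDn hc4 (KG / ε)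
  obtain ⟨hd1, hj1⟩ := erru_const e (2 * η₁)
  obtain ⟨hd2, hj2⟩ := erru_add hX1 hd1 (2 * AP * (ε * K'))
  obtain ⟨hd3, hj3⟩ := erru_add hDn hd2 (2 * AP * (1 / ε + K'))
  obtain ⟨he2, hk2⟩ := erru_add hX1 hd1 (2 * AD * (ε * K'))
  obtain ⟨he3, hk3⟩ := erru_add hDn he2 (2 * AD * (1 / ε + K'))
  rw [hi4, hi3, hi2, hi1] at hi5
  rw [hj2, hj1] at hj3
  rw [hk2, hj1] at hk3
  have hPOm : Measurable fun w : Vec d => chi P.R w * PO e P.a P.sg v w :=
    erru_slice (PO_PGW hP.ha hP.ha1 hsg hsg1 e) P.R v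
  have hPEm : Measurable fun w : Vec d => chi P.R w * PE e P.a P.sg v w :=
    erru_slice (PE_PGW hP.ha hP.ha1 hsg hsg1 e) P.R v
  have hcomm : ∀ (ψ G : Vec d → ℝ), ∫ w, ψ w * G w = ∫ w, G w * ψ w := fun ψ G =>
    integral_congr_ae (Eventually.of_forall fun w => mul_comm _ _)
  have main1 := EA_der hP hfs hbs hc5 hd3 v (by
    intro y z hz
    have h1 := H1 δ hδ1 (f t y) (hCl t ht y) v z hz
    rw [hcomm (fun w => z * PO e P.a P.sg v w + PE e P.a P.sg v w) (boltzQ (1 + P.a) b (f t y))]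
    refine le_trans (le_of_eq ?_) h1
    ring) (by
    intro y
    have hu := hCl t ht y
    have h1 := H2 δ hδ2 (f t y) hu AP hAP le_rfl (fun w => chi P.R w * PO e P.a P.sg v w) hPOm
      (fun w => (hPO e v w w).1) (fun w w' => (hPO e v w w').2.2.1)
    have h2 := H2 δ hδ2 (f t y) hu AP hAP le_rfl (fun w => chi P.R w * PE e P.a P.sg v w) hPEm
      (fun w => (hPO e v w w).2.1) (fun w w' => (hPO e v w w').2.2.2)
    unfold cutW
    rw [hcomm (fun w => chi P.R w * PO e P.a P.sg v w)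
        (fun w => bet' P.C₀ (f t y w) * boltzQ (1 + P.a) b (f t y) w),
      hcomm (fun w => chi P.R w * PE e P.a P.sg v w)
        (fun w => bet' P.C₀ (f t y w) * boltzQ (1 + P.a) b (f t y) w)]
    refine (add_le_add h1 h2).trans (le_of_eq ?_)
    ring) x
  have hW1m : Measurable fun w : Vec d => chi P.R₂ w * w e :=
    ((chi_cont P.R₂).mul (continuous_apply e)).measurable
  have hmass : ∫ p, f t p.2 p.1 ∂(nu d) ≤ M := (glob_bounds HL.H hf hGB htt').mass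
  have main2 := ED_der hR₂ hC₂ hfs hbs2 hmass he3 v (by
    intro y
    have hu := hCl t ht y
    have h1 := H3 δ hδ3 (f t y) hu AD hAD0 le_rfl (fun w => chi P.R₂ w * w e) hW1m
      (fun w => (erru_chiw hR₂ e w).trans (by rw [hAD]; linarith))
      (fun w w' => erru_chih hR₂ hm hm1 e w w')
    have h2 := H3 δ hδ3 (f t y) hu AD hAD0 le_rfl (fun w => chi P.R₂ w) (chi_cont P.R₂).measurable
      (fun w => by
        rw [abs_of_nonneg (chi_nonneg P.R₂ w), hAD]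
        linarith [chi_le_one P.R₂ w])
      (fun w w' => by
        refine (chi_holder hR₂ hm hm1 w w').trans ?_
        have h3 := Real.rpow_nonneg (len_nonneg (w - w')) m
        rw [hAD]
        exact erru_n1 hR₂ h3)
    unfold W1 W0
    rw [hcomm (fun w => chi P.R₂ w * w e)
        (fun w => bet' P.C₂ (f t y w) * boltzQ (1 + P.a) b (f t y) w),
      hcomm (fun w => chi P.R₂ w)
        (fun w => bet' P.C₂ (f t y w) * boltzQ (1 + P.a) b (f t y) w)]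
    refine (add_le_add h1 h2).trans (le_of_eq ?_)
    ring) x
  rw [hi5, hj3] at main1
  rw [hk3] at main2
  have main3 := mul_le_mul_of_nonneg_left main2 hlam
  unfold dEU
  refine le_trans ?_ (add_le_add main1 main3)
  unfold Zw Zu
  have hfin : (3 * P.K + 8 * P.lam * P.R₂ * M) * η₁ ≤ ηe := by
    rw [← hηD, hD]
    exact erru_n2 hη₁.le
  have hε0 : ε ≠ 0 := hε.ne'
  linear_combination hfin

end Pool.Agent.H48.PV
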