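import Pool.Agent.H48.PV.WinU
import Pool.Agent.H48.PW.StartW
import Pool.Agent.H48.PI.Uni

/-!
# Module UniU: the uniform pointwise bound

`P, N, Cd` from `windowU`, `C₁` from `Hs_low` (PI/BadW), `Hs_anti`. For `t₀ ∈ (0,T)`, `B ≥ N` with `f t₀ W exp(-EU) ≤ B`: by induction `f (t₀+n) W exp(-EU) ≤ B exp(Cd (Hs(f t₀) - Hs(f (t₀+n))))` (windows of length exactly `1`: `1 - 1 = 0`), so for `t ≥ t₀` (`n = ⌊t-t₀⌋₊`):
`f t W exp(-EU) ≤ B exp(1 + Cd (Hs(f t₀) - Hs(f t))) ≤ B exp(1 + Cd (M + C₁))`. `start_W` (`η = 1`) gives `t₁`; for `t ≤ t₁`: `f t W ≤ A₀ + 1`; for `t > t₁` take `t₀ = t₁`, `B = max N (exp 1 (A₀+1)) ≤ (N + exp 1)(A₀+1)` (`A₀ ≥ 0` as `f ≥ 0`, `T > 0`; `|EU| ≤ 1`). `K = exp 1 (N + exp 1) exp(1 + Cd (M + C₁)) + 1`.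
-/

set_option autoImplicit false

open MeasureTheory Set Filter Topology Pool.Agent.H25.Kin Pool.Agent.H82.BK Pool.Agent.H82.CM
open Pool.Agent.H48.PL Pool.Agent.H48.PI Pool.Agent.H48.PW Pool.Agent.H85.UP
open Pool.Agent.H15.AV (UNice gau)

namespace Pool.Agent.H48.PV

variable {d : ℕ} {s a m q θ η C Ca cb : ℝ} {b : ℝ → ℝ}

theorem planar_uniformU (HL : HypL d (1 + a) s b C Ca cb) (U : UE s a m q) (e : Fin d)
    (hE : ErrOne d a m q θ η b e) (hZ : ZT d a q θ η b e) (hT : TailR d a m b) {M : ℝ} (hM : 0 ≤ M)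
    {m₀ : ℝ} (hm : 0 < m₀) {p : ℕ} (hp : (d : ℝ) + (1 + a) + 4 ≤ 2 * p) :
    ∃ K : ℝ, 0 ≤ K ∧ ∀ (T : ℝ) (f : ℝ → Vec d → Vec d → ℝ), IsBoltzmannSol (1 + a) b T f →
      Planar e T f → GB M (f 0) → m₀ ≤ ∫ q, f 0 q.2 q.1 ∂(nu d) →
      ∀ A₀ : ℝ, (∀ x v, f 0 x v * (1 + nsq v) ^ p ≤ A₀) →
      ∀ t ∈ Ico 0 T, ∀ x v, f t x v * (1 + nsq v) ^ p ≤ K * (A₀ + 1) := by
  obtain ⟨P, N, Cd, hN, hCd, hwin⟩ := windowU HL U e hE hZ hT hM hm hp
  obtain ⟨C₁, hC₁, hlow⟩ := Hs_low HL M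
  have he0 : 0 < Real.exp 1 := Real.exp_pos 1
  have he1 : 1 ≤ Real.exp 1 := Real.one_le_exp zero_le_one
  refine ⟨Real.exp 1 * (N + Real.exp 1) * Real.exp (1 + Cd * (M + C₁)) + 1, by positivity, ?_⟩
  intro T f hf hpl hG hmass A₀ hA₀ t ht x v
  have hT0 : 0 < T := ht.1.trans_lt ht.2
  have hW : ∀ v : Vec d, 0 < (1 + nsq v) ^ p := fun v => by
    have : 0 ≤ nsq v := Finset.sum_nonneg fun i _ => sq_nonneg _
    positivity
  have hA0 : 0 ≤ A₀ := by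
    refine le_trans (mul_nonneg ?_ (hW v).le) (hA₀ x v)
    exact hf.nonneg 0 ⟨le_rfl, hT0⟩ x v
  obtain ⟨hEb, hw⟩ := hwin T f hf hpl hG hmass
  obtain ⟨t₁, ht₁, ht₁T, hst⟩ := start_W hf hT0 p hA0 hA₀ one_pos
  have hX : 0 ≤ Real.exp 1 * (N + Real.exp 1) * Real.exp (1 + Cd * (M + C₁)) := by positivity
  rcases le_or_gt t t₁ with hle | hgt
  · refine (hst t ⟨ht.1, hle⟩ x v).trans ?_
    nlinarith
  have hexpE : ∀ t ∈ Ioo 0 T, ∀ x v, Real.exp (-EU P e (f t) x v) ≤ Real.exp 1 := by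
    intro t ht x v
    refine Real.exp_le_exp.2 ?_
    have := (abs_le.1 (hEb t ht x v)).1
    linarith
  have hexpE' : ∀ t ∈ Ioo 0 T, ∀ x v, Real.exp (EU P e (f t) x v) ≤ Real.exp 1 := by
    intro t ht x v
    exact Real.exp_le_exp.2 (abs_le.1 (hEb t ht x v)).2
  set B : ℝ := N + Real.exp 1 * (A₀ + 1) with hB
  have hBN : N ≤ B := by
    have : 0 ≤ Real.exp 1 * (A₀ + 1) := by positivity
    linarith
  have hB0 : 0 < B := by linarith
  have hBA : B ≤ (N + Real.exp 1) * (A₀ + 1) := by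
    have : 0 ≤ N * A₀ := by positivity
    rw [hB]
    nlinarith
  have hmain : ∀ n : ℕ, t₁ + n < T → ∀ x v,
      f (t₁ + n) x v * (1 + nsq v) ^ p * Real.exp (-EU P e (f (t₁ + n)) x v) ≤
        B * Real.exp (Cd * (Hs (f t₁) - Hs (f (t₁ + n)))) := by
    intro n
    induction n with
    | zero =>
      intro h1 x v
      rw [Nat.cast_zero, add_zero, sub_self, mul_zero, Real.exp_zero, mul_one]
      have h2 := hst t₁ ⟨ht₁.le, le_rfl⟩ x v
      have h3 := hexpE t₁ ⟨ht₁, ht₁T⟩ x v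
      calc f t₁ x v * (1 + nsq v) ^ p * Real.exp (-EU P e (f t₁) x v)
          ≤ (A₀ + 1) * Real.exp 1 := mul_le_mul h2 h3 (Real.exp_pos _).le (by positivity)
        _ ≤ B := by
            rw [hB]
            nlinarith
    | succ n ih =>
      intro h1 x v
      have hcast : t₁ + ((n + 1 : ℕ) : ℝ) = t₁ + n + 1 := by push_cast; ring
      rw [hcast] at h1 ⊢
      have hn0 : (0 : ℝ) ≤ n := Nat.cast_nonneg n
      have hnT : t₁ + n < T := by linarith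
      have ihn := ih hnT
      have hd1 : 0 ≤ Hs (f t₁) - Hs (f (t₁ + n)) := by
        have := Hs_anti HL hf ht₁.le (by linarith : t₁ ≤ t₁ + n) hnT
        linarith
      have hBB : B ≤ B * Real.exp (Cd * (Hs (f t₁) - Hs (f (t₁ + n)))) :=
        le_mul_of_one_le_right hB0.le (Real.one_le_exp (mul_nonneg hCd hd1))
      refine (hw (t₁ + n) (t₁ + n + 1) (by linarith) (by linarith) le_rfl h1 _ (hBN.trans hBB) ihn x v).trans
        (le_of_eq ?_)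
      rw [mul_assoc, ← Real.exp_add]
      congr 2
      ring
  have hn0 : (0 : ℝ) ≤ ((⌊t - t₁⌋₊ : ℕ) : ℝ) := Nat.cast_nonneg _
  have hnt : ((⌊t - t₁⌋₊ : ℕ) : ℝ) ≤ t - t₁ := Nat.floor_le (by linarith)
  have htn : t - t₁ ≤ ((⌊t - t₁⌋₊ : ℕ) : ℝ) + 1 := (Nat.lt_floor_add_one (t - t₁)).le
  set n : ℕ := ⌊t - t₁⌋₊ with hn
  have hnT : t₁ + n < T := by linarith [ht.2]
  have h2 := hmain n hnT
  have hd1 : 0 ≤ Hs (f t₁) - Hs (f (t₁ + n)) := by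
    have := Hs_anti HL hf ht₁.le (by linarith : t₁ ≤ t₁ + n) hnT
    linarith
  have hBB : B ≤ B * Real.exp (Cd * (Hs (f t₁) - Hs (f (t₁ + n)))) :=
    le_mul_of_one_le_right hB0.le (Real.one_le_exp (mul_nonneg hCd hd1))
  have h3 := hw (t₁ + n) t (by linarith) (by linarith) (by linarith) ht.2 _ (hBN.trans hBB) h2 x v
  have hH1 := hlow T f hf hG t₁ ⟨ht₁.le, ht₁T⟩
  have hHt := hlow T f hf hG t ht
  have h4 : B * Real.exp (Cd * (Hs (f t₁) - Hs (f (t₁ + n)))) *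
      Real.exp ((1 - (t - (t₁ + n))) + Cd * (Hs (f (t₁ + n)) - Hs (f t))) ≤
      B * Real.exp (1 + Cd * (M + C₁)) := by
    rw [mul_assoc, ← Real.exp_add]
    refine mul_le_mul_of_nonneg_left (Real.exp_le_exp.2 ?_) hB0.le
    have h5 : Cd * (Hs (f t₁) - Hs (f t)) ≤ Cd * (M + C₁) :=
      mul_le_mul_of_nonneg_left (by linarith [hH1.2, hHt.1]) hCd
    nlinarith
  have h5 := h3.trans h4
  have h6 := hexpE' t ⟨by linarith, ht.2⟩ x v
  have h7 : f t x v * (1 + nsq v) ^ p = f t x v * (1 + nsq v) ^ p *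
      Real.exp (-EU P e (f t) x v) * Real.exp (EU P e (f t) x v) := by
    rw [mul_assoc, ← Real.exp_add, neg_add_cancel, Real.exp_zero, mul_one]
  rw [h7]
  calc f t x v * (1 + nsq v) ^ p * Real.exp (-EU P e (f t) x v) * Real.exp (EU P e (f t) x v)
      ≤ B * Real.exp (1 + Cd * (M + C₁)) * Real.exp 1 :=
        mul_le_mul h5 h6 (Real.exp_pos _).le (by positivity)
    _ = Real.exp 1 * Real.exp (1 + Cd * (M + C₁)) * B := by ring
    _ ≤ Real.exp 1 * Real.exp (1 + Cd * (M + C₁)) * ((N + Real.exp 1) * (A₀ + 1)) :=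
        mul_le_mul_of_nonneg_left hBA (by positivity)
    _ ≤ (Real.exp 1 * (N + Real.exp 1) * Real.exp (1 + Cd * (M + C₁)) + 1) * (A₀ + 1) := by
        nlinarith

end Pool.Agent.H48.PV
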