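import Pool.Agent.H48.PV.WtU
import Pool.Agent.H48.PL.FinP

/-!
# Module WtO: the weights `PO`, `PE`, oscillation in the first variable (block F0 of P-UP)

`om = omU v w = (<w>^2/(<v>^2+<w>^2))^2`, `RR v w ^ 2 = jb v ^ 2 + jb w ^ 2`, `N(x) = min(x₊^a, x₀^a)`, `x₀ = x0 a sg ≥ 1`, `x₀^(1-a) = 1/sg`; `PO v w = om (sg V_e + N(V_e) - N(-V_e))`, `V_e = v e - w e`, `2 PE v w = om (sg |V_e| + N(V_e) + N(-V_e))`
(one of the two `N` vanishes). Elementary: `om ≤ 1`, `om RR ≤ jb w`, `om RR^2 ≤ jb w ^ 2` (`jb w ≤ RR`), `om jb v ≤ jb w`, `|V_e| ≤ jb v + jb w ≤ 2 RR`, `V_e^2 ≤ 2 RR^2`, `|N(x)-N(y)| ≤ 2 x₀^a |x-y|^m` for `0 < m ≤ a` (`|x-y| ≤ 1`: `|x-y|^a ≤ |x-y|^m`; otherwise `N ≤ x₀^a`).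
* `PO_osc` (in the first variable): `len (u-v) ≥ jb v/2`: `mm m v u ≥ 1/2` and `PO_abs` twice. Otherwise `jb u ∈ [jb v/2, 2 jb v]`; `|om u - om v| ≤ C om v len(u-v)/RR v w` (mean value, or algebra), times
`sg|V_e| + x₀^a ≤ (2+x₀^a) RR`: `≤ C x₀^a om len(u-v) ≤ C x₀^a jb w len(u-v)/jb v ≤ .. mm m v u` (`mm m v u = (len/jb v)^m ≥ len/jb v`); `om sg |u_e-v_e|`: the same; `om |N-N'| ≤ om 2x₀^a len^m = 2 x₀^a om jb v^m (len/jb v)^m`, `om jb v^m ≤ om jb v ≤ jb w`.
-/

set_option autoImplicit false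

open MeasureTheory Set Filter Topology Pool.Agent.H25.Kin Pool.Agent.H82.BK Pool.Agent.H82.CM
open Pool.Agent.H48.PL Pool.Agent.H48.PI Pool.Agent.H48.PW Pool.Agent.H85.UP
open Pool.Agent.H15.AV (UNice gau)

namespace Pool.Agent.H48.PV

variable {d : ℕ} {a m sg : ℝ}

private lemma o_x0 (ha1 : a < 1) (hsg : 0 < sg) (hsg1 : sg ≤ 1) : 1 ≤ x0 a sg := by
  unfold x0
  apply Real.one_le_rpow_of_pos_of_le_one_of_nonpos hsg hsg1
  have h : 0 < 1 - a := by linarith
  have h' : 0 < 1 / (1 - a) := by positivity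
  linarith

private lemma o_len0 (v : Vec d) : 0 ≤ len v := Real.sqrt_nonneg _

private lemma o_mm (v u : Vec d) :
    mm m v u = min 1 (len (u - v) / jb v) ^ m := by
  have hj := jb_pos v
  have hn : 0 ≤ nsq (u - v) := by
    unfold nsq
    exact Finset.sum_nonneg fun i _ => sq_nonneg _
  have hl : 0 ≤ len (u - v) := Real.sqrt_nonneg _
  have h1 : nsq (u - v) / (1 + nsq v) = (len (u - v) / jb v) ^ 2 := by
    rw [div_pow, jb_sq]
    unfold len
    rw [Real.sq_sqrt hn]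
  have hr : 0 ≤ len (u - v) / jb v := by positivity
  have h2 : min 1 ((len (u - v) / jb v) ^ 2) = (min 1 (len (u - v) / jb v)) ^ 2 := by
    rcases le_total (len (u - v) / jb v) 1 with h | h
    · rw [min_eq_right h, min_eq_right (by nlinarith)]
    · rw [min_eq_left h, min_eq_left (by nlinarith)]
      norm_num
  have h3 : 0 ≤ min 1 (len (u - v) / jb v) := le_min zero_le_one hr
  unfold mm
  rw [h1, h2, ← Real.rpow_natCast, ← Real.rpow_mul h3]
  congr 1
  push_cast
  ring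

private lemma o_pow_sub (ha : 0 < a) (ha1 : a ≤ 1) {x y : ℝ} (hy : 0 ≤ y) (hxy : y ≤ x) :
    x ^ a ≤ y ^ a + (x - y) ^ a := by
  have h := Real.rpow_add_le_add_rpow hy (sub_nonneg.2 hxy) ha.le ha1
  rwa [add_sub_cancel] at h

private lemma o_N1 (ha : 0 < a) (ha1 : a ≤ 1) (hm : 0 < m) (hma : m ≤ a) {X x y l : ℝ} (hX : 1 ≤ X)
    (hxy : y ≤ x) (h : x - y ≤ l) :
    |min (max x 0 ^ a) X - min (max y 0 ^ a) X| ≤ X * l ^ m := by
  have hl : 0 ≤ l := by linarith
  have hy0 : (0 : ℝ) ≤ max y 0 := le_max_right _ _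
  have hm1 : max y 0 ≤ max x 0 := max_le_max hxy le_rfl
  have hm2 : max x 0 - max y 0 ≤ l := by
    rcases le_total x 0 with hx | hx
    · rw [max_eq_right hx]
      linarith
    · rw [max_eq_left hx]
      have : y ≤ max y 0 := le_max_left _ _
      linarith
  have hp : max y 0 ^ a ≤ max x 0 ^ a := Real.rpow_le_rpow hy0 hm1 ha.le
  have hmono : min (max y 0 ^ a) X ≤ min (max x 0 ^ a) X := min_le_min hp le_rfl
  rw [abs_of_nonneg (by linarith)]
  have hN0 : 0 ≤ min (max y 0 ^ a) X := le_min (Real.rpow_nonneg hy0 _) (by linarith)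
  rcases le_total l 1 with hl1 | hl1
  · have h1 := o_pow_sub ha ha1 hy0 hm1
    have h2 : (max x 0 - max y 0) ^ a ≤ l ^ a := Real.rpow_le_rpow (by linarith) hm2 ha.le
    have h3 : l ^ a ≤ l ^ m := by
      rcases hl.eq_or_lt with h0 | h0
      · rw [← h0, Real.zero_rpow ha.ne', Real.zero_rpow hm.ne']
      · exact Real.rpow_le_rpow_of_exponent_ge h0 hl1 hma
    have h4 : min (max x 0 ^ a) X ≤ min (max y 0 ^ a) X + l ^ m := by
      have hlm : 0 ≤ l ^ m := Real.rpow_nonneg hl _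
      rcases le_total (max y 0 ^ a) X with hh | hh
      · rw [min_eq_left hh]
        exact (min_le_left _ _).trans (by linarith)
      · rw [min_eq_right hh]
        exact (min_le_right _ _).trans (by linarith)
    have h5 : l ^ m ≤ X * l ^ m := by
      have hlm : 0 ≤ l ^ m := Real.rpow_nonneg hl _
      nlinarith
    linarith
  · have h1 : 1 ≤ l ^ m := Real.one_le_rpow hl1 hm.le
    have h2 : min (max x 0 ^ a) X ≤ X := min_le_right _ _
    nlinarith

private lemma o_N (ha : 0 < a) (ha1 : a ≤ 1) (hm : 0 < m) (hma : m ≤ a) {X x y l : ℝ} (hX : 1 ≤ X)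
    (h : |x - y| ≤ l) :
    |min (max x 0 ^ a) X - min (max y 0 ^ a) X| ≤ X * l ^ m := by
  obtain ⟨h1, h2⟩ := abs_le.1 h
  rcases le_total y x with hh | hh
  · exact o_N1 ha ha1 hm hma hX hh h2
  · rw [abs_sub_comm]
    exact o_N1 ha ha1 hm hma hX hh (by linarith)

private lemma o_Hsub (ha : 0 < a) (ha1 : a < 1) (hm : 0 < m) (hma : m ≤ a) (hsg : 0 < sg) (hsg1 : sg ≤ 1)
    {x y l : ℝ} (h : |x - y| ≤ l) :
    |Hh a sg x - Hh a sg y| ≤ l + x0 a sg ^ a * l ^ m := by
  have hX : 1 ≤ x0 a sg ^ a := Real.one_le_rpow (o_x0 ha1 hsg hsg1) ha.le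
  have h1 := o_N ha ha1.le hm hma hX h
  have h2 : |max x 0 - max y 0| ≤ |x - y| := by
    have := abs_max_sub_max_le_abs x y 0
    simpa using this
  have h3 : |sg * max x 0 - sg * max y 0| ≤ l := by
    rw [← mul_sub, abs_mul, abs_of_pos hsg]
    have h0 : 0 ≤ |max x 0 - max y 0| := abs_nonneg _
    nlinarith
  unfold Hh
  have h4 : sg * max x 0 + min (max x 0 ^ a) (x0 a sg ^ a) - (sg * max y 0 + min (max y 0 ^ a) (x0 a sg ^ a)) =
      (sg * max x 0 - sg * max y 0) + (min (max x 0 ^ a) (x0 a sg ^ a) - min (max y 0 ^ a) (x0 a sg ^ a)) := by ring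
  rw [h4]
  exact (abs_add_le _ _).trans (add_le_add h3 h1)

private lemma o_Habs (ha : 0 < a) (ha1 : a < 1) (hsg : 0 < sg) (hsg1 : sg ≤ 1) (x : ℝ) :
    0 ≤ Hh a sg x ∧ Hh a sg x ≤ |x| + x0 a sg ^ a := by
  have hX : 1 ≤ x0 a sg ^ a := Real.one_le_rpow (o_x0 ha1 hsg hsg1) ha.le
  have h0 : (0 : ℝ) ≤ max x 0 := le_max_right _ _
  have h1 : max x 0 ≤ |x| := max_le (le_abs_self x) (abs_nonneg x)
  unfold Hh
  constructor
  · have : 0 ≤ min (max x 0 ^ a) (x0 a sg ^ a) := le_min (Real.rpow_nonneg h0 _) (by linarith)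
    positivity
  · have h2 : min (max x 0 ^ a) (x0 a sg ^ a) ≤ x0 a sg ^ a := min_le_right _ _
    nlinarith

/-- the factor `om`: real variables `p = jb v`, `p' = jb u`, `q = jb w`, `A = RR v w ^ 2`, `B = RR u w ^ 2` -/
private lemma o_om {p p' q l A B : ℝ} (hp : 0 < p) (hq : 0 < q) (hl : |p' - p| ≤ l) (hlp : l ≤ p / 2)
    (hA : A = p ^ 2 + q ^ 2) (hB : B = p' ^ 2 + q ^ 2) :
    |(q ^ 2 / B) ^ 2 - (q ^ 2 / A) ^ 2| ≤ 130 * ((q ^ 2 / A) ^ 2 * (l * p / A)) := by
  obtain ⟨h1, h2⟩ := abs_le.1 hl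
  have hl0 : 0 ≤ l := (abs_nonneg _).trans hl
  have hp' : p / 2 ≤ p' := by linarith
  have hA0 : 0 < A := by rw [hA]; positivity
  have hB0 : 0 < B := by rw [hB]; positivity
  have hBA : A ≤ 4 * B := by
    rw [hA, hB]
    nlinarith [sq_nonneg q]
  have hBA2 : B ≤ 9 / 4 * A := by
    rw [hA, hB]
    nlinarith [sq_nonneg q]
  have hd : |A - B| ≤ 5 / 2 * (l * p) := by
    have e : A - B = (p - p') * (p + p') := by rw [hA, hB]; ring
    rw [e, abs_mul, abs_sub_comm, abs_of_pos (show 0 < p + p' by linarith)]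
    have : |p' - p| * (p + p') ≤ l * (5 / 2 * p) := by
      apply mul_le_mul hl (by linarith) (by linarith) hl0
    linarith
  have e : (q ^ 2 / B) ^ 2 - (q ^ 2 / A) ^ 2 = (q ^ 2 / A) ^ 2 * ((A - B) * (A + B) / B ^ 2) := by
    field_simp
    ring
  rw [e, abs_mul, abs_of_nonneg (by positivity : 0 ≤ (q ^ 2 / A) ^ 2)]
  have hω : 0 ≤ (q ^ 2 / A) ^ 2 := by positivity
  have h3 : |(A - B) * (A + B) / B ^ 2| ≤ 130 * (l * p / A) := by
    rw [abs_div, abs_mul, abs_of_pos (show 0 < A + B by linarith), abs_of_pos (show 0 < B ^ 2 by positivity),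
      div_le_iff₀ (by positivity)]
    have h4 : |A - B| * (A + B) ≤ 5 / 2 * (l * p) * (13 / 4 * A) := by
      apply mul_le_mul hd (by linarith) (by linarith) (by positivity)
    have h5 : 130 * (l * p / A) * B ^ 2 ≥ 130 * (l * p / A) * (A / 4) ^ 2 := by
      apply mul_le_mul_of_nonneg_left _ (by positivity)
      apply pow_le_pow_left₀ (by positivity) (by linarith)
    have h6 : 130 * (l * p / A) * (A / 4) ^ 2 = 130 / 16 * (l * p) * A := by
      field_simp
      ring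
    have h7 : 0 ≤ l * p * A := by positivity
    nlinarith
  calc (q ^ 2 / A) ^ 2 * |(A - B) * (A + B) / B ^ 2| ≤ (q ^ 2 / A) ^ 2 * (130 * (l * p / A)) :=
        mul_le_mul_of_nonneg_left h3 hω
    _ = 130 * ((q ^ 2 / A) ^ 2 * (l * p / A)) := by ring

/-- the one sided weight -/
private lemma o_one (ha : 0 < a) (ha1 : a < 1) (hm : 0 < m) (hma : m ≤ a) (hsg : 0 < sg) (hsg1 : sg ≤ 1)
    {u v w : Vec d} (hl : len (u - v) ≤ jb v / 2) {x x' : ℝ} (hx : |x' - x| ≤ len (u - v))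
    (hx' : |x'| ≤ 2 * RR u w) :
    |omU u w * Hh a sg x' - omU v w * Hh a sg x| ≤
      400 * (3 + x0 a sg ^ a) * jb w * (len (u - v) / jb v) ^ m := by
  have hX : 1 ≤ x0 a sg ^ a := Real.one_le_rpow (o_x0 ha1 hsg hsg1) ha.le
  have hH := o_Hsub ha ha1 hm hma hsg hsg1 hx
  have hHa := o_Habs ha ha1 hsg hsg1 x'
  have hp := jb_pos v
  have hq := jb_pos w
  have hlip : |jb u - jb v| ≤ len (u - v) := jb_lip u v
  have hl0 := o_len0 (u - v)
  have hRl := jb_le_RR_left v w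
  have hRr := jb_le_RR_right v w
  have hR1 := one_le_RR v w
  have hRu := RR_pos u w
  have hRR : RR u w ≤ 3 / 2 * RR v w := by
    apply le_of_sq_le_sq _ (by linarith)
    rw [mul_pow, RR_sq, RR_sq]
    have h1 : jb u ≤ 3 / 2 * jb v := by
      have := (abs_le.1 hlip).2
      linarith
    have h2 := jb_pos u
    have h3 : jb u ^ 2 ≤ 9 / 4 * jb v ^ 2 := by
      refine (pow_le_pow_left₀ h2.le h1 2).trans (le_of_eq ?_)
      ring
    have h4 := sq_nonneg (jb w)
    have h5 : ((3 : ℝ) / 2) ^ 2 * (jb v ^ 2 + jb w ^ 2) =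
        9 / 4 * jb v ^ 2 + 9 / 4 * jb w ^ 2 := by ring
    rw [h5]
    linarith
  have hom := o_om hp hq hlip hl (RR_sq v w) (RR_sq u w)
  set X := x0 a sg ^ a with hXd
  set l := len (u - v) with hld
  set p := jb v with hpd
  set q := jb w with hqd
  set R := RR v w with hRd
  have hR0 : 0 < R := by linarith
  set lam := l / p with hlam
  have hlp : l = lam * p := by rw [hlam]; field_simp
  have hlam0 : 0 ≤ lam := div_nonneg hl0 hp.le
  have hlam1 : lam ≤ 1 := by rw [hlam, div_le_one hp]; linarith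
  have hlm0 : 0 ≤ lam ^ m := Real.rpow_nonneg hlam0 _
  have hlm : lam ≤ lam ^ m := by
    rcases hlam0.eq_or_lt with h0 | h0
    · rw [← h0, Real.zero_rpow hm.ne']
    · calc lam = lam ^ (1 : ℝ) := (Real.rpow_one _).symm
        _ ≤ lam ^ m := Real.rpow_le_rpow_of_exponent_ge h0 hlam1 (by linarith)
  have hp1 : 1 ≤ p := one_le_jb v
  have hpm : p ^ m ≤ p := by
    calc p ^ m ≤ p ^ (1 : ℝ) := Real.rpow_le_rpow_of_exponent_le hp1 (by linarith)
      _ = p := Real.rpow_one _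
  have hlpm : l ^ m ≤ p * lam ^ m := by
    rw [hlp, Real.mul_rpow hlam0 hp.le, mul_comm]
    exact mul_le_mul_of_nonneg_right hpm hlm0
  -- om R ≤ q and om p ≤ q
  set r := q / R with hr
  have hr0 : 0 ≤ r := div_nonneg hq.le hR0.le
  have hr1 : r ≤ 1 := by rw [hr, div_le_one hR0]; exact hRr
  have hω : omU v w = r ^ 4 := by
    unfold omU
    rw [← hqd, ← hRd, hr]
    field_simp
  have hqR : q = r * R := by rw [hr]; field_simp
  have hr41 : r ^ 4 ≤ r := by
    have h3 : r ^ 3 ≤ 1 := pow_le_one₀ hr0 hr1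
    calc r ^ 4 = r ^ 3 * r := by ring
      _ ≤ 1 * r := mul_le_mul_of_nonneg_right h3 hr0
      _ = r := one_mul r
  have hωR : r ^ 4 * R ≤ q := by
    rw [hqR]
    exact mul_le_mul_of_nonneg_right hr41 hR0.le
  have hr40 : 0 ≤ r ^ 4 := by positivity
  have hωp : r ^ 4 * p ≤ q := (mul_le_mul_of_nonneg_left hRl hr40).trans hωR
  -- first part
  have hHx : Hh a sg x' ≤ (3 + X) * R := by
    have h1 := hHa.2
    have h2 : X ≤ X * R := le_mul_of_one_le_right (zero_le_one.trans hX) hR1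
    have h3 : (3 + X) * R = 3 * R + X * R := by ring
    rw [h3]
    linarith
  have hω4 : (q ^ 2 / R ^ 2) ^ 2 = r ^ 4 := by
    rw [hr]
    field_simp
  have hp1' : |omU u w - omU v w| ≤ 130 * (r ^ 4 * (l * p / R ^ 2)) := by
    rw [← hω4]
    exact hom
  have hA : |(omU u w - omU v w) * Hh a sg x'| ≤ 130 * (3 + X) * q * lam ^ m := by
    rw [abs_mul, abs_of_nonneg hHa.1]
    have h1 : |omU u w - omU v w| * Hh a sg x' ≤ 130 * (r ^ 4 * (l * p / R ^ 2)) * ((3 + X) * R) :=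
      mul_le_mul hp1' hHx hHa.1 (by positivity)
    have h2 : l * p / R ^ 2 ≤ lam := by
      rw [div_le_iff₀ (by positivity), hlp]
      have h0 : p * p ≤ R ^ 2 := by
        rw [sq]
        exact mul_le_mul hRl hRl hp.le hR0.le
      calc lam * p * p = lam * (p * p) := mul_assoc _ _ _
        _ ≤ lam * R ^ 2 := mul_le_mul_of_nonneg_left h0 hlam0
    have h3 : 130 * (r ^ 4 * (l * p / R ^ 2)) * ((3 + X) * R) ≤ 130 * (r ^ 4 * lam) * ((3 + X) * R) := by
      apply mul_le_mul_of_nonneg_right _ (by positivity)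
      apply mul_le_mul_of_nonneg_left _ (by norm_num)
      exact mul_le_mul_of_nonneg_left h2 hr40
    have h4 : 130 * (r ^ 4 * lam) * ((3 + X) * R) = 130 * (3 + X) * (r ^ 4 * R) * lam := by ring
    have h5 : 130 * (3 + X) * (r ^ 4 * R) * lam ≤ 130 * (3 + X) * q * lam ^ m := by
      apply mul_le_mul _ hlm hlam0 (by positivity)
      exact mul_le_mul_of_nonneg_left hωR (by linarith)
    linarith
  have hB : |omU v w * (Hh a sg x' - Hh a sg x)| ≤ (1 + X) * q * lam ^ m := by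
    rw [abs_mul, hω, abs_of_nonneg hr40]
    have h1 : |Hh a sg x' - Hh a sg x| ≤ (1 + X) * (p * lam ^ m) := by
      have h2 : l ≤ p * lam ^ m := by
        rw [hlp, mul_comm]
        exact mul_le_mul_of_nonneg_left hlm hp.le
      have h3 : X * l ^ m ≤ X * (p * lam ^ m) := mul_le_mul_of_nonneg_left hlpm (by linarith)
      linarith
    have h4 : r ^ 4 * |Hh a sg x' - Hh a sg x| ≤ r ^ 4 * ((1 + X) * (p * lam ^ m)) :=
      mul_le_mul_of_nonneg_left h1 hr40
    have h5 : r ^ 4 * ((1 + X) * (p * lam ^ m)) = (1 + X) * (r ^ 4 * p) * lam ^ m := by ring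
    have h6 : (1 + X) * (r ^ 4 * p) * lam ^ m ≤ (1 + X) * q * lam ^ m := by
      apply mul_le_mul_of_nonneg_right _ hlm0
      exact mul_le_mul_of_nonneg_left hωp (by linarith)
    linarith
  have e : omU u w * Hh a sg x' - omU v w * Hh a sg x =
      (omU u w - omU v w) * Hh a sg x' + omU v w * (Hh a sg x' - Hh a sg x) := by ring
  rw [e]
  refine (abs_add_le _ _).trans ((add_le_add hA hB).trans ?_)
  have h8 : 0 ≤ q * lam ^ m := mul_nonneg hq.le hlm0
  have h9 : 130 * (3 + X) + (1 + X) ≤ 400 * (3 + X) := by linarith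
  calc 130 * (3 + X) * q * lam ^ m + (1 + X) * q * lam ^ m
      = (130 * (3 + X) + (1 + X)) * (q * lam ^ m) := by ring
    _ ≤ 400 * (3 + X) * (q * lam ^ m) := mul_le_mul_of_nonneg_right h9 h8
    _ = 400 * (3 + X) * q * lam ^ m := by ring

theorem PO_osc (hm : 0 < m) (hma : m ≤ a) (ha1 : a < 1) (hsg : 0 < sg) (hsg1 : sg ≤ 1) :
    ∃ K : ℝ, 0 ≤ K ∧ ∀ (e : Fin d) (u v w : Vec d),
      |PO e a sg u w - PO e a sg v w| ≤ K * jb w * mm m v u ∧
      |PE e a sg u w - PE e a sg v w| ≤ K * jb w * mm m v u := by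
  have ha : 0 < a := lt_of_lt_of_le hm hma
  have hX : 1 ≤ x0 a sg ^ a := Real.one_le_rpow (o_x0 ha1 hsg hsg1) ha.le
  refine ⟨800 * (3 + x0 a sg ^ a), by linarith, fun e u v w => ?_⟩
  have hq := jb_pos w
  have hp := jb_pos v
  rw [o_mm]
  rcases le_total (len (u - v)) (jb v / 2) with hl | hl
  · have hmin : min 1 (len (u - v) / jb v) = len (u - v) / jb v := by
      apply min_eq_right
      rw [div_le_one hp]
      linarith
    rw [hmin]
    have hc : |u e - v e| ≤ len (u - v) := by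
      have := abs_coord_le (u - v) e
      simpa using this
    have hP : |Pool.Agent.H85.UP.PP e a sg u w - Pool.Agent.H85.UP.PP e a sg v w| ≤
        400 * (3 + x0 a sg ^ a) * jb w * (len (u - v) / jb v) ^ m := by
      unfold Pool.Agent.H85.UP.PP
      apply o_one ha ha1 hm hma hsg hsg1 hl
      · have e1 : u e - w e - (v e - w e) = u e - v e := by ring
        rw [e1]
        exact hc
      · have := abs_coord_le (u - w) e
        exact this.trans (len_le_RR u w)
    have hM : |PM e a sg u w - PM e a sg v w| ≤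
        400 * (3 + x0 a sg ^ a) * jb w * (len (u - v) / jb v) ^ m := by
      unfold PM
      apply o_one ha ha1 hm hma hsg hsg1 hl
      · have e1 : w e - u e - (w e - v e) = -(u e - v e) := by ring
        rw [e1, abs_neg]
        exact hc
      · have := abs_coord_le (u - w) e
        have e1 : w e - u e = -((u - w) e) := by simp
        rw [e1, abs_neg]
        exact this.trans (len_le_RR u w)
    obtain ⟨p1, p2⟩ := abs_le.1 hP
    obtain ⟨m1, m2⟩ := abs_le.1 hM
    have h0 : 0 ≤ (3 + x0 a sg ^ a) * jb w * (len (u - v) / jb v) ^ m := by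
      have h1 : 0 ≤ (len (u - v) / jb v) ^ m := Real.rpow_nonneg (div_nonneg (o_len0 _) hp.le) _
      have h2 : 0 ≤ (3 + x0 a sg ^ a) * jb w := mul_nonneg (by linarith) hq.le
      exact mul_nonneg h2 h1
    unfold PO PE
    constructor
    · rw [abs_le]
      constructor <;> linarith
    · rw [abs_le]
      constructor <;> linarith
  · have hmin : (1 / 2 : ℝ) ≤ min 1 (len (u - v) / jb v) := by
      apply le_min (by norm_num)
      rw [le_div_iff₀ hp]
      linarith
    have hh : (1 / 2 : ℝ) ≤ min 1 (len (u - v) / jb v) ^ m := by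
      calc (1 / 2 : ℝ) = (1 / 2 : ℝ) ^ (1 : ℝ) := (Real.rpow_one _).symm
        _ ≤ (1 / 2 : ℝ) ^ m := Real.rpow_le_rpow_of_exponent_ge (by norm_num) (by norm_num) (by linarith)
        _ ≤ min 1 (len (u - v) / jb v) ^ m := Real.rpow_le_rpow (by norm_num) hmin hm.le
    have a1 := PO_abs ha ha1 hsg hsg1 e u w
    have a2 := PO_abs ha ha1 hsg hsg1 e v w
    have hk : 2 * ((2 + x0 a sg ^ a) * jb w) ≤
        800 * (3 + x0 a sg ^ a) * jb w * min 1 (len (u - v) / jb v) ^ m := by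
      have h1 : 800 * (3 + x0 a sg ^ a) * jb w * (1 / 2) ≤
          800 * (3 + x0 a sg ^ a) * jb w * min 1 (len (u - v) / jb v) ^ m := by
        apply mul_le_mul_of_nonneg_left hh
        apply mul_nonneg _ hq.le
        linarith
      nlinarith
    constructor
    · refine (abs_sub _ _).trans (le_trans ?_ hk)
      linarith [a1.1, a2.1]
    · refine (abs_sub _ _).trans (le_trans ?_ hk)
      linarith [a1.2, a2.2]

end Pool.Agent.H48.PV
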