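import Pool.Agent.H48.PV.DerC
import Pool.Agent.H48.PV.WtO
import Pool.Agent.H48.PI.ESli

/-!
# Module AbsU: bound and oscillation of the weight function, small averages

`EA = K ∫z (∫ w, (kl 1 z * PO v w + PE v w) (F - gb)(x - z e, w))` (linearity; `avn Φ F v = loc e 1 (∫ w, Φ v w F y w) x`, see DerA), `0 ≤ F - gb`, `|kl| ≤ 1/2`, `∫z ∫w jb w (F - gb)(x - z e, w) = ∫ (F-gb) jb dν ≤ ε₂` (`jb ≤ jb^(1+a)`).
* `EU_abs`: `PO_abs`: `|EA| ≤ (3/2) K (2+x₀^a) ε₂`, `ED_abs`. * `EU_osc`: `PO_osc`, `ED_v`: `|EU u - EU v| ≤ (3/2) K K' ε₂ mm m v u`. * `avU_le`: `V_PO`, `∫ F jb^2 dν ≤ M₂`.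
-/

set_option autoImplicit false

open MeasureTheory Set Filter Topology Pool.Agent.H25.Kin Pool.Agent.H82.BK Pool.Agent.H82.CM
open Pool.Agent.H48.PL Pool.Agent.H48.PI Pool.Agent.H48.PW Pool.Agent.H85.UP
open Pool.Agent.H15.AV (UNice gau)

namespace Pool.Agent.H48.PV

variable {d : ℕ} {P : Pv} {e : Fin d} {F G : Vec d → Vec d → ℝ} {ε₂ M M₂ : ℝ}

/-- continuous planar periodic functions with rapid decay in the velocity -/
private structure AuA (e : Fin d) (A : Vec d → Vec d → ℝ) : Prop where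
  cont : Continuous fun p : Vec d × Vec d => A p.1 p.2
  dec : RX A
  per : ∀ x v i, A (x + Pi.single i 1) v = A x v
  pl : ∀ x y v, x e = y e → A x v = A y v

private lemma au_bd {A : Vec d → Vec d → ℝ} (hA : AuA e A) {Φ : Vec d → Vec d → ℝ} (hΦ : PGW Φ)
    (v : Vec d) : ∃ C, ∀ x w, |Φ v w * A x w| ≤ C * wt d w := by
  obtain ⟨N, K, hK0, hK⟩ := hΦ.le
  obtain ⟨C, hC⟩ := hA.dec (N + (d + 1))
  refine ⟨K * (1 + ‖v‖) ^ N * C, fun x w => ?_⟩
  have hw : 0 < 1 + ‖w‖ := w_pos w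
  have hv : 0 < 1 + ‖v‖ := w_pos v
  have h2 := hC x w
  rw [abs_mul]
  unfold wt
  rw [← div_eq_mul_inv, le_div_iff₀ (by positivity)]
  calc |Φ v w| * |A x w| * (1 + ‖w‖) ^ (d + 1)
      ≤ (K * ((1 + ‖v‖) ^ N * (1 + ‖w‖) ^ N)) * |A x w| * (1 + ‖w‖) ^ (d + 1) := by
        have := hK v w
        gcongr
    _ = K * (1 + ‖v‖) ^ N * ((1 + ‖w‖) ^ (N + (d + 1)) * |A x w|) := by rw [pow_add]; ring
    _ ≤ K * (1 + ‖v‖) ^ N * C := by gcongr

private lemma au_wc {A : Vec d → Vec d → ℝ} (hA : AuA e A) {Φ : Vec d → Vec d → ℝ} (hΦ : PGW Φ)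
    (x v : Vec d) : Continuous fun w => Φ v w * A x w :=
  (hΦ.cont.comp (by fun_prop : Continuous fun w : Vec d => (v, w))).mul
    (hA.cont.comp (by fun_prop : Continuous fun w : Vec d => (x, w)))

private lemma au_int {A : Vec d → Vec d → ℝ} (hA : AuA e A) {Φ : Vec d → Vec d → ℝ} (hΦ : PGW Φ)
    (x v : Vec d) : Integrable fun w => Φ v w * A x w := by
  obtain ⟨C, hC⟩ := au_bd hA hΦ v
  exact (integrable_wt.const_mul C).mono' (au_wc hA hΦ x v).aestronglyMeasurable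
    (Eventually.of_forall fun w => hC x w)

private lemma au_nu {A : Vec d → Vec d → ℝ} (hA : AuA e A) {Φ : Vec d → Vec d → ℝ} (hΦ : PGW Φ)
    (v : Vec d) : Integrable (fun p : Vec d × Vec d => Φ v p.1 * A p.2 p.1) (nu d) := by
  obtain ⟨C, hC⟩ := au_bd hA hΦ v
  have hc : Continuous fun p : Vec d × Vec d => Φ v p.1 * A p.2 p.1 :=
    (hΦ.cont.comp (by fun_prop : Continuous fun p : Vec d × Vec d => (v, p.1))).mul
      (hA.cont.comp (by fun_prop : Continuous fun p : Vec d × Vec d => (p.2, p.1)))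
  exact integrable_nu hc.aestronglyMeasurable fun p => hC p.2 p.1

private lemma au_pl {A : Vec d → Vec d → ℝ} (hA : AuA e A) {Φ : Vec d → Vec d → ℝ} (hΦ : PGW Φ)
    (v : Vec d) : PlF e fun x => ∫ w, Φ v w * A x w := by
  obtain ⟨C, hC⟩ := au_bd hA hΦ v
  refine ⟨?_, ?_, ?_⟩
  · refine continuous_of_dominated (bound := fun w => C * wt d w) ?_ ?_
      (integrable_wt.const_mul _) ?_
    · intro x
      exact (au_wc hA hΦ x v).aestronglyMeasurable
    · intro x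
      exact Eventually.of_forall fun w => hC x w
    · refine Eventually.of_forall fun w => ?_
      exact continuous_const.mul
        (hA.cont.comp (by fun_prop : Continuous fun x : Vec d => (x, w)))
  · intro x i
    congr 1
    funext w
    rw [hA.per]
  · intro x y hxy
    congr 1
    funext w
    rw [hA.pl x y w hxy]

private lemma au_single (e : Fin d) (x : Vec d) : Continuous fun z : ℝ => x - (Pi.single e z : Vec d) :=
  continuous_const.sub (continuous_single (A := fun _ : Fin d => ℝ) e)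

private lemma au_kl {B : Vec d → ℝ} (hB : PlF e B) (x : Vec d) :
    Integrable (fun z : ℝ => kl 1 z * B (x - Pi.single e z))
      (volume.restrict (Ioo (-(1 / 2)) (1 / 2))) := by
  obtain ⟨C, hC⟩ := pl_bdd hB
  have hfin : IsFiniteMeasure ((volume : Measure ℝ).restrict (Ioo (-(1 / 2)) (1 / 2))) :=
    ⟨by rw [Measure.restrict_apply_univ]; exact measure_Ioo_lt_top⟩
  refine Integrable.of_bound ((kl_meas 1).aestronglyMeasurable.mul
    (hB.cont.comp (au_single e x)).aestronglyMeasurable) (1 / 2 * C) ?_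
  filter_upwards [ae_restrict_mem measurableSet_Ioo] with z hz
  rw [norm_mul, Real.norm_eq_abs, Real.norm_eq_abs]
  exact mul_le_mul (kl_abs one_pos hz) (hC _) (abs_nonneg _) (by norm_num)

private lemma au_lint {B : Vec d → ℝ} (hB : PlF e B) (x : Vec d) :
    Integrable (fun z : ℝ => B (x - Pi.single e z)) (volume.restrict (Ioo (-(1 / 2)) (1 / 2))) := by
  obtain ⟨C, hC⟩ := pl_bdd hB
  have hfin : IsFiniteMeasure ((volume : Measure ℝ).restrict (Ioo (-(1 / 2)) (1 / 2))) :=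
    ⟨by rw [Measure.restrict_apply_univ]; exact measure_Ioo_lt_top⟩
  exact Integrable.of_bound (hB.cont.comp (au_single e x)).aestronglyMeasurable C
    (Eventually.of_forall fun z => hC _)

/-- the weight `jb` -/
private lemma au_jb : PGW fun (_ : Vec d) (w : Vec d) => jb w := by
  refine ⟨jb_cont.comp continuous_snd, 1, (d : ℝ) + 1, by positivity, fun v w => ?_⟩
  have hv : (1 : ℝ) ≤ 1 + ‖v‖ := by linarith [norm_nonneg v]
  have hw := jb_le_w w
  have hw0 : 0 ≤ 1 + ‖w‖ := by linarith [norm_nonneg w]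
  rw [abs_of_nonneg (jb_pos w).le, pow_one, pow_one]
  calc jb w ≤ ((d : ℝ) + 1) * (1 + ‖w‖) := hw
    _ = ((d : ℝ) + 1) * (1 * (1 + ‖w‖)) := by ring
    _ ≤ ((d : ℝ) + 1) * ((1 + ‖v‖) * (1 + ‖w‖)) := by gcongr

private lemma au_jb2 : PGW fun (_ : Vec d) (w : Vec d) => jb w ^ 2 := by
  refine ⟨(jb_cont.comp continuous_snd).pow 2, 2, ((d : ℝ) + 1) ^ 2, by positivity, fun v w => ?_⟩
  have hv : (1 : ℝ) ≤ (1 + ‖v‖) ^ 2 := one_le_pow₀ (by linarith [norm_nonneg v])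
  have hw := jb_le_w w
  have hw0 : 0 ≤ 1 + ‖w‖ := by linarith [norm_nonneg w]
  rw [abs_of_nonneg (by positivity)]
  calc jb w ^ 2 ≤ (((d : ℝ) + 1) * (1 + ‖w‖)) ^ 2 := pow_le_pow_left₀ (jb_pos w).le hw 2
    _ = ((d : ℝ) + 1) ^ 2 * (1 * (1 + ‖w‖) ^ 2) := by ring
    _ ≤ ((d : ℝ) + 1) ^ 2 * ((1 + ‖v‖) ^ 2 * (1 + ‖w‖) ^ 2) := by gcongr

private lemma au_jbr {r : ℝ} : PGW fun (_ : Vec d) (w : Vec d) => jb w ^ r := by
  obtain ⟨N, hN⟩ := exists_nat_ge r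
  have hjc : Continuous fun v : Vec d => jb v ^ r :=
    jb_cont.rpow_const fun v => Or.inl (jb_pos v).ne'
  refine ⟨hjc.comp continuous_snd, N, ((d : ℝ) + 1) ^ N, by positivity, fun v w => ?_⟩
  have hv : (1 : ℝ) ≤ (1 + ‖v‖) ^ N := one_le_pow₀ (by linarith [norm_nonneg v])
  rw [abs_of_nonneg (Real.rpow_nonneg (jb_pos w).le r)]
  calc jb w ^ r ≤ jb w ^ (N : ℝ) := Real.rpow_le_rpow_of_exponent_le (one_le_jb w) hN
    _ = jb w ^ N := Real.rpow_natCast _ _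
    _ ≤ (((d : ℝ) + 1) * (1 + ‖w‖)) ^ N := pow_le_pow_left₀ (jb_pos w).le (jb_le_w w) N
    _ = ((d : ℝ) + 1) ^ N * (1 * (1 + ‖w‖) ^ N) := by rw [mul_pow]; ring
    _ ≤ ((d : ℝ) + 1) ^ N * ((1 + ‖v‖) ^ N * (1 + ‖w‖) ^ N) := by gcongr

/-- the difference of two values of a weight -/
private lemma au_diff {Φ : Vec d → Vec d → ℝ} (hΦ : PGW Φ) (u v : Vec d) :
    PGW fun (_ : Vec d) w => Φ u w - Φ v w := by
  obtain ⟨N, C, hC0, hC⟩ := hΦ.le
  refine ⟨(hΦ.cont.comp (by fun_prop : Continuous fun p : Vec d × Vec d => (u, p.2))).sub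
    (hΦ.cont.comp (by fun_prop : Continuous fun p : Vec d × Vec d => (v, p.2))), N,
    C * ((1 + ‖u‖) ^ N + (1 + ‖v‖) ^ N), by positivity, fun x w => ?_⟩
  have hx : (1 : ℝ) ≤ (1 + ‖x‖) ^ N := one_le_pow₀ (by linarith [norm_nonneg x])
  refine (abs_sub _ _).trans ((add_le_add (hC u w) (hC v w)).trans ?_)
  calc C * ((1 + ‖u‖) ^ N * (1 + ‖w‖) ^ N) + C * ((1 + ‖v‖) ^ N * (1 + ‖w‖) ^ N)
      = C * ((1 + ‖u‖) ^ N + (1 + ‖v‖) ^ N) * (1 * (1 + ‖w‖) ^ N) := by ring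
    _ ≤ C * ((1 + ‖u‖) ^ N + (1 + ‖v‖) ^ N) * ((1 + ‖x‖) ^ N * (1 + ‖w‖) ^ N) := by gcongr

/-! ### the unbounded part -/

private lemma au_gb_nonneg (hP : P.Ok) (h : FS e F G) (x w : Vec d) : 0 ≤ gb P.R P.C₀ F x w :=
  mul_nonneg (chi_nonneg _ _) (bet_nonneg (hP.hC₂.trans_le hP.hC) (h.nonneg x w))

private lemma au_gb_le (hP : P.Ok) (h : FS e F G) (x w : Vec d) : gb P.R P.C₀ F x w ≤ F x w := by
  have h1 := bet_le (hP.hC₂.trans_le hP.hC) (h.nonneg x w)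
  have h2 := bet_nonneg (hP.hC₂.trans_le hP.hC) (h.nonneg x w)
  unfold gb
  exact (mul_le_of_le_one_left h2 (chi_le_one P.R w)).trans h1

private lemma au_F (h : FS e F G) : AuA e F := ⟨h.contF, h.decF, h.perF, h.plF⟩

private lemma au_bet (hP : P.Ok) (h : FS e F G) : AuA e fun x w => bet P.C₀ (F x w) := by
  have hC : 0 < P.C₀ := hP.hC₂.trans_le hP.hC
  refine ⟨?_, ?_, ?_, ?_⟩
  · rw [continuous_iff_continuousAt]
    intro p
    have h1 : ContinuousAt (bet P.C₀) (F p.1 p.2) := (bet_deriv hC (h.nonneg p.1 p.2)).continuousAt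
    exact ContinuousAt.comp (g := bet P.C₀) (f := fun p : Vec d × Vec d => F p.1 p.2) h1
      h.contF.continuousAt
  · intro N
    obtain ⟨C, hC'⟩ := h.decF N
    refine ⟨C, fun x w => le_trans ?_ (hC' x w)⟩
    have hw : 0 < 1 + ‖w‖ := w_pos w
    refine mul_le_mul_of_nonneg_left ?_ (by positivity)
    rw [abs_of_nonneg (bet_nonneg hC (h.nonneg x w)), abs_of_nonneg (h.nonneg x w)]
    exact bet_le hC (h.nonneg x w)
  · intro x w i
    simp only [h.perF]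
  · intro x y w hxy
    simp only [h.plF x y w hxy]

private lemma au_gb (hP : P.Ok) (h : FS e F G) : AuA e (gb P.R P.C₀ F) := by
  have hB := au_bet hP h
  refine ⟨((chi_cont P.R).comp continuous_snd).mul hB.cont, ?_, ?_, ?_⟩
  · intro N
    obtain ⟨C, hC⟩ := hB.dec N
    refine ⟨C, fun x w => le_trans ?_ (hC x w)⟩
    have hw : 0 < 1 + ‖w‖ := w_pos w
    refine mul_le_mul_of_nonneg_left ?_ (by positivity)
    unfold gb
    rw [abs_mul, abs_of_nonneg (chi_nonneg _ _)]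
    exact mul_le_of_le_one_left (abs_nonneg _) (chi_le_one _ _)
  · intro x w i
    unfold gb
    rw [h.perF]
  · intro x y w hxy
    unfold gb
    rw [h.plF x y w hxy]

private lemma au_H (hP : P.Ok) (h : FS e F G) : AuA e fun x w => F x w - gb P.R P.C₀ F x w := by
  have aF := au_F h
  have a1 := au_gb hP h
  refine ⟨aF.cont.sub a1.cont, ?_, ?_, ?_⟩
  · intro N
    obtain ⟨C, hC⟩ := aF.dec N
    obtain ⟨C', hC'⟩ := a1.dec N
    refine ⟨C + C', fun x w => ?_⟩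
    have hw : 0 < 1 + ‖w‖ := w_pos w
    calc (1 + ‖w‖) ^ N * |F x w - gb P.R P.C₀ F x w|
        ≤ (1 + ‖w‖) ^ N * (|F x w| + |gb P.R P.C₀ F x w|) :=
          mul_le_mul_of_nonneg_left (abs_sub _ _) (by positivity)
      _ = (1 + ‖w‖) ^ N * |F x w| + (1 + ‖w‖) ^ N * |gb P.R P.C₀ F x w| := by ring
      _ ≤ C + C' := add_le_add (hC x w) (hC' x w)
  · intro x w i
    simp only [aF.per, a1.per]
  · intro x y w hxy
    simp only [aF.pl x y w hxy, a1.pl x y w hxy]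

/-- the mass with weight `jb` -/
private lemma au_mass (hP : P.Ok) (h : FS e F G)
    (h2 : ∫ p, (F p.2 p.1 - gb P.R P.C₀ F p.2 p.1) * jb p.1 ^ (1 + P.a) ∂(nu d) ≤ ε₂) :
    ∫ p, jb p.1 * (F p.2 p.1 - gb P.R P.C₀ F p.2 p.1) ∂(nu d) ≤ ε₂ := by
  refine le_trans ?_ h2
  have i1 := au_nu (au_H hP h) au_jb 0
  have i2 := au_nu (au_H hP h) (au_jbr (r := 1 + P.a)) 0
  have e2 : ∫ p, (F p.2 p.1 - gb P.R P.C₀ F p.2 p.1) * jb p.1 ^ (1 + P.a) ∂(nu d) =
      ∫ p, jb p.1 ^ (1 + P.a) * (F p.2 p.1 - gb P.R P.C₀ F p.2 p.1) ∂(nu d) := by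
    congr 1
    funext p
    ring
  rw [e2]
  refine integral_mono i1 i2 fun p => ?_
  have h3 := au_gb_le hP h p.2 p.1
  refine mul_le_mul_of_nonneg_right ?_ (sub_nonneg.2 h3)
  calc jb p.1 = jb p.1 ^ (1 : ℝ) := (Real.rpow_one _).symm
    _ ≤ jb p.1 ^ (1 + P.a) :=
      Real.rpow_le_rpow_of_exponent_le (one_le_jb _) (by linarith [hP.ha])

/-- the basic estimate -/
private lemma au_key (hP : P.Ok) (h : FS e F G)
    (h2 : ∫ p, (F p.2 p.1 - gb P.R P.C₀ F p.2 p.1) * jb p.1 ^ (1 + P.a) ∂(nu d) ≤ ε₂)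
    {Φ Ψ : Vec d → Vec d → ℝ} (hΦ : PGW Φ) (hΨ : PGW Ψ) {c : ℝ} (v : Vec d) (hc : 0 ≤ c)
    (b1 : ∀ w, |Φ v w| ≤ c * jb w) (b2 : ∀ w, |Ψ v w| ≤ c * jb w) (x : Vec d) :
    |pot e 1 Φ (fun x w => F x w - gb P.R P.C₀ F x w) x v +
      avn Ψ (fun x w => F x w - gb P.R P.C₀ F x w) v| ≤ 3 / 2 * (c * ε₂) := by
  have hH := au_H hP h
  have hm := au_mass hP h h2
  have hpos : ∀ x w, 0 ≤ F x w - gb P.R P.C₀ F x w := fun x w => sub_nonneg.2 (au_gb_le hP h x w)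
  set H : Vec d → Vec d → ℝ := fun x w => F x w - gb P.R P.C₀ F x w with hHdef
  have ij := au_nu hH au_jb 0
  have hJ : PlF e fun x => ∫ w, jb w * H x w := au_pl hH au_jb 0
  have eJ : ∫ p, jb p.1 * H p.2 p.1 ∂(nu d) = ∫ y, (∫ w, jb w * H y w) ∂(muD d) :=
    Pool.Agent.H15.AV.nu_integral ij
  have hJ0 : ∀ y, 0 ≤ ∫ w, jb w * H y w := fun y =>
    integral_nonneg fun w => mul_nonneg (jb_pos w).le (hpos y w)
  have hloc : loc e 1 (fun y => ∫ w, jb w * H y w) x ≤ ε₂ :=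
    (loc_le hJ hJ0 one_pos le_rfl x).trans (by rw [← eJ]; exact hm)
  have p1 : |pot e 1 Φ H x v| ≤ 1 / 2 * (c * ε₂) := by
    unfold pot
    have hw : ∀ y, |∫ w, Φ v w * H y w| ≤ c * ∫ w, jb w * H y w := by
      intro y
      refine abs_integral_le_integral_abs.trans ?_
      rw [← integral_const_mul]
      refine integral_mono (au_int hH hΦ y v).abs ((au_int hH au_jb y 0).const_mul c) fun w => ?_
      show |Φ v w * H y w| ≤ c * (jb w * H y w)
      rw [abs_mul, abs_of_nonneg (hpos y w), ← mul_assoc]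
      exact mul_le_mul_of_nonneg_right (b1 w) (hpos y w)
    have h1 : ‖∫ z in Ioo (-((1 : ℝ) / 2)) (1 / 2), kl 1 z * ∫ w, Φ v w * H (x - Pi.single e z) w‖ ≤
        ∫ z in Ioo (-((1 : ℝ) / 2)) (1 / 2), c / 2 * ∫ w, jb w * H (x - Pi.single e z) w := by
      refine norm_integral_le_of_norm_le ((au_lint hJ x).const_mul _) ?_
      refine (ae_restrict_iff' measurableSet_Ioo).2 (Eventually.of_forall fun z hz => ?_)
      rw [norm_mul, Real.norm_eq_abs, Real.norm_eq_abs]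
      calc |kl 1 z| * |∫ w, Φ v w * H (x - Pi.single e z) w|
          ≤ 1 / 2 * (c * ∫ w, jb w * H (x - Pi.single e z) w) :=
            mul_le_mul (kl_abs one_pos hz) (hw _) (abs_nonneg _) (by norm_num)
        _ = c / 2 * ∫ w, jb w * H (x - Pi.single e z) w := by ring
    rw [integral_const_mul, Real.norm_eq_abs] at h1
    refine h1.trans ?_
    have h3 := mul_le_mul_of_nonneg_left hloc (show 0 ≤ c / 2 by positivity)
    unfold loc at h3
    refine h3.trans (le_of_eq ?_)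
    ring
  have p2 : |avn Ψ H v| ≤ c * ε₂ := by
    unfold avn
    refine abs_integral_le_integral_abs.trans ?_
    calc ∫ p, |Ψ v p.1 * H p.2 p.1| ∂(nu d) ≤ ∫ p, c * (jb p.1 * H p.2 p.1) ∂(nu d) := by
          refine integral_mono (au_nu hH hΨ v).abs (ij.const_mul c) fun p => ?_
          show |Ψ v p.1 * H p.2 p.1| ≤ c * (jb p.1 * H p.2 p.1)
          rw [abs_mul, abs_of_nonneg (hpos p.2 p.1), ← mul_assoc]
          exact mul_le_mul_of_nonneg_right (b2 p.1) (hpos p.2 p.1)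
      _ = c * ∫ p, jb p.1 * H p.2 p.1 ∂(nu d) := integral_const_mul _ _
      _ ≤ c * ε₂ := mul_le_mul_of_nonneg_left hm hc
  refine (abs_add_le _ _).trans ((add_le_add p1 p2).trans (le_of_eq ?_))
  ring

/-- the main part as the potential of the unbounded part -/
private lemma au_EA (hP : P.Ok) (h : FS e F G) (x v : Vec d) :
    EA P e F x v = P.K * (pot e 1 (PO e P.a P.sg) (fun x w => F x w - gb P.R P.C₀ F x w) x v +
      avn (PE e P.a P.sg) (fun x w => F x w - gb P.R P.C₀ F x w) v) := by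
  have hPO := PO_PGW hP.ha hP.ha1 hP.hsg hP.hsg1 e
  have hPE := PE_PGW hP.ha hP.ha1 hP.hsg hP.hsg1 e
  have aF := au_F h
  have aG := au_gb hP h
  have aB := au_bet hP h
  have eP : pot e 1 (PO e P.a P.sg) (fun x w => F x w - gb P.R P.C₀ F x w) x v =
      pot e 1 (PO e P.a P.sg) F x v -
        pot e 1 (cutW P.R (PO e P.a P.sg)) (fun y w => bet P.C₀ (F y w)) x v := by
    unfold pot
    rw [← integral_sub (au_kl (au_pl aF hPO v) x) (au_kl (au_pl aB (cutW_PGW hPO P.R) v) x)]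
    congr 1
    funext z
    rw [← mul_sub, ← integral_sub (au_int aF hPO _ v) (au_int aB (cutW_PGW hPO P.R) _ v)]
    congr 2
    funext w
    unfold cutW gb
    ring
  have eA : avn (PE e P.a P.sg) (fun x w => F x w - gb P.R P.C₀ F x w) v =
      avn (PE e P.a P.sg) F v - avn (cutW P.R (PE e P.a P.sg)) (fun y w => bet P.C₀ (F y w)) v := by
    unfold avn
    rw [← integral_sub (au_nu aF hPE v) (au_nu aB (cutW_PGW hPE P.R) v)]
    congr 1
    funext p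
    unfold cutW gb
    ring
  rw [eP, eA]
  unfold EA
  ring

theorem EU_abs (hP : P.Ok) (h : FS e F G)
    (h2 : ∫ p, (F p.2 p.1 - gb P.R P.C₀ F p.2 p.1) * jb p.1 ^ (1 + P.a) ∂(nu d) ≤ ε₂)
    (hM : ∫ p, F p.2 p.1 ∂(nu d) ≤ M) (x v : Vec d) :
    |EU P e F x v| ≤ 3 / 2 * (P.K * (2 + x0 P.a P.sg ^ P.a) * ε₂) + P.lam * (2 * P.R₂ * M ^ 2) := by
  have hx : 0 ≤ x0 P.a P.sg ^ P.a :=
    Real.rpow_nonneg (Real.rpow_nonneg hP.hsg.le _) _
  have hPO := PO_PGW hP.ha hP.ha1 hP.hsg hP.hsg1 e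
  have hPE := PE_PGW hP.ha hP.ha1 hP.hsg hP.hsg1 e
  have hab := PO_abs hP.ha hP.ha1 hP.hsg hP.hsg1 e
  have k := au_key hP h h2 hPO hPE (c := 2 + x0 P.a P.sg ^ P.a) v (by linarith)
    (fun w => (hab v w).1) (fun w => (hab v w).2) x
  have kD := ED_abs hP.hR₂ hP.hC₂ h hM x v
  unfold EU
  rw [au_EA hP h]
  refine (abs_add_le _ _).trans (add_le_add ?_ ?_)
  · rw [abs_mul, abs_of_nonneg hP.hK]
    refine (mul_le_mul_of_nonneg_left k hP.hK).trans (le_of_eq ?_)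
    ring
  · rw [abs_mul, abs_of_nonneg hP.hlam]
    exact mul_le_mul_of_nonneg_left kD hP.hlam

theorem EU_osc {a m sg : ℝ} (hm : 0 < m) (hma : m ≤ a) (ha1 : a < 1) (hsg : 0 < sg) (hsg1 : sg ≤ 1) :
    ∃ K' : ℝ, 0 ≤ K' ∧ ∀ P : Pv, P.Ok → P.a = a → P.sg = sg → ∀ (e : Fin d) (F G : Vec d → Vec d → ℝ),
      FS e F G → ∀ ε₂ : ℝ,
      ∫ p, (F p.2 p.1 - gb P.R P.C₀ F p.2 p.1) * jb p.1 ^ (1 + P.a) ∂(nu d) ≤ ε₂ → ∀ x u v : Vec d,
      |EU P e F x u - EU P e F x v| ≤ P.K * K' * ε₂ * mm m v u := by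
  obtain ⟨K₁, hK₁, hosc⟩ := PO_osc (d := d) hm hma ha1 hsg hsg1
  refine ⟨3 / 2 * K₁, by positivity, ?_⟩
  intro P hP ha hsg' e F G h ε₂ h2 x u v
  have hmm : 0 ≤ mm m v u := by
    unfold mm
    refine Real.rpow_nonneg (le_min zero_le_one ?_) _
    have h1 : 0 ≤ nsq (u - v) := sq_nonneg' _
    have h3 : 0 ≤ nsq v := sq_nonneg' _
    positivity
  have hPO := PO_PGW hP.ha hP.ha1 hP.hsg hP.hsg1 e
  have hPE := PE_PGW hP.ha hP.ha1 hP.hsg hP.hsg1 e
  have aH := au_H hP h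
  have k := au_key hP h h2 (au_diff hPO u v) (au_diff hPE u v) (c := K₁ * mm m v u) 0
    (mul_nonneg hK₁ hmm)
    (fun w => by
      have := (hosc e u v w).1
      rw [ha, hsg']
      refine this.trans (le_of_eq ?_)
      ring)
    (fun w => by
      have := (hosc e u v w).2
      rw [ha, hsg']
      refine this.trans (le_of_eq ?_)
      ring) x
  have eP : pot e 1 (fun (_ : Vec d) w => PO e P.a P.sg u w - PO e P.a P.sg v w)
      (fun x w => F x w - gb P.R P.C₀ F x w) x 0 =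
      pot e 1 (PO e P.a P.sg) (fun x w => F x w - gb P.R P.C₀ F x w) x u -
        pot e 1 (PO e P.a P.sg) (fun x w => F x w - gb P.R P.C₀ F x w) x v := by
    unfold pot
    rw [← integral_sub (au_kl (au_pl aH hPO u) x) (au_kl (au_pl aH hPO v) x)]
    congr 1
    funext z
    rw [← mul_sub, ← integral_sub (au_int aH hPO _ u) (au_int aH hPO _ v)]
    congr 2
    funext w
    ring
  have eA : avn (fun (_ : Vec d) w => PE e P.a P.sg u w - PE e P.a P.sg v w)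
      (fun x w => F x w - gb P.R P.C₀ F x w) 0 =
      avn (PE e P.a P.sg) (fun x w => F x w - gb P.R P.C₀ F x w) u -
        avn (PE e P.a P.sg) (fun x w => F x w - gb P.R P.C₀ F x w) v := by
    unfold avn
    rw [← integral_sub (au_nu aH hPE u) (au_nu aH hPE v)]
    congr 1
    funext p
    ring
  have eE : EU P e F x u - EU P e F x v =
      P.K * (pot e 1 (fun (_ : Vec d) w => PO e P.a P.sg u w - PO e P.a P.sg v w)
        (fun x w => F x w - gb P.R P.C₀ F x w) x 0 +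
      avn (fun (_ : Vec d) w => PE e P.a P.sg u w - PE e P.a P.sg v w)
        (fun x w => F x w - gb P.R P.C₀ F x w) 0) := by
    rw [eP, eA]
    unfold EU
    rw [au_EA hP h, au_EA hP h, ED_v e F x u v]
    ring
  rw [eE, abs_mul, abs_of_nonneg hP.hK]
  refine (mul_le_mul_of_nonneg_left k hP.hK).trans (le_of_eq ?_)
  ring

theorem avU_le (hP : P.Ok) (h : FS e F G)
    (h2 : ∫ p, (F p.2 p.1 - gb P.R P.C₀ F p.2 p.1) * jb p.1 ^ (1 + P.a) ∂(nu d) ≤ ε₂)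
    (hM : ∫ p, F p.2 p.1 * jb p.1 ^ 2 ∂(nu d) ≤ M₂) (v : Vec d) :
    0 ≤ avU P e F v ∧ avU P e F v ≤ 4 * P.sg * M₂ + 2 * x0 P.a P.sg ^ P.a * ε₂ := by
  have hx : 0 ≤ x0 P.a P.sg ^ P.a :=
    Real.rpow_nonneg (Real.rpow_nonneg hP.hsg.le _) _
  have hPO := PO_PGW hP.ha hP.ha1 hP.hsg hP.hsg1 e
  have hV := V_PO hP.ha hP.ha1 hP.hsg hP.hsg1 e v
  have hH := au_H hP h
  have hm := au_mass hP h h2
  have hpos : ∀ x w, 0 ≤ F x w - gb P.R P.C₀ F x w := fun x w => sub_nonneg.2 (au_gb_le hP h x w)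
  have i1 := au_nu hH au_jb 0
  have i2 := au_nu (au_F h) au_jb2 0
  have i0 := au_nu hH (hPO.vmul e) v
  refine ⟨integral_nonneg fun p => mul_nonneg (hV p.1).1 (hpos p.2 p.1), ?_⟩
  unfold avU
  have eM : ∫ p, F p.2 p.1 * jb p.1 ^ 2 ∂(nu d) = ∫ p, jb p.1 ^ 2 * F p.2 p.1 ∂(nu d) := by
    congr 1
    funext p
    ring
  rw [eM] at hM
  calc ∫ p, (v e - p.1 e) * PO e P.a P.sg v p.1 * (F p.2 p.1 - gb P.R P.C₀ F p.2 p.1) ∂(nu d)
      ≤ ∫ p, (4 * P.sg * (jb p.1 ^ 2 * F p.2 p.1) +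
          2 * x0 P.a P.sg ^ P.a * (jb p.1 * (F p.2 p.1 - gb P.R P.C₀ F p.2 p.1))) ∂(nu d) := by
        refine integral_mono i0 ((i2.const_mul _).add (i1.const_mul _)) fun p => ?_
        show (v e - p.1 e) * PO e P.a P.sg v p.1 * (F p.2 p.1 - gb P.R P.C₀ F p.2 p.1) ≤
          4 * P.sg * (jb p.1 ^ 2 * F p.2 p.1) +
          2 * x0 P.a P.sg ^ P.a * (jb p.1 * (F p.2 p.1 - gb P.R P.C₀ F p.2 p.1))
        have h3 := mul_le_mul_of_nonneg_right (hV p.1).2 (hpos p.2 p.1)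
        have h4 := au_gb_nonneg hP h p.2 p.1
        have hs := hP.hsg
        have h5 : 0 ≤ 4 * P.sg * jb p.1 ^ 2 * gb P.R P.C₀ F p.2 p.1 := by positivity
        calc (v e - p.1 e) * PO e P.a P.sg v p.1 * (F p.2 p.1 - gb P.R P.C₀ F p.2 p.1)
            ≤ (4 * P.sg * jb p.1 ^ 2 + 2 * x0 P.a P.sg ^ P.a * jb p.1) *
              (F p.2 p.1 - gb P.R P.C₀ F p.2 p.1) := h3
          _ = 4 * P.sg * (jb p.1 ^ 2 * F p.2 p.1) - 4 * P.sg * jb p.1 ^ 2 * gb P.R P.C₀ F p.2 p.1 +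
              2 * x0 P.a P.sg ^ P.a * (jb p.1 * (F p.2 p.1 - gb P.R P.C₀ F p.2 p.1)) := by ring
          _ ≤ _ := by linarith
    _ = 4 * P.sg * (∫ p, jb p.1 ^ 2 * F p.2 p.1 ∂(nu d)) +
          2 * x0 P.a P.sg ^ P.a * ∫ p, jb p.1 * (F p.2 p.1 - gb P.R P.C₀ F p.2 p.1) ∂(nu d) := by
        rw [integral_add (i2.const_mul _) (i1.const_mul _), integral_const_mul, integral_const_mul]
    _ ≤ 4 * P.sg * M₂ + 2 * x0 P.a P.sg ^ P.a * ε₂ := by
        have hs := hP.hsg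
        exact add_le_add (mul_le_mul_of_nonneg_left hM (by positivity))
          (mul_le_mul_of_nonneg_left hm (by positivity))

end Pool.Agent.H48.PV
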