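import Pool.Agent.H85.UP.Defs
import Pool.Agent.H48.PW.OmD
import Pool.Agent.H48.PL.SP

/-!
# Module WtU: the weights `PO`, `PE` (block F0 of P-UP)

`om = omU v w = (<w>^2/(<v>^2+<w>^2))^2`, `RR v w ^ 2 = jb v ^ 2 + jb w ^ 2`, `N(x) = min(x₊^a, x₀^a)`, `x₀ = x0 a sg ≥ 1`, `x₀^(1-a) = 1/sg`; `PO v w = om (sg V_e + N(V_e) - N(-V_e))`, `V_e = v e - w e`, `2 PE v w = om (sg |V_e| + N(V_e) + N(-V_e))`
(one of the two `N` vanishes). Elementary: `om ≤ 1`, `om RR ≤ jb w`, `om RR^2 ≤ jb w ^ 2` (`jb w ≤ RR`), `om jb v ≤ jb w`, `|V_e| ≤ jb v + jb w ≤ 2 RR`, `V_e^2 ≤ 2 RR^2`, `|N(x)-N(y)| ≤ 2 x₀^a |x-y|^m` for `0 < m ≤ a` (`|x-y| ≤ 1`: `|x-y|^a ≤ |x-y|^m`; otherwise `N ≤ x₀^a`).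
* `PO_PGW`, `PE_PGW`: continuity (`RR > 0`), growth.
* `V_PhS_le`: `PhS v w = min(1,<w>/<v>)^4 V_e |V|^(a-1)`, `min(1,<w>/<v>)^4 ≤ 4 om`, `V_e^2 |V|^(a-1) ≤ |V_e|^(1+a)` (`|V_e| ≤ |V|`, both sides `0` if `V_e = 0`), `|V_e|^(1+a) ≤ sg V_e^2 + |V_e| N(|V_e|)` (`|V_e| ≤ x₀`: second term; otherwise `sg |V_e|^(1-a) ≥ 1`).
* `V_PO`: `V_e PO = om (sg V_e^2 + |V_e| N(|V_e|))`. * `PO_abs`. -/

set_option autoImplicit false

open MeasureTheory Set Filter Topology Pool.Agent.H25.Kin Pool.Agent.H82.BK Pool.Agent.H82.CM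
open Pool.Agent.H48.PL Pool.Agent.H48.PI Pool.Agent.H48.PW Pool.Agent.H85.UP
open Pool.Agent.H15.AV (UNice gau)

namespace Pool.Agent.H48.PV

variable {d : ℕ} {a m sg : ℝ}

private lemma omU_nonneg (v w : Vec d) : 0 ≤ omU v w := sq_nonneg _

/-- `jb w / RR v w` is at most one -/
private lemma quot_le (v w : Vec d) : jb w / RR v w ≤ 1 :=
  (div_le_one (RR_pos v w)).2 (jb_le_RR_right v w)

private lemma quot_nonneg (v w : Vec d) : 0 ≤ jb w / RR v w :=
  div_nonneg (jb_pos w).le (RR_pos v w).le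

private lemma omU_eq (v w : Vec d) : omU v w = (jb w / RR v w) ^ 4 := by
  unfold omU
  rw [← div_pow, ← pow_mul]

private lemma omU_le_one (v w : Vec d) : omU v w ≤ 1 := by
  rw [omU_eq]
  exact pow_le_one₀ (quot_nonneg v w) (quot_le v w)

private lemma omU_RR (v w : Vec d) : omU v w * RR v w ≤ jb w := by
  have h0 := quot_nonneg v w
  have h1 := quot_le v w
  have hR := RR_pos v w
  rw [omU_eq]
  have h2 : (jb w / RR v w) ^ 4 ≤ (jb w / RR v w) ^ 1 := pow_le_pow_of_le_one h0 h1 (by norm_num)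
  rw [pow_one] at h2
  calc (jb w / RR v w) ^ 4 * RR v w ≤ jb w / RR v w * RR v w := mul_le_mul_of_nonneg_right h2 hR.le
    _ = jb w := div_mul_cancel₀ _ hR.ne'

private lemma omU_RR2 (v w : Vec d) : omU v w * RR v w ^ 2 ≤ jb w ^ 2 := by
  have h0 := quot_nonneg v w
  have h1 := quot_le v w
  have hR := RR_pos v w
  rw [omU_eq]
  have h2 : (jb w / RR v w) ^ 4 ≤ (jb w / RR v w) ^ 2 := pow_le_pow_of_le_one h0 h1 (by norm_num)
  calc (jb w / RR v w) ^ 4 * RR v w ^ 2 ≤ (jb w / RR v w) ^ 2 * RR v w ^ 2 :=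
        mul_le_mul_of_nonneg_right h2 (by positivity)
    _ = jb w ^ 2 := by rw [← mul_pow, div_mul_cancel₀ _ hR.ne']

private lemma abs_V_le (e : Fin d) (v w : Vec d) : |v e - w e| ≤ 2 * RR v w := by
  have h := abs_coord_le (v - w) e
  rw [Pi.sub_apply] at h
  exact h.trans (len_le_RR v w)

private lemma om_abs (e : Fin d) (v w : Vec d) : omU v w * |v e - w e| ≤ 2 * jb w := by
  have h1 := mul_le_mul_of_nonneg_left (abs_V_le e v w) (omU_nonneg v w)
  have h2 := omU_RR v w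
  linarith

private lemma om_sq (e : Fin d) (v w : Vec d) : omU v w * |v e - w e| ^ 2 ≤ 4 * jb w ^ 2 := by
  have h0 : |v e - w e| ^ 2 ≤ (2 * RR v w) ^ 2 := pow_le_pow_left₀ (abs_nonneg _) (abs_V_le e v w) 2
  have h1 := mul_le_mul_of_nonneg_left h0 (omU_nonneg v w)
  have h2 := omU_RR2 v w
  calc omU v w * |v e - w e| ^ 2 ≤ omU v w * (2 * RR v w) ^ 2 := h1
    _ = 4 * (omU v w * RR v w ^ 2) := by ring
    _ ≤ 4 * jb w ^ 2 := by linarith

private lemma x0_nonneg (hsg : 0 < sg) : 0 ≤ x0 a sg := by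
  unfold x0
  exact Real.rpow_nonneg hsg.le _

private lemma A_nonneg (hsg : 0 < sg) : 0 ≤ x0 a sg ^ a := Real.rpow_nonneg (x0_nonneg hsg) _

private lemma Hh_neg (ha : 0 < a) (hsg : 0 < sg) {x : ℝ} (hx : x ≤ 0) : Hh a sg x = 0 := by
  unfold Hh
  rw [max_eq_right hx, Real.zero_rpow ha.ne', min_eq_left (A_nonneg hsg)]
  ring

private lemma Hh_pos {x : ℝ} (hx : 0 ≤ x) : Hh a sg x = sg * x + min (x ^ a) (x0 a sg ^ a) := by
  unfold Hh
  rw [max_eq_left hx]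

private lemma Hh_abs_nonneg (hsg : 0 < sg) (x : ℝ) : 0 ≤ sg * |x| + min (|x| ^ a) (x0 a sg ^ a) := by
  have h1 : 0 ≤ |x| ^ a := Real.rpow_nonneg (abs_nonneg x) _
  have h2 := A_nonneg (a := a) hsg
  have h3 : 0 ≤ min (|x| ^ a) (x0 a sg ^ a) := le_min h1 h2
  have h4 := mul_nonneg hsg.le (abs_nonneg x)
  linarith

private lemma Hh_diff (ha : 0 < a) (hsg : 0 < sg) (x : ℝ) :
    |Hh a sg x - Hh a sg (-x)| = sg * |x| + min (|x| ^ a) (x0 a sg ^ a) ∧
    Hh a sg x + Hh a sg (-x) = sg * |x| + min (|x| ^ a) (x0 a sg ^ a) ∧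
    x * (Hh a sg x - Hh a sg (-x)) = |x| * (sg * |x| + min (|x| ^ a) (x0 a sg ^ a)) := by
  have h0 := Hh_abs_nonneg (a := a) hsg x
  rcases le_total 0 x with hx | hx
  · rw [Hh_neg ha hsg (neg_nonpos.2 hx), Hh_pos hx]
    rw [abs_of_nonneg hx] at h0 ⊢
    refine ⟨?_, ?_, ?_⟩
    · rw [sub_zero, abs_of_nonneg h0]
    · rw [add_zero]
    · rw [sub_zero]
  · rw [Hh_neg ha hsg hx, Hh_pos (neg_nonneg.2 hx)]
    rw [abs_of_nonpos hx] at h0 ⊢
    refine ⟨?_, ?_, ?_⟩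
    · rw [zero_sub, abs_neg, abs_of_nonneg h0]
    · rw [zero_add]
    · rw [zero_sub]; ring

private lemma PO_eq (e : Fin d) (v w : Vec d) :
    PO e a sg v w = omU v w * (Hh a sg (v e - w e) - Hh a sg (-(v e - w e))) := by
  unfold PO Pool.Agent.H85.UP.PP PM
  rw [neg_sub]
  ring

private lemma PE_eq (e : Fin d) (v w : Vec d) :
    PE e a sg v w = omU v w * (Hh a sg (v e - w e) + Hh a sg (-(v e - w e))) / 2 := by
  unfold PE Pool.Agent.H85.UP.PP PM
  rw [neg_sub]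
  ring

private lemma om_Hh (hsg : 0 < sg) (hsg1 : sg ≤ 1) (e : Fin d) (v w : Vec d) :
    omU v w * (sg * |v e - w e| + min (|v e - w e| ^ a) (x0 a sg ^ a)) ≤ (2 + x0 a sg ^ a) * jb w := by
  have h1 := om_abs e v w
  have h2 := A_nonneg (a := a) hsg
  have h3 := min_le_right (|v e - w e| ^ a) (x0 a sg ^ a)
  have h4 := omU_nonneg v w
  have h5 := omU_le_one v w
  have h6 := one_le_jb w
  have h7 : sg * (omU v w * |v e - w e|) ≤ 1 * (omU v w * |v e - w e|) :=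
    mul_le_mul_of_nonneg_right hsg1 (mul_nonneg h4 (abs_nonneg _))
  have h8 : omU v w * min (|v e - w e| ^ a) (x0 a sg ^ a) ≤ 1 * x0 a sg ^ a :=
    mul_le_mul h5 h3 (le_min (Real.rpow_nonneg (abs_nonneg _) _) h2) zero_le_one
  have h9 : 1 * x0 a sg ^ a ≤ jb w * x0 a sg ^ a := mul_le_mul_of_nonneg_right h6 h2
  calc omU v w * (sg * |v e - w e| + min (|v e - w e| ^ a) (x0 a sg ^ a))
      = sg * (omU v w * |v e - w e|) + omU v w * min (|v e - w e| ^ a) (x0 a sg ^ a) := by ring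
    _ ≤ (2 + x0 a sg ^ a) * jb w := by linarith

private lemma omU_cont : Continuous fun p : Vec d × Vec d => omU p.1 p.2 := by
  unfold omU
  refine Continuous.pow (Continuous.div ((jb_cont.comp continuous_snd).pow 2) (RR_cont.pow 2) ?_) 2
  intro p
  exact pow_ne_zero 2 (RR_pos p.1 p.2).ne'

private lemma Hh_cont (ha : 0 < a) : Continuous (Hh a sg) := by
  unfold Hh
  have h1 : Continuous fun x : ℝ => max x 0 := continuous_id.max continuous_const
  exact (continuous_const.mul h1).add ((h1.rpow_const fun x => Or.inr ha.le).min continuous_const)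

private lemma coord_cont (e : Fin d) : Continuous fun p : Vec d × Vec d => p.1 e - p.2 e :=
  ((continuous_apply e).comp continuous_fst).sub ((continuous_apply e).comp continuous_snd)

private lemma growth {A : ℝ} (hA : 0 ≤ A) (v w : Vec d) :
    A * jb w ≤ A * ((d : ℝ) + 1) * ((1 + ‖v‖) ^ 1 * (1 + ‖w‖) ^ 1) := by
  have h1 := jb_le_w w
  have hv := norm_nonneg v
  have hw := norm_nonneg w
  have h2 : (1 + ‖w‖) ≤ (1 + ‖v‖) * (1 + ‖w‖) := le_mul_of_one_le_left (by linarith) (by linarith)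
  rw [pow_one, pow_one]
  calc A * jb w ≤ A * (((d : ℝ) + 1) * (1 + ‖w‖)) := mul_le_mul_of_nonneg_left h1 hA
    _ ≤ A * (((d : ℝ) + 1) * ((1 + ‖v‖) * (1 + ‖w‖))) :=
        mul_le_mul_of_nonneg_left (mul_le_mul_of_nonneg_left h2 (by positivity)) hA
    _ = A * ((d : ℝ) + 1) * ((1 + ‖v‖) * (1 + ‖w‖)) := by ring

lemma PO_abs (ha : 0 < a) (ha1 : a < 1) (hsg : 0 < sg) (hsg1 : sg ≤ 1) (e : Fin d) (v w : Vec d) :
    |PO e a sg v w| ≤ (2 + x0 a sg ^ a) * jb w ∧ |PE e a sg v w| ≤ (2 + x0 a sg ^ a) * jb w := by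
  have _ := ha1
  obtain ⟨h1, h2, -⟩ := Hh_diff ha hsg (v e - w e)
  have h3 := om_Hh (a := a) hsg hsg1 e v w
  have h4 := omU_nonneg v w
  have h5 := mul_nonneg h4 (Hh_abs_nonneg (a := a) hsg (v e - w e))
  constructor
  · rw [PO_eq, abs_mul, h1, abs_of_nonneg h4]
    exact h3
  · rw [PE_eq, h2, abs_of_nonneg (by linarith)]
    linarith

lemma PO_PGW (ha : 0 < a) (ha1 : a < 1) (hsg : 0 < sg) (hsg1 : sg ≤ 1) (e : Fin d) : PGW (PO e a sg) := by
  have hA := A_nonneg (a := a) hsg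
  refine ⟨?_, 1, (2 + x0 a sg ^ a) * ((d : ℝ) + 1), by positivity, fun v w =>
    (PO_abs ha ha1 hsg hsg1 e v w).1.trans (growth (by linarith) v w)⟩
  have h : (fun p : Vec d × Vec d => PO e a sg p.1 p.2) =
      fun p => omU p.1 p.2 * (Hh a sg (p.1 e - p.2 e) - Hh a sg (-(p.1 e - p.2 e))) := by
    funext p
    exact PO_eq e p.1 p.2
  rw [h]
  exact omU_cont.mul (((Hh_cont ha).comp (coord_cont e)).sub ((Hh_cont ha).comp (coord_cont e).neg))

lemma PE_PGW (ha : 0 < a) (ha1 : a < 1) (hsg : 0 < sg) (hsg1 : sg ≤ 1) (e : Fin d) : PGW (PE e a sg) := by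
  have hA := A_nonneg (a := a) hsg
  refine ⟨?_, 1, (2 + x0 a sg ^ a) * ((d : ℝ) + 1), by positivity, fun v w =>
    (PO_abs ha ha1 hsg hsg1 e v w).2.trans (growth (by linarith) v w)⟩
  have h : (fun p : Vec d × Vec d => PE e a sg p.1 p.2) =
      fun p => omU p.1 p.2 * (Hh a sg (p.1 e - p.2 e) + Hh a sg (-(p.1 e - p.2 e))) / 2 := by
    funext p
    exact PE_eq e p.1 p.2
  rw [h]
  exact (omU_cont.mul
    (((Hh_cont ha).comp (coord_cont e)).add ((Hh_cont ha).comp (coord_cont e).neg))).div_const 2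

/-- the value of `V_e PO` -/
private lemma V_PO_eq (ha : 0 < a) (hsg : 0 < sg) (e : Fin d) (v w : Vec d) :
    (v e - w e) * PO e a sg v w =
      omU v w * (|v e - w e| * (sg * |v e - w e| + min (|v e - w e| ^ a) (x0 a sg ^ a))) := by
  obtain ⟨-, -, h3⟩ := Hh_diff ha hsg (v e - w e)
  rw [PO_eq]
  calc (v e - w e) * (omU v w * (Hh a sg (v e - w e) - Hh a sg (-(v e - w e))))
      = omU v w * ((v e - w e) * (Hh a sg (v e - w e) - Hh a sg (-(v e - w e)))) := by ring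
    _ = _ := by rw [h3]

/-- comparison of the two cut-offs -/
private lemma cut_le (v w : Vec d) : min 1 (jb w / jb v) ^ 4 ≤ 4 * omU v w := by
  have hv := jb_pos v
  have hw := jb_pos w
  have h0 : 0 ≤ min 1 (jb w / jb v) := le_min zero_le_one (div_nonneg hw.le hv.le)
  have h1 : min 1 (jb w / jb v) ^ 2 ≤ 2 * (jb w ^ 2 / RR v w ^ 2) := by
    rw [RR_sq, ← mul_div_assoc, le_div_iff₀ (by positivity)]
    rcases le_total 1 (jb w / jb v) with h | h
    · rw [min_eq_left h]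
      rw [one_le_div hv] at h
      have : jb v ^ 2 ≤ jb w ^ 2 := pow_le_pow_left₀ hv.le h 2
      linarith
    · rw [min_eq_right h, div_pow]
      rw [div_le_one hv] at h
      have h2 : jb w ^ 2 ≤ jb v ^ 2 := pow_le_pow_left₀ hw.le h 2
      have h3 : jb w ^ 2 / jb v ^ 2 ≤ 1 := (div_le_one (by positivity)).2 h2
      have h4 : jb w ^ 2 / jb v ^ 2 * jb v ^ 2 = jb w ^ 2 := div_mul_cancel₀ _ (by positivity)
      have h5 : jb w ^ 2 / jb v ^ 2 * jb w ^ 2 ≤ 1 * jb w ^ 2 := mul_le_mul_of_nonneg_right h3 (by positivity)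
      rw [mul_add, h4]
      linarith
  have h2 : (min 1 (jb w / jb v) ^ 2) ^ 2 ≤ (2 * (jb w ^ 2 / RR v w ^ 2)) ^ 2 :=
    pow_le_pow_left₀ (by positivity) h1 2
  rw [← pow_mul] at h2
  unfold omU
  calc min 1 (jb w / jb v) ^ 4 ≤ (2 * (jb w ^ 2 / RR v w ^ 2)) ^ 2 := h2
    _ = 4 * (jb w ^ 2 / RR v w ^ 2) ^ 2 := by ring

/-- the profile dominates the power -/
private lemma prof_le (ha : 0 < a) (ha1 : a < 1) (hsg : 0 < sg) {x : ℝ} (hx : 0 < x) :
    x ^ (1 + a) ≤ x * (sg * x + min (x ^ a) (x0 a sg ^ a)) := by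
  have h1 : x ^ (1 + a) = x * x ^ a := by rw [Real.rpow_add hx, Real.rpow_one]
  rw [h1]
  refine mul_le_mul_of_nonneg_left ?_ hx.le
  have hx0 : 0 < x0 a sg := by unfold x0; exact Real.rpow_pos_of_pos hsg _
  have hA : 0 < x0 a sg ^ a := Real.rpow_pos_of_pos hx0 _
  have hxs := mul_pos hsg hx
  rcases le_total x (x0 a sg) with h2 | h2
  · have h3 : x ^ a ≤ x0 a sg ^ a := Real.rpow_le_rpow hx.le h2 ha.le
    rw [min_eq_left h3]
    linarith
  · have h3 : (x0 a sg) ^ (1 - a) = sg⁻¹ := by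
      unfold x0
      rw [← Real.rpow_mul hsg.le]
      have h5 : -(1 / (1 - a)) * (1 - a) = -1 := by
        have h6 : (1 - a) ≠ 0 := by linarith
        field_simp
      rw [h5, Real.rpow_neg_one]
    have h4 : sg⁻¹ ≤ x ^ (1 - a) := by
      rw [← h3]
      exact Real.rpow_le_rpow hx0.le h2 (by linarith)
    have h5 : x = x ^ a * x ^ (1 - a) := by
      rw [← Real.rpow_add hx]
      have h6 : a + (1 - a) = 1 := by ring
      rw [h6, Real.rpow_one]
    have hxa : 0 < x ^ a := Real.rpow_pos_of_pos hx _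
    have h6 : x ^ a ≤ sg * x := by
      calc x ^ a = x ^ a * (sg * sg⁻¹) := by rw [mul_inv_cancel₀ hsg.ne', mul_one]
        _ ≤ x ^ a * (sg * x ^ (1 - a)) :=
            mul_le_mul_of_nonneg_left (mul_le_mul_of_nonneg_left h4 hsg.le) hxa.le
        _ = sg * (x ^ a * x ^ (1 - a)) := by ring
        _ = sg * x := by rw [← h5]
    have h7 : 0 ≤ min (x ^ a) (x0 a sg ^ a) := le_min hxa.le hA.le
    linarith

lemma V_PhS_le (ha : 0 < a) (ha1 : a < 1) (hsg : 0 < sg) (hsg1 : sg ≤ 1) (e : Fin d) (v w : Vec d) :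
    (v e - w e) * PhS e a v w ≤ 4 * ((v e - w e) * PO e a sg v w) := by
  have _ := hsg1
  rw [V_PO_eq ha hsg]
  unfold PhS phi
  have hom := omU_nonneg v w
  have hc := cut_le v w
  have hpr := Hh_abs_nonneg (a := a) hsg (v e - w e)
  by_cases hx : v e - w e = 0
  · rw [hx]
    simp only [zero_mul, abs_zero, mul_zero, le_refl]
  · have hxp : 0 < |v e - w e| := abs_pos.2 hx
    have hxl : |v e - w e| ≤ len (v - w) := by
      have h := abs_coord_le (v - w) e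
      rwa [Pi.sub_apply] at h
    have h1 : len (v - w) ^ (a - 1) ≤ |v e - w e| ^ (a - 1) :=
      Real.rpow_le_rpow_of_nonpos hxp hxl (by linarith)
    have h2 : |v e - w e| ^ 2 * |v e - w e| ^ (a - 1) = |v e - w e| ^ (1 + a) := by
      rw [← Real.rpow_natCast, ← Real.rpow_add hxp]
      congr 1
      push_cast
      ring
    have h3 := prof_le ha ha1 hsg hxp
    have h0 : 0 ≤ min 1 (jb w / jb v) ^ 4 :=
      pow_nonneg (le_min zero_le_one (div_nonneg (jb_pos w).le (jb_pos v).le)) _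
    have hl : 0 ≤ len (v - w) ^ (a - 1) := Real.rpow_nonneg (len_nonneg _) _
    calc (v e - w e) * (min 1 (jb w / jb v) ^ 4 * ((v - w) e * len (v - w) ^ (a - 1)))
        = min 1 (jb w / jb v) ^ 4 * (|v e - w e| ^ 2 * len (v - w) ^ (a - 1)) := by
          rw [Pi.sub_apply, sq_abs]; ring
      _ ≤ min 1 (jb w / jb v) ^ 4 * (|v e - w e| ^ 2 * |v e - w e| ^ (a - 1)) :=
          mul_le_mul_of_nonneg_left (mul_le_mul_of_nonneg_left h1 (by positivity)) h0
      _ = min 1 (jb w / jb v) ^ 4 * |v e - w e| ^ (1 + a) := by rw [h2]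
      _ ≤ (4 * omU v w) * |v e - w e| ^ (1 + a) :=
          mul_le_mul_of_nonneg_right hc (Real.rpow_nonneg hxp.le _)
      _ ≤ (4 * omU v w) * (|v e - w e| * (sg * |v e - w e| + min (|v e - w e| ^ a) (x0 a sg ^ a))) :=
          mul_le_mul_of_nonneg_left h3 (by linarith)
      _ = _ := by ring

lemma V_PO (ha : 0 < a) (ha1 : a < 1) (hsg : 0 < sg) (hsg1 : sg ≤ 1) (e : Fin d) (v w : Vec d) :
    0 ≤ (v e - w e) * PO e a sg v w ∧
    (v e - w e) * PO e a sg v w ≤ 4 * sg * jb w ^ 2 + 2 * x0 a sg ^ a * jb w := by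
  have _ := ha1
  have _ := hsg1
  rw [V_PO_eq ha hsg]
  have hom := omU_nonneg v w
  have hpr := Hh_abs_nonneg (a := a) hsg (v e - w e)
  have hA := A_nonneg (a := a) hsg
  refine ⟨mul_nonneg hom (mul_nonneg (abs_nonneg _) hpr), ?_⟩
  have h1 := om_sq e v w
  have h2 := om_abs e v w
  have h3 := min_le_right (|v e - w e| ^ a) (x0 a sg ^ a)
  have h4 : omU v w * |v e - w e| * min (|v e - w e| ^ a) (x0 a sg ^ a) ≤
      (2 * jb w) * x0 a sg ^ a :=
    mul_le_mul h2 h3 (le_min (Real.rpow_nonneg (abs_nonneg _) _) hA) (by linarith [jb_pos w])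
  have h5 : sg * (omU v w * |v e - w e| ^ 2) ≤ sg * (4 * jb w ^ 2) := mul_le_mul_of_nonneg_left h1 hsg.le
  calc omU v w * (|v e - w e| * (sg * |v e - w e| + min (|v e - w e| ^ a) (x0 a sg ^ a)))
      = sg * (omU v w * |v e - w e| ^ 2) +
        omU v w * |v e - w e| * min (|v e - w e| ^ a) (x0 a sg ^ a) := by ring
    _ ≤ 4 * sg * jb w ^ 2 + 2 * x0 a sg ^ a * jb w := by linarith

end Pool.Agent.H48.PV
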