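import Pool.Agent.H48.PW.EWDef
import Pool.Agent.H48.PV.WtU

/-!
# Module EUDef: the weight function of P-UP

`EU = K (pot[PO] F + avn[PE] F) - K (pot[chi_R PO](bet_C₀ F) + avn[chi_R PE](bet_C₀ F)) + lam ED`, `ED = nb pot[w_e chi_R₂](bet_C₂ F) - pb pot[chi_R₂](bet_C₂ F)`, `nb = avn[chi_R₂](bet_C₂ F)`, `pb = avn[w_e chi_R₂](bet_C₂ F)` (the damping potential; it does not depend on `v`).
* `W0_PGW`, `W1_PGW`, `cutW_PGW`: `chi_cont`, `0 ≤ chi ≤ 1`.
* `EU_cont`, `EU_per`: `pot_cont`, `pot_per` (H48/PL, as in PI/EDef.lean for `f` and `bet f`: `bet_sol`, `bet_planar`), `avn_cont` (PW/EWDef). * `EU_char`: `pot_char`, `avn_deriv` (does not depend on `x`), product rule. As `EW_char` in PW/EWDef.lean.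
-/

set_option autoImplicit false

open MeasureTheory Set Filter Topology Pool.Agent.H25.Kin Pool.Agent.H82.BK Pool.Agent.H82.CM
open Pool.Agent.H48.PL Pool.Agent.H48.PI Pool.Agent.H48.PW Pool.Agent.H85.UP
open Pool.Agent.H15.AV (UNice gau)

namespace Pool.Agent.H48.PV

variable {d : ℕ}

/-- the parameters -/
structure Pv where
  a : ℝ
  sg : ℝ
  K : ℝ
  lam : ℝ
  R : ℝ
  C₀ : ℝ
  R₂ : ℝ
  C₂ : ℝ

/-- conditions on the parameters -/
structure Pv.Ok (P : Pv) : Prop where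
  ha : 0 < P.a
  ha1 : P.a < 1
  hsg : 0 < P.sg
  hsg1 : P.sg ≤ 1
  hK : 0 ≤ P.K
  hlam : 0 ≤ P.lam
  hR₂ : 1 ≤ P.R₂
  hR : P.R₂ ≤ P.R
  hC₂ : 0 < P.C₂
  hC : P.C₂ ≤ P.C₀

/-- the bounded part `chi_R bet_C(F)` -/
noncomputable def gb (R C : ℝ) (F : Vec d → Vec d → ℝ) (x w : Vec d) : ℝ := chi R w * bet C (F x w)

/-- cut-off of a weight -/
noncomputable def cutW (R : ℝ) (Φ : Vec d → Vec d → ℝ) (v w : Vec d) : ℝ := chi R w * Φ v w

/-- the weight `chi_R(w)` -/
noncomputable def W0 (R : ℝ) (_v w : Vec d) : ℝ := chi R w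

/-- the weight `chi_R(w) w_e` -/
noncomputable def W1 (e : Fin d) (R : ℝ) (_v w : Vec d) : ℝ := chi R w * w e

/-- the damping potential -/
noncomputable def ED (R C : ℝ) (e : Fin d) (F : Vec d → Vec d → ℝ) (x v : Vec d) : ℝ :=
  avn (W0 R) (fun y w => bet C (F y w)) v * pot e 1 (W1 e R) (fun y w => bet C (F y w)) x v -
    avn (W1 e R) (fun y w => bet C (F y w)) v * pot e 1 (W0 R) (fun y w => bet C (F y w)) x v

/-- its derivative -/
noncomputable def dED (R C : ℝ) (e : Fin d) (F G : Vec d → Vec d → ℝ) (x v : Vec d) : ℝ :=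
  (avn (W0 R) (fun y w => bet' C (F y w) * G y w) v * pot e 1 (W1 e R) (fun y w => bet C (F y w)) x v +
    avn (W0 R) (fun y w => bet C (F y w)) v *
      dpot e 1 (W1 e R) (fun y w => bet C (F y w)) (fun y w => bet' C (F y w) * G y w) x v) -
    (avn (W1 e R) (fun y w => bet' C (F y w) * G y w) v * pot e 1 (W0 R) (fun y w => bet C (F y w)) x v +
    avn (W1 e R) (fun y w => bet C (F y w)) v *
      dpot e 1 (W0 R) (fun y w => bet C (F y w)) (fun y w => bet' C (F y w) * G y w) x v)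

/-- the main part -/
noncomputable def EA (P : Pv) (e : Fin d) (F : Vec d → Vec d → ℝ) (x v : Vec d) : ℝ :=
  P.K * (pot e 1 (PO e P.a P.sg) F x v + avn (PE e P.a P.sg) F v) -
    P.K * (pot e 1 (cutW P.R (PO e P.a P.sg)) (fun y w => bet P.C₀ (F y w)) x v +
      avn (cutW P.R (PE e P.a P.sg)) (fun y w => bet P.C₀ (F y w)) v)

/-- its derivative -/
noncomputable def dEA (P : Pv) (e : Fin d) (F G : Vec d → Vec d → ℝ) (x v : Vec d) : ℝ :=
  P.K * (dpot e 1 (PO e P.a P.sg) F G x v + avn (PE e P.a P.sg) G v) -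
    P.K * (dpot e 1 (cutW P.R (PO e P.a P.sg)) (fun y w => bet P.C₀ (F y w))
        (fun y w => bet' P.C₀ (F y w) * G y w) x v +
      avn (cutW P.R (PE e P.a P.sg)) (fun y w => bet' P.C₀ (F y w) * G y w) v)

/-- the weight function -/
noncomputable def EU (P : Pv) (e : Fin d) (F : Vec d → Vec d → ℝ) (x v : Vec d) : ℝ :=
  EA P e F x v + P.lam * ED P.R₂ P.C₂ e F x v

/-- its derivative along characteristics -/
noncomputable def dEU (P : Pv) (e : Fin d) (F G : Vec d → Vec d → ℝ) (x v : Vec d) : ℝ :=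
  dEA P e F G x v + P.lam * dED P.R₂ P.C₂ e F G x v

/-- the average over the torus of the flux of the unbounded part -/
noncomputable def avU (P : Pv) (e : Fin d) (F : Vec d → Vec d → ℝ) (v : Vec d) : ℝ :=
  ∫ p, (v e - p.1 e) * PO e P.a P.sg v p.1 * (F p.2 p.1 - gb P.R P.C₀ F p.2 p.1) ∂(nu d)

/-- the variance of `w_e` -/
noncomputable def VarU (R C : ℝ) (e : Fin d) (F : Vec d → Vec d → ℝ) : ℝ :=
  (∫ p, gb R C F p.2 p.1 ∂(nu d)) * (∫ p, p.1 e ^ 2 * gb R C F p.2 p.1 ∂(nu d)) -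
    (∫ p, p.1 e * gb R C F p.2 p.1 ∂(nu d)) ^ 2

variable {T : ℝ} {Q f : ℝ → Vec d → Vec d → ℝ} {P : Pv} {R C : ℝ}

lemma W0_PGW (R : ℝ) : PGW (W0 R : Vec d → Vec d → ℝ) := by
  refine ⟨(chi_cont R).comp continuous_snd, 0, 1, zero_le_one, fun v w => ?_⟩
  show |chi R w| ≤ _
  rw [abs_of_nonneg (chi_nonneg R w), pow_zero, pow_zero, mul_one, mul_one]
  exact chi_le_one R w

lemma W1_PGW (e : Fin d) (R : ℝ) : PGW (W1 e R : Vec d → Vec d → ℝ) := by
  have hc : Continuous fun z : Vec d × Vec d => z.2 e := by fun_prop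
  refine ⟨((chi_cont R).comp continuous_snd).mul hc, 1, 1, zero_le_one, fun v w => ?_⟩
  show |chi R w * w e| ≤ _
  rw [abs_mul, abs_of_nonneg (chi_nonneg R w), pow_one, pow_one, one_mul]
  have h1 : |w e| ≤ ‖w‖ := by
    rw [← Real.norm_eq_abs]
    exact norm_le_pi_norm w e
  have h2 : 0 ≤ ‖w‖ := norm_nonneg w
  have h3 : 0 ≤ ‖v‖ := norm_nonneg v
  have h4 : chi R w * |w e| ≤ |w e| := mul_le_of_le_one_left (abs_nonneg _) (chi_le_one R w)
  nlinarith

lemma cutW_PGW {Φ : Vec d → Vec d → ℝ} (h : PGW Φ) (R : ℝ) : PGW (cutW R Φ) := by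
  obtain ⟨N, C, hC0, hC⟩ := h.le
  refine ⟨((chi_cont R).comp continuous_snd).mul h.cont, N, C, hC0, fun v w => ?_⟩
  show |chi R w * Φ v w| ≤ _
  rw [abs_mul, abs_of_nonneg (chi_nonneg R w)]
  exact (mul_le_of_le_one_left (abs_nonneg _) (chi_le_one R w)).trans (hC v w)

private lemma avn_cont3 {Φ : Vec d → Vec d → ℝ} (hf : IsClassicalSol T Q f) (hΦ : PGW Φ) :
    ContinuousOn (unc fun t (_ : Vec d) v => avn Φ (f t) v) (Ico 0 T ×ˢ univ) := by
  have h1 : Continuous fun z : ℝ × Vec d × Vec d => (z.1, z.2.2) := by fun_prop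
  exact (avn_cont hf hΦ).comp h1.continuousOn fun z hz => ⟨hz.1, mem_univ _⟩

private lemma Pv.Ok.hC0 (hP : P.Ok) : 0 < P.C₀ := hP.hC₂.trans_le hP.hC

private lemma ED_cont (hC : 0 < C) (hf : IsClassicalSol T Q f) (e : Fin d) :
    ContinuousOn (unc fun t x v => ED R C e (f t) x v) (Ico 0 T ×ˢ univ) := by
  have hb := bet_sol hC hf
  have h1 := avn_cont3 hb (W0_PGW (d := d) R)
  have h2 := pot_cont hb (W1_PGW e R) e one_pos
  have h3 := avn_cont3 hb (W1_PGW e R)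
  have h4 := pot_cont hb (W0_PGW (d := d) R) e one_pos
  exact (h1.mul h2).sub (h3.mul h4)

private lemma EA_cont (hP : P.Ok) (hf : IsClassicalSol T Q f) (e : Fin d) :
    ContinuousOn (unc fun t x v => EA P e (f t) x v) (Ico 0 T ×ˢ univ) := by
  have hb := bet_sol hP.hC0 hf
  have hO := PO_PGW hP.ha hP.ha1 hP.hsg hP.hsg1 e
  have hE := PE_PGW hP.ha hP.ha1 hP.hsg hP.hsg1 e
  have h1 := pot_cont hf hO e one_pos
  have h2 := avn_cont3 hf hE
  have h3 := pot_cont hb (cutW_PGW hO P.R) e one_pos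
  have h4 := avn_cont3 hb (cutW_PGW hE P.R)
  exact (continuousOn_const.mul (h1.add h2)).sub (continuousOn_const.mul (h3.add h4))

private lemma ED_char (hC : 0 < C) (hf : IsClassicalSol T Q f) {e : Fin d} (hpl : Planar e T f) {t : ℝ}
    (ht : t ∈ Ioo 0 T) (x v : Vec d) :
    HasDerivAt (fun r => ED R C e (f r) (x + r • v) v) (dED R C e (f t) (Q t) (x + t • v) v) t := by
  have hb := bet_sol hC hf
  have hbp : Planar e T fun t x v => bet C (f t x v) := bet_planar hpl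
  have h1 := avn_deriv hb (W0_PGW (d := d) R) ht v
  have h2 := pot_char hb hbp (W1_PGW e R) one_pos ht x v
  have h3 := avn_deriv hb (W1_PGW e R) ht v
  have h4 := pot_char hb hbp (W0_PGW (d := d) R) one_pos ht x v
  exact (h1.mul h2).sub (h3.mul h4)

private lemma EA_char (hP : P.Ok) (hf : IsClassicalSol T Q f) {e : Fin d} (hpl : Planar e T f) {t : ℝ}
    (ht : t ∈ Ioo 0 T) (x v : Vec d) :
    HasDerivAt (fun r => EA P e (f r) (x + r • v) v) (dEA P e (f t) (Q t) (x + t • v) v) t := by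
  have hb := bet_sol hP.hC0 hf
  have hbp : Planar e T fun t x v => bet P.C₀ (f t x v) := bet_planar hpl
  have hO := PO_PGW hP.ha hP.ha1 hP.hsg hP.hsg1 e
  have hE := PE_PGW hP.ha hP.ha1 hP.hsg hP.hsg1 e
  have h1 := pot_char hf hpl hO one_pos ht x v
  have h2 := avn_deriv hf hE ht v
  have h3 := pot_char hb hbp (cutW_PGW hO P.R) one_pos ht x v
  have h4 := avn_deriv hb (cutW_PGW hE P.R) ht v
  exact ((h1.add h2).const_mul P.K).sub ((h3.add h4).const_mul P.K)

lemma ED_v (e : Fin d) (F : Vec d → Vec d → ℝ) (x u v : Vec d) : ED R C e F x u = ED R C e F x v := rfl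

theorem EU_cont (hP : P.Ok) (hf : IsClassicalSol T Q f) (e : Fin d) :
    ContinuousOn (unc fun t x v => EU P e (f t) x v) (Ico 0 T ×ˢ univ) := by
  have h1 := EA_cont hP hf e
  have h2 := ED_cont (R := P.R₂) hP.hC₂ hf e
  exact h1.add (continuousOn_const.mul h2)

lemma EU_per {F : Vec d → Vec d → ℝ} (hF : ∀ x v i, F (x + Pi.single i 1) v = F x v) (e : Fin d)
    (x v : Vec d) (i : Fin d) : EU P e F (x + Pi.single i 1) v = EU P e F x v := by
  have hb : ∀ C : ℝ, ∀ (y w : Vec d) (j : Fin d), (fun y w => bet C (F y w)) (y + Pi.single j 1) w =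
      (fun y w => bet C (F y w)) y w := by
    intro C y w j
    show bet C (F (y + Pi.single j 1) w) = bet C (F y w)
    rw [hF]
  unfold EU EA ED
  rw [pot_per hF, pot_per (hb P.C₀), pot_per (hb P.C₂), pot_per (hb P.C₂)]

theorem EU_char (hP : P.Ok) (hf : IsClassicalSol T Q f) {e : Fin d} (hpl : Planar e T f) {t : ℝ}
    (ht : t ∈ Ioo 0 T) (x v : Vec d) :
    HasDerivAt (fun r => EU P e (f r) (x + r • v) v) (dEU P e (f t) (Q t) (x + t • v) v) t := by
  have h1 := EA_char hP hf hpl ht x v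
  have h2 := ED_char (R := P.R₂) hP.hC₂ hf hpl ht x v
  exact h1.add (h2.const_mul P.lam)

end Pool.Agent.H48.PV
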