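import Pool.Agent.H85.UP.Blk
import Pool.Agent.H25.PT.XWC

/-!
# Module ZuC: the density `Z`, continuity

`zw` is measurable (`thinS`, `ncS` are closed; `Measurable.ite`), `0 ≤ zw ≤ 1` (`len (v-w) ≤ 2 RR v w`, `RR ≥ 1`, `a + q ≤ 2`). `ZS .. univ = XG 1 (zw ..)` (`indicator_univ`), so `XGt_cont`, `XG_pl` (H25/PT/XWC, with `a = 1`) apply. `ZS ≥ 0`.
-/

set_option autoImplicit false

open MeasureTheory Set Filter Topology Pool.Agent.H25.Kin Pool.Agent.H82.BK Pool.Agent.H82.CM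
open Pool.Agent.H48.PL Pool.Agent.H48.PI Pool.Agent.H48.PW Pool.Agent.H85.UP
open Pool.Agent.H15.AV (UNice gau)

namespace Pool.Agent.H48.PV

variable {d : ℕ} {s a m q θ η C Ca cb : ℝ} {b : ℝ → ℝ}

/-- the integral of `Z` over the torus -/
noncomputable def Zu (e : Fin d) (θ η a q : ℝ) (f : ℝ → Vec d → Vec d → ℝ) (t : ℝ) : ℝ :=
  ∫ x, ZS e θ η a q (f t x) univ ∂(muD d)

lemma zw_meas (e : Fin d) (θ η a q : ℝ) : Measurable (zw e θ η a q : Vec d × Vec d → ℝ) := by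
  have hlen : Continuous (len : Vec d → ℝ) := continuous_len
  have hRR : Continuous fun p : Vec d × Vec d => RR p.1 p.2 := RR_cont
  have h1 : MeasurableSet (thinS e θ : Set (Vec d × Vec d)) := by
    apply IsClosed.measurableSet
    apply isClosed_le
    · fun_prop
    · exact continuous_const.mul (hlen.comp (continuous_fst.sub continuous_snd))
  have h2 : MeasurableSet (ncS η : Set (Vec d × Vec d)) := by
    apply IsClosed.measurableSet
    have h3 : IsClosed {p : Vec d × Vec d | len p.1 ≤ η * len p.2} :=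
      isClosed_le (hlen.comp continuous_fst) (continuous_const.mul (hlen.comp continuous_snd))
    have h4 : IsClosed {p : Vec d × Vec d | len p.2 ≤ η * len p.1} :=
      isClosed_le (hlen.comp continuous_snd) (continuous_const.mul (hlen.comp continuous_fst))
    exact h3.union h4
  have h3 : Measurable fun p : Vec d × Vec d => len (p.1 - p.2) / (2 * RR p.1 p.2) :=
    (hlen.comp (continuous_fst.sub continuous_snd)).measurable.div
      (measurable_const.mul hRR.measurable)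
  unfold zw
  exact Measurable.ite h1 ((h3.pow_const _).mul (hRR.measurable.pow_const _))
    (Measurable.ite h2 ((h3.pow_const _).mul (hRR.measurable.pow_const _)) measurable_const)

lemma zw_01 (e : Fin d) (θ η : ℝ) (ha : 0 < a) (hq : 1 < q) (haq : a + q ≤ 2) (p : Vec d × Vec d) :
    0 ≤ zw e θ η a q p ∧ zw e θ η a q p ≤ 1 := by
  have hR1 : 1 ≤ RR p.1 p.2 := one_le_RR p.1 p.2
  have hR : 0 < RR p.1 p.2 := by linarith
  have hl0 : 0 ≤ len (p.1 - p.2) := len_nonneg _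
  have hl1 : len (p.1 - p.2) ≤ 2 * RR p.1 p.2 := len_le_RR p.1 p.2
  have h0 : 0 ≤ len (p.1 - p.2) / (2 * RR p.1 p.2) := by positivity
  have h1 : len (p.1 - p.2) / (2 * RR p.1 p.2) ≤ 1 := (div_le_one (by positivity)).2 hl1
  have h2 : RR p.1 p.2 ^ (a + q - 2) ≤ 1 := Real.rpow_le_one_of_one_le_of_nonpos hR1 (by linarith)
  have h3 : 0 ≤ RR p.1 p.2 ^ (a + q - 2) := by positivity
  have key : ∀ x : ℝ, 0 ≤ x → 0 ≤ (len (p.1 - p.2) / (2 * RR p.1 p.2)) ^ x * RR p.1 p.2 ^ (a + q - 2) ∧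
      (len (p.1 - p.2) / (2 * RR p.1 p.2)) ^ x * RR p.1 p.2 ^ (a + q - 2) ≤ 1 := by
    intro x hx
    refine ⟨mul_nonneg (Real.rpow_nonneg h0 _) h3, ?_⟩
    exact mul_le_one₀ (Real.rpow_le_one h0 h1 hx) h3 h2
  unfold zw
  split_ifs
  · exact key _ (by linarith)
  · exact key _ (by linarith)
  · exact ⟨zero_le_one, le_rfl⟩

lemma ZS_univ (e : Fin d) (θ η a q : ℝ) (g : Vec d → ℝ) :
    ZS e θ η a q g univ = Pool.Agent.H25.PT.XG 1 (zw e θ η a q) g := by
  unfold ZS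
  rw [indicator_univ]

lemma Zu_cont {T : ℝ} {Q f : ℝ → Vec d → Vec d → ℝ} (hf : IsClassicalSol T Q f) (e : Fin d) (θ η : ℝ)
    (ha : 0 < a) (hq : 1 < q) (haq : a + q ≤ 2) : ContinuousOn (Zu e θ η a q f) (Ico 0 T) := by
  unfold Zu
  simp only [ZS_univ]
  exact Pool.Agent.H25.PT.XGt_cont zero_le_one le_rfl hf (zw_meas e θ η a q) (fun p => (zw_01 e θ η ha hq haq p).1)
    (fun p => (zw_01 e θ η ha hq haq p).2)

lemma Zu_pl {T : ℝ} {Q f : ℝ → Vec d → Vec d → ℝ} (hf : IsClassicalSol T Q f) {e : Fin d}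
    (hpl : Planar e T f) (θ η : ℝ) (ha : 0 < a) (hq : 1 < q) (haq : a + q ≤ 2) {t : ℝ} (ht : t ∈ Ico 0 T) :
    PlF e (fun x => ZS e θ η a q (f t x) univ) := by
  simp only [ZS_univ]
  exact Pool.Agent.H25.PT.XG_pl zero_le_one le_rfl hf hpl (zw_meas e θ η a q) (fun p => (zw_01 e θ η ha hq haq p).1)
    (fun p => (zw_01 e θ η ha hq haq p).2) ht

lemma ZS_nonneg (e : Fin d) (θ η : ℝ) (ha : 0 < a) (hq : 1 < q) (haq : a + q ≤ 2) {g : Vec d → ℝ}
    (hg : ∀ v, 0 ≤ g v) (A : Set (Vec d × Vec d)) : 0 ≤ ZS e θ η a q g A := by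
  unfold ZS Pool.Agent.H25.PT.XG
  refine integral_nonneg fun p => mul_nonneg ?_ ?_
  · unfold dens
    have h1 : 0 ≤ len (p.1 - p.2) := len_nonneg _
    have h2 : 0 < RR p.1 p.2 := RR_pos p.1 p.2
    have h3 := hg p.1
    have h4 := hg p.2
    positivity
  · exact indicator_nonneg (fun p _ => (zw_01 e θ η ha hq haq p).1) p

end Pool.Agent.H48.PV
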